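import Pool.Agent.Helper82.NL.ADefs

/-!
The finite information about the base angle and the height (project NL, MP_3235d4_lc).
-/

namespace Pool.Agent.Helper82.NL

/-- A continuous map on a compact presented space is approximated on the dense sequence by a
function computable from the oracles with finitely many values. Proof: uniform continuity gives
`e` such that `dist p p' ≤ 2 / 2 ^ e` implies `dist (φ p) (φ p') < ε`; by density and compactness
there is `M` such that every point is at distance `< 3 / 4 / 2 ^ e` from some `y i`, `i < M`. Let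
`i(m)` be the least `i < M` with `f (pair m (pair i (e + 2))) ≤ 4` (`TR.rfind`, the search
terminates because of the choice of `M`; then `dist (y m) (y i) ≤ 5 / 4 / 2 ^ e`), and `Q m` the
number with `dist (φ (y i)) (c (Q m)) < ε` chosen for `i(m)`: a finite table, `TR.table`. -/
theorem approx_map {O : Set (ℕ →. ℕ)} {Y : Type} [MetricSpace Y] [CompactSpace Y] {y : ℕ → Y}
    {f : ℕ → ℕ} (hp : Pres O y f) {Z : Type} [MetricSpace Z] (φ : Y → Z) (hφ : Continuous φ)
    (c : ℕ → Z) (ε : ℝ) (hε : 0 < ε) (hc : ∀ p, ∃ n, dist (φ p) (c n) < ε) :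
    ∃ Q : ℕ → ℕ, TR O Q ∧ ∀ m, dist (φ (y m)) (c (Q m)) < 2 * ε := by
  have huc : UniformContinuous φ := CompactSpace.uniformContinuous_of_continuous hφ
  obtain ⟨δ, hδ, hφδ⟩ := Metric.uniformContinuous_iff.1 huc ε hε
  obtain ⟨e, he⟩ : ∃ e : ℕ, (2 : ℝ) / 2 ^ e < δ := by
    obtain ⟨e, he⟩ := exists_pow_lt_of_lt_one (show (0 : ℝ) < δ / 2 by linarith)
      (show (1 / 2 : ℝ) < 1 by norm_num)
    refine ⟨e, ?_⟩
    rw [one_div, inv_pow] at he
    rw [div_eq_mul_inv]
    linarith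
  have hpe : (0 : ℝ) < 2 ^ e := by positivity
  have hpe2 : (2 : ℝ) ^ (e + 2) = 4 * 2 ^ e := by ring
  -- finitely many centres
  obtain ⟨M, hM⟩ : ∃ M : ℕ, ∀ p : Y, ∃ i < M, dist p (y i) < 3 / 2 ^ (e + 2) := by
    have hcov : (Set.univ : Set Y) ⊆ ⋃ i : ℕ, Metric.ball (y i) (3 / 2 ^ (e + 2)) := by
      intro p _
      have hpos : (0 : ℝ) < 3 / 2 ^ (e + 2) := by positivity
      obtain ⟨i, hi⟩ := hp.dense.exists_dist_lt p hpos
      exact Set.mem_iUnion.2 ⟨i, Metric.mem_ball.2 hi⟩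
    obtain ⟨t, ht⟩ := isCompact_univ.elim_finite_subcover _ (fun i => Metric.isOpen_ball) hcov
    refine ⟨t.sup (fun i => i) + 1, fun p => ?_⟩
    obtain ⟨i, hi⟩ := Set.mem_iUnion.1 (ht (Set.mem_univ p))
    obtain ⟨hit, hi⟩ := Set.mem_iUnion.1 hi
    refine ⟨i, ?_, Metric.mem_ball.1 hi⟩
    have : i ≤ t.sup (fun i => i) := Finset.le_sup (f := fun i : ℕ => i) hit
    omega
  -- the test
  have hg : TR O (fun z => f (Nat.pair z.unpair.1 (Nat.pair z.unpair.2 (e + 2))) - 4) :=
    TR.sub (hp.tr.comp (TR.pair (TR.left TR.id) (TR.pair (TR.right TR.id) (TR.const (e + 2)))))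
      (TR.const 4)
  have hnear : ∀ m, ∃ i < M, f (Nat.pair m (Nat.pair i (e + 2))) ≤ 4 := by
    intro m
    obtain ⟨i, hiM, hi⟩ := hM (y m)
    refine ⟨i, hiM, ?_⟩
    have h1 := (abs_le.1 (hp.apx m i (e + 2))).2
    have h2 : (f (Nat.pair m (Nat.pair i (e + 2))) : ℝ) / 2 ^ (e + 2) ≤ 4 / 2 ^ (e + 2) := by
      have h3 : (3 : ℝ) / 2 ^ (e + 2) + 1 / 2 ^ (e + 2) = 4 / 2 ^ (e + 2) := by ring
      linarith
    rw [div_le_div_iff_of_pos_right (by positivity)] at h2
    exact_mod_cast h2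
  obtain ⟨I, hI, hI'⟩ := TR.rfind hg (fun a => by
    obtain ⟨i, -, hi⟩ := hnear a
    refine ⟨i, ?_⟩
    simp only [Nat.unpair_pair]
    omega)
  have hIM : ∀ m, I m < M := by
    intro m
    obtain ⟨i, hiM, hi⟩ := hnear m
    by_contra hlt
    have h1 := (hI' m).2 i (by omega)
    simp only [Nat.unpair_pair] at h1
    omega
  have hIn : ∀ m, dist (y m) (y (I m)) < δ := by
    intro m
    have h1 := (hI' m).1
    simp only [Nat.unpair_pair] at h1
    have h2 : f (Nat.pair m (Nat.pair (I m) (e + 2))) ≤ 4 := by omega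
    have h3 : (f (Nat.pair m (Nat.pair (I m) (e + 2))) : ℝ) / 2 ^ (e + 2) ≤ 4 / 2 ^ (e + 2) := by
      rw [div_le_div_iff_of_pos_right (by positivity)]
      exact_mod_cast h2
    have h4 := (abs_le.1 (hp.apx m (I m) (e + 2))).1
    have h5 : (4 : ℝ) / 2 ^ (e + 2) + 1 / 2 ^ (e + 2) ≤ 2 / 2 ^ e := by
      rw [hpe2, ← add_div, div_le_div_iff₀ (by positivity) hpe]
      nlinarith
    linarith
  choose n hn using fun i => hc (y i)
  have hT : TR O (fun i => if i < M then n i else 0) :=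
    TR.table M (fun m hm => if_neg (by omega))
  refine ⟨fun m => (fun i => if i < M then n i else 0) (I m), hT.comp hI, fun m => ?_⟩
  have h1 : (fun i => if i < M then n i else 0) (I m) = n (I m) := if_pos (hIM m)
  rw [h1]
  have h2 := hφδ (hIn m)
  have h3 := hn (I m)
  have h4 := dist_triangle (φ (y m)) (φ (y (I m))) (c (n (I m)))
  linarith

end Pool.Agent.Helper82.NL
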