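import Pool.Agent.Helper82.NL.A9

/-!
Complexity of the validity of certificates (project NL, MP_3235d4_lc).
-/

namespace Pool.Agent.Helper82.NL

variable {O : Set (ℕ →. ℕ)}

theorem TR.ci {a b : ℕ → ℕ} (ha : TR O a) (hb : TR O b) :
    TR O (fun n => NL.ci (a n) (b n)) :=
  TR.left (TR.op ent_prim (TR.right (TR.right ha)) hb)

theorem TR.clab {a b : ℕ → ℕ} (ha : TR O a) (hb : TR O b) :
    TR O (fun n => NL.clab (a n) (b n)) :=
  TR.left (TR.right (TR.op ent_prim (TR.right (TR.right ha)) hb))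

theorem TR.cG {a b : ℕ → ℕ} (ha : TR O a) (hb : TR O b) :
    TR O (fun n => NL.cG (a n) (b n)) :=
  TR.right (TR.right (TR.op ent_prim (TR.right (TR.right ha)) hb))

theorem TR.cn {a : ℕ → ℕ} (ha : TR O a) : TR O (fun n => NL.cn (a n)) :=
  TR.comp (f := NL.len) (TR.of_prim len_prim) (TR.right (TR.right ha))

theorem TR.res {a : ℕ → ℕ} (ha : TR O a) : TR O (fun n => NL.res (a n)) :=
  TR.left (TR.right ha)

namespace CD

variable {N : ℕ → ℕ} {Y : Type} [MetricSpace Y] (C : CD O N Y)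

theorem dec_near {a b d : ℕ → ℕ} (ha : TR O a) (hb : TR O b) (hd : TR O d) :
    Dec O (fun n => C.near (a n) (b n) (d n)) :=
  Dec.le (TR.comp C.pres.tr (TR.pair hb (TR.pair (TR.ci ha hd)
    (TR.add (TR.res ha) (TR.const 2))))) (TR.const 4)

theorem dec_adj {a b d : ℕ → ℕ} (ha : TR O a) (hb : TR O b) (hd : TR O d) :
    Dec O (fun n => C.adj (a n) (b n) (d n)) :=
  Dec.le (TR.comp C.pres.tr (TR.pair (TR.ci ha hb) (TR.pair (TR.ci ha hd)
    (TR.add (TR.res ha) (TR.const 2))))) (TR.const 16)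

/-- `dist (GG c r) (GG c r') < 1 / (4 Fe)` iff `cdist (100 Fe) (cG c r) (cG c r') < 25`. -/
theorem GG_iff (c r r' : ℕ) : dist (GG c r) (GG c r') < 1 / (4 * (Fe (ord c) : ℝ)) ↔
    cdist (100 * Fe (ord c)) (cG c r) (cG c r') < 25 := by
  have hF : 0 < Fe (ord c) := Fe_pos _
  have hFr : (0 : ℝ) < (Fe (ord c) : ℝ) := by exact_mod_cast hF
  have hM : 0 < 100 * Fe (ord c) := by omega
  have h := dist_eq_cdist hM (cG c r) (cG c r')
  have hc : ((100 * Fe (ord c) : ℕ) : ℝ) = 100 * (Fe (ord c) : ℝ) := by push_cast; ring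
  rw [hc] at h
  unfold GG
  rw [h, div_lt_div_iff₀ (by positivity) (by positivity)]
  rw [← Nat.cast_lt (α := ℝ)]
  push_cast
  constructor
  · intro hh
    nlinarith
  · intro hh
    nlinarith

theorem power_iff (a b : ℕ) : dist (((a : ℝ) / 100 : ℝ) : UnitAddCircle)
    (((b : ℝ) / 100 : ℝ) : UnitAddCircle) < 1 / 5 ↔ cdist 100 a b < 20 := by
  have h := dist_eq_cdist (M := 100) (by norm_num) a b
  have hc : ((100 : ℕ) : ℝ) = 100 := by norm_num
  rw [hc] at h
  rw [h, div_lt_div_iff₀ (by norm_num) (by norm_num), ← Nat.cast_lt (α := ℝ)]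
  push_cast
  constructor
  · intro hh
    linarith
  · intro hh
    linarith

end CD

end Pool.Agent.Helper82.NL
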