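import Pool.Agent.Helper82.NL.A10a

/-!
Complexity of the validity of certificates (project NL, MP_3235d4_lc).
-/

namespace Pool.Agent.Helper82.NL

variable {O : Set (ℕ →. ℕ)}

namespace CD

variable {N : ℕ → ℕ} {Y : Type} [MetricSpace Y] (C : CD O N Y)

/-- All conditions except `cover`. -/
def Loc (c : ℕ) : Prop := C.e0 ≤ res c ∧
  (∀ r < cn c, ∀ r' < cn c, C.adj c r r' → clab c r = 1 → clab c r' ≠ 1 →
    40 ≤ C.H (ci c r) ∨ 40 ≤ C.H (ci c r')) ∧
  (∀ r < cn c, ∀ r' < cn c, C.adj c r r' → clab c r = 1 → clab c r' = 1 →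
    C.H (ci c r) < 50 → C.H (ci c r') < 50 → cdist (100 * Fe (ord c)) (cG c r) (cG c r') < 25) ∧
  (∀ r < cn c, clab c r = 1 → C.H (ci c r) < 50 → cdist 100 (cG c r) (C.Q (ci c r)) < 20)

theorem A10b_lt {a b : ℕ → ℕ} (ha : TR O a) (hb : TR O b) : Dec O (fun n => a n < b n) :=
  (Dec.le (TR.add ha (TR.const 1)) hb).of_iff fun _ => Nat.lt_iff_add_one_le

theorem dec_Loc : Dec O C.Loc := by
  have hc : TR O (fun w : ℕ => w.unpair.1.unpair.1) := TR.left (TR.left TR.id)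
  have hr : TR O (fun w : ℕ => w.unpair.1.unpair.2) := TR.right (TR.left TR.id)
  have hr' : TR O (fun w : ℕ => w.unpair.2) := TR.right TR.id
  have hH : ∀ {a b : ℕ → ℕ}, TR O a → TR O b → TR O (fun w => C.H (ci (a w) (b w))) :=
    fun ha hb => C.H_tr.comp (TR.ci ha hb)
  have h1 : Dec O (fun c => C.e0 ≤ res c) := Dec.le (TR.const C.e0) (TR.res TR.id)
  have h2 : Dec O (fun w : ℕ => C.adj w.unpair.1.unpair.1 w.unpair.1.unpair.2 w.unpair.2 →
      clab w.unpair.1.unpair.1 w.unpair.1.unpair.2 = 1 → clab w.unpair.1.unpair.1 w.unpair.2 ≠ 1 →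
      40 ≤ C.H (ci w.unpair.1.unpair.1 w.unpair.1.unpair.2) ∨
        40 ≤ C.H (ci w.unpair.1.unpair.1 w.unpair.2)) :=
    (C.dec_adj hc hr hr').imp ((Dec.eq (TR.clab hc hr) (TR.const 1)).imp
      ((Dec.eq (TR.clab hc hr') (TR.const 1)).not.imp
        ((Dec.le (TR.const 40) (hH hc hr)).or (Dec.le (TR.const 40) (hH hc hr')))))
  have h2' : Dec O (fun c => ∀ r < cn c, ∀ r' < cn c, C.adj c r r' → clab c r = 1 →
      clab c r' ≠ 1 → 40 ≤ C.H (ci c r) ∨ 40 ≤ C.H (ci c r')) :=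
    Dec.ball (p := fun c r => ∀ r' < cn c, C.adj c r r' → clab c r = 1 →
      clab c r' ≠ 1 → 40 ≤ C.H (ci c r) ∨ 40 ≤ C.H (ci c r'))
      (Dec.ball (p := fun z r' => C.adj z.unpair.1 z.unpair.2 r' →
        clab z.unpair.1 z.unpair.2 = 1 → clab z.unpair.1 r' ≠ 1 →
        40 ≤ C.H (ci z.unpair.1 z.unpair.2) ∨ 40 ≤ C.H (ci z.unpair.1 r')) h2
        (TR.cn (TR.left TR.id))) (TR.cn TR.id)
  have h3 : Dec O (fun w : ℕ => C.adj w.unpair.1.unpair.1 w.unpair.1.unpair.2 w.unpair.2 →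
      clab w.unpair.1.unpair.1 w.unpair.1.unpair.2 = 1 → clab w.unpair.1.unpair.1 w.unpair.2 = 1 →
      C.H (ci w.unpair.1.unpair.1 w.unpair.1.unpair.2) < 50 →
      C.H (ci w.unpair.1.unpair.1 w.unpair.2) < 50 →
      cdist (100 * Fe (ord w.unpair.1.unpair.1)) (cG w.unpair.1.unpair.1 w.unpair.1.unpair.2)
        (cG w.unpair.1.unpair.1 w.unpair.2) < 25) :=
    (C.dec_adj hc hr hr').imp ((Dec.eq (TR.clab hc hr) (TR.const 1)).imp
      ((Dec.eq (TR.clab hc hr') (TR.const 1)).imp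
        ((A10b_lt (hH hc hr) (TR.const 50)).imp ((A10b_lt (hH hc hr') (TR.const 50)).imp
          (A10b_lt (TR.cdist (TR.mul (TR.const 100) (TR.FeA (TR.left hc))) (TR.cG hc hr)
            (TR.cG hc hr')) (TR.const 25))))))
  have h3' : Dec O (fun c => ∀ r < cn c, ∀ r' < cn c, C.adj c r r' → clab c r = 1 →
      clab c r' = 1 → C.H (ci c r) < 50 → C.H (ci c r') < 50 →
      cdist (100 * Fe (ord c)) (cG c r) (cG c r') < 25) :=
    Dec.ball (p := fun c r => ∀ r' < cn c, C.adj c r r' → clab c r = 1 →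
      clab c r' = 1 → C.H (ci c r) < 50 → C.H (ci c r') < 50 →
      cdist (100 * Fe (ord c)) (cG c r) (cG c r') < 25)
      (Dec.ball (p := fun z r' => C.adj z.unpair.1 z.unpair.2 r' →
        clab z.unpair.1 z.unpair.2 = 1 → clab z.unpair.1 r' = 1 →
        C.H (ci z.unpair.1 z.unpair.2) < 50 → C.H (ci z.unpair.1 r') < 50 →
        cdist (100 * Fe (ord z.unpair.1)) (cG z.unpair.1 z.unpair.2) (cG z.unpair.1 r') < 25) h3
        (TR.cn (TR.left TR.id))) (TR.cn TR.id)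
  have gc : TR O (fun w : ℕ => w.unpair.1) := TR.left TR.id
  have h4 : Dec O (fun w : ℕ => clab w.unpair.1 w.unpair.2 = 1 →
      C.H (ci w.unpair.1 w.unpair.2) < 50 →
      cdist 100 (cG w.unpair.1 w.unpair.2) (C.Q (ci w.unpair.1 w.unpair.2)) < 20) :=
    (Dec.eq (TR.clab gc hr') (TR.const 1)).imp ((A10b_lt (hH gc hr') (TR.const 50)).imp
      (A10b_lt (TR.cdist (TR.const 100) (TR.cG gc hr') (C.Q_tr.comp (TR.ci gc hr')))
        (TR.const 20)))
  have h4' : Dec O (fun c => ∀ r < cn c, clab c r = 1 → C.H (ci c r) < 50 →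
      cdist 100 (cG c r) (C.Q (ci c r)) < 20) :=
    Dec.ball (p := fun c r => clab c r = 1 → C.H (ci c r) < 50 →
      cdist 100 (cG c r) (C.Q (ci c r)) < 20) h4 (TR.cn TR.id)
  exact h1.and (h2'.and (h3'.and h4'))

theorem A10b_valid_iff (c : ℕ) : C.Valid c ↔ C.Loc c ∧ ∀ m, ∃ r < cn c, C.near c m r := by
  constructor
  · intro h
    refine ⟨⟨h.e0_le, h.sep, fun r hr r' hr' ha h1 h2 h3 h4 => ?_, fun r hr h1 h2 => ?_⟩, h.cover⟩
    · exact (GG_iff c r r').1 (h.root r hr r' hr' ha h1 h2 h3 h4)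
    · exact (power_iff _ _).1 (h.power r hr h1 h2)
  · rintro ⟨⟨h1, h2, h3, h4⟩, h5⟩
    refine ⟨h1, h5, h2, fun r hr r' hr' ha g1 g2 g3 g4 => ?_, fun r hr g1 g2 => ?_⟩
    · exact (GG_iff c r r').2 (h3 r hr r' hr' ha g1 g2 g3 g4)
    · exact (power_iff _ _).2 (h4 r hr g1 g2)

theorem valid_pi : ∃ R, TR O R ∧ ∀ c, C.Valid c ↔ ∀ m, R (Nat.pair c m) = 0 := by
  have h1 : Dec O (fun z : ℕ => C.Loc z.unpair.1) := C.dec_Loc.comp (TR.left TR.id)
  have h2 : Dec O (fun w : ℕ => C.near w.unpair.1.unpair.1 w.unpair.1.unpair.2 w.unpair.2) :=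
    C.dec_near (TR.left (TR.left TR.id)) (TR.right (TR.left TR.id)) (TR.right TR.id)
  have h3 : Dec O (fun z : ℕ => ∃ r < cn z.unpair.1, C.near z.unpair.1 z.unpair.2 r) :=
    Dec.bex (p := fun z r => C.near z.unpair.1 z.unpair.2 r) h2 (TR.cn (TR.left TR.id))
  obtain ⟨R, hR, hR'⟩ := h1.and h3
  refine ⟨R, hR, fun c => ?_⟩
  rw [A10b_valid_iff]
  constructor
  · rintro ⟨h4, h5⟩ m
    rw [hR']
    simp only [Nat.unpair_pair]
    exact ⟨h4, h5 m⟩
  · intro h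
    have h4 : ∀ m, C.Loc c ∧ ∃ r < cn c, C.near c m r := fun m => by
      have h5 := (hR' (Nat.pair c m)).1 (h m)
      simp only [Nat.unpair_pair] at h5
      exact h5
    exact ⟨(h4 0).1, fun m => (h4 m).2⟩

theorem ne_sigma : ∃ R, TR O R ∧ ∀ L, C.NE L ↔ ∃ m, R (Nat.pair L m) = 0 := by
  have h1 : Dec O (fun z : ℕ => C.H z.unpair.2 ≤ 10) :=
    Dec.le (C.H_tr.comp (TR.right TR.id)) (TR.const 10)
  have he : TR O (fun w : ℕ => ent w.unpair.1.unpair.1.unpair.1 w.unpair.1.unpair.2) :=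
    TR.op ent_prim (TR.left (TR.left (TR.left TR.id))) (TR.right (TR.left TR.id))
  have he' : TR O (fun w : ℕ => ent w.unpair.1.unpair.1 w.unpair.2) :=
    TR.op ent_prim (TR.left (TR.left TR.id)) (TR.right TR.id)
  have h2 : Dec O (fun w : ℕ =>
      clab (ent w.unpair.1.unpair.1.unpair.1 w.unpair.1.unpair.2) w.unpair.2 = 1 ∧
      C.near (ent w.unpair.1.unpair.1.unpair.1 w.unpair.1.unpair.2)
        w.unpair.1.unpair.1.unpair.2 w.unpair.2) :=
    (Dec.eq (TR.clab he (TR.right TR.id)) (TR.const 1)).and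
      (C.dec_near he (TR.right (TR.left (TR.left TR.id))) (TR.right TR.id))
  have h3 : Dec O (fun z : ℕ => ∃ r < cn (ent z.unpair.1.unpair.1 z.unpair.2),
      clab (ent z.unpair.1.unpair.1 z.unpair.2) r = 1 ∧
      C.near (ent z.unpair.1.unpair.1 z.unpair.2) z.unpair.1.unpair.2 r) :=
    Dec.bex (p := fun z r => clab (ent z.unpair.1.unpair.1 z.unpair.2) r = 1 ∧
      C.near (ent z.unpair.1.unpair.1 z.unpair.2) z.unpair.1.unpair.2 r) h2 (TR.cn he')
  have h4 : Dec O (fun y : ℕ => ∀ s < len y.unpair.1, ∃ r < cn (ent y.unpair.1 s),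
      clab (ent y.unpair.1 s) r = 1 ∧ C.near (ent y.unpair.1 s) y.unpair.2 r) :=
    Dec.ball (p := fun y s => ∃ r < cn (ent y.unpair.1 s),
      clab (ent y.unpair.1 s) r = 1 ∧ C.near (ent y.unpair.1 s) y.unpair.2 r) h3
      ((TR.of_prim len_prim).comp (TR.left TR.id))
  obtain ⟨R, hR, hR'⟩ := h1.and h4
  refine ⟨R, hR, fun L => ?_⟩
  unfold NE
  refine exists_congr fun m => ?_
  rw [hR']
  simp only [Nat.unpair_pair]

end CD

end Pool.Agent.Helper82.NL
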