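import Pool.Agent.Helper82.NL.A6
import Pool.Agent.Helper82.NL.A8
import Pool.Agent.Helper82.NL.A10

/-!
The system of certificates of a presentation (project NL, MP_3235d4_lc).
-/

namespace Pool.Agent.Helper82.NL

/-- The certificates of a presentation form a system for the sets `V j = {x | Fe x ∣ N j}`. -/
theorem CD.certSys {O : Set (ℕ →. ℕ)} {N : ℕ → ℕ} {Y : Type} [MetricSpace Y] (C : CD O N Y) :
    Nonempty (CertSys O (fun j => {x | Fe x ∣ N j})) := by
  refine ⟨⟨C.Valid, fun c => {j | C.In c (some j)}, C.NE, C.valid_pi, C.ne_sigma,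
    fun L h0 hL => C.ne_iff h0 hL, fun c hc => C.in_finite hc, fun c hc j hj => ?_,
    fun j x hx => ?_⟩⟩
  · exact C.sound hc hj
  · obtain ⟨c, hc, hcx, h⟩ := C.complete j x hx
    refine ⟨c, hc, hcx, ?_⟩
    ext i
    rw [Set.mem_singleton_iff]
    change C.In c (some i) ↔ i = j
    rw [h (some i), Option.some.injEq]

end Pool.Agent.Helper82.NL
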