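import Pool.Agent.Helper82.NL.A1

/-!
The finite information about the base angle and the height (project NL, MP_3235d4_lc).
-/

namespace Pool.Agent.Helper82.NL

theorem A2_floor (x : ℝ) (hx : 0 ≤ x) : ∃ n : ℕ, |x - (n : ℝ) / 100| < 1 / 100 := by
  refine ⟨⌊100 * x⌋₊, ?_⟩
  have h1 : (⌊100 * x⌋₊ : ℝ) ≤ 100 * x := Nat.floor_le (by positivity)
  have h2 : 100 * x < (⌊100 * x⌋₊ : ℝ) + 1 := Nat.lt_floor_add_one _
  rw [abs_lt]
  constructor <;> linarith

theorem A2_dist (x y : ℝ) : dist (x : UnitAddCircle) (y : UnitAddCircle) ≤ |x - y| := by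
  rw [dist_eq_norm, ← QuotientAddGroup.mk_sub]
  exact QuotientAddGroup.norm_mk_le_norm

theorem A2_circle (z : UnitAddCircle) :
    ∃ n : ℕ, dist z (((n : ℝ) / 100 : ℝ) : UnitAddCircle) < 1 / 100 := by
  obtain ⟨x, rfl⟩ := QuotientAddGroup.mk_surjective z
  obtain ⟨n, hn⟩ := A2_floor (Int.fract x) (Int.fract_nonneg x)
  refine ⟨n, ?_⟩
  have h1 : ((x : ℝ) : UnitAddCircle) = ((Int.fract x : ℝ) : UnitAddCircle) := by
    rw [← Int.self_sub_floor, QuotientAddGroup.mk_sub]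
    have h2 : (((⌊x⌋ : ℤ) : ℝ) : UnitAddCircle) = 0 := by
      rw [AddCircle.coe_eq_zero_iff]
      exact ⟨⌊x⌋, by simp⟩
    rw [h2, sub_zero]
  change dist ((x : ℝ) : UnitAddCircle) _ < _
  rw [h1]
  exact lt_of_le_of_lt (A2_dist _ _) hn

theorem A2_rho_cont (N : ℕ → ℕ) (o : Option ℕ) : Continuous (rhoF N o) :=
  Continuous.sumElim (continuous_const_smul _) continuous_const

theorem A2_inl (z : UnitAddCircle) : etaF (Sum.inl z) = 0 := rfl

theorem A2_inr (t : unitInterval) : etaF (Sum.inr t) = (t : ℝ) := rfl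

theorem A2_eta_cont : Continuous etaF := by
  have h1 : etaF = Sum.elim (fun _ : UnitAddCircle => (0 : ℝ))
      (fun t : unitInterval => (t : ℝ)) := by
    funext κ
    rcases κ with z | t
    · rfl
    · rfl
  rw [h1]
  exact Continuous.sumElim continuous_const continuous_subtype_val

theorem A2_rho_rel (N : ℕ → ℕ) (o : Option ℕ) (κ : KK) (o' : Option ℕ) (κ' : KK)
    (h : Rel o κ o' κ') : rhoF N o κ = rhoF N o' κ' := by
  rcases h with ⟨rfl, rfl⟩ | ⟨rfl, rfl | ⟨rfl, rfl⟩ | ⟨rfl, rfl⟩⟩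
  · rfl
  · rfl
  · simp [rhoF]
  · simp [rhoF]

theorem A2_eta_rel (o : Option ℕ) (κ : KK) (o' : Option ℕ) (κ' : KK)
    (h : Rel o κ o' κ') : etaF κ = etaF κ' := by
  rcases h with ⟨rfl, rfl⟩ | ⟨rfl, rfl | ⟨rfl, rfl⟩ | ⟨rfl, rfl⟩⟩
  · rfl
  · rfl
  · simp [A2_inl, A2_inr]
  · simp [A2_inl, A2_inr]

/-- `Leafy.descend` for `rhoF` and `fun _ κ => etaF κ` (the conditions `compat` and `conv` are
immediate, the differences in `conv` are `0`), uniform continuity of both maps (common `e0`),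
and `approx_map` with `c n = n / 100` and `ε = 1 / 100` (for `eta` use that its values lie in
`[0, 1]`). -/
theorem exists_CD {O : Set (ℕ →. ℕ)} {N : ℕ → ℕ} {Y : Type} [MetricSpace Y]
    {F : Option ℕ → KK → Y} (h : Leafy N F) {y : ℕ → Y} {f : ℕ → ℕ} (hp : Pres O y f) :
    Nonempty (CD O N Y) := by
  have := h.compactSpace
  obtain ⟨rho, rho_cont, rho_F⟩ := h.descend (rhoF N) (A2_rho_cont N) (A2_rho_rel N) (by
    intro ε hε
    refine ⟨0, fun j _ κ => ?_⟩
    rcases κ with z | t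
    · simpa [rhoF, nu, wnd] using hε
    · simpa [rhoF, nu] using hε)
  obtain ⟨eta, eta_cont, eta_F⟩ := h.descend (fun _ κ => etaF κ) (fun _ => A2_eta_cont)
    A2_eta_rel (by
    intro ε hε
    refine ⟨0, fun j _ κ => ?_⟩
    rcases κ with z | t
    · simpa [A2_inl, nu] using hε
    · simpa [A2_inr, nu] using hε)
  have eta_nn : ∀ p, 0 ≤ eta p := by
    intro p
    obtain ⟨o, κ, rfl⟩ := h.surj p
    rw [eta_F]
    rcases κ with z | t
    · rw [A2_inl]
    · rw [A2_inr]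
      exact t.2.1
  obtain ⟨Q, Q_tr, hQ⟩ := approx_map hp rho rho_cont
    (fun n => (((n : ℝ) / 100 : ℝ) : UnitAddCircle)) (1 / 100) (by norm_num)
    fun p => A2_circle (rho p)
  obtain ⟨H, H_tr, hH⟩ := approx_map hp eta eta_cont (fun n => (n : ℝ) / 100) (1 / 100)
    (by norm_num) fun p => by
      obtain ⟨n, hn⟩ := A2_floor (eta p) (eta_nn p)
      exact ⟨n, by rw [Real.dist_eq]; exact hn⟩
  have u1 : UniformContinuous rho := CompactSpace.uniformContinuous_of_continuous rho_cont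
  have u2 : UniformContinuous eta := CompactSpace.uniformContinuous_of_continuous eta_cont
  obtain ⟨d1, hd1, h1⟩ := Metric.uniformContinuous_iff.1 u1 (1 / 100) (by norm_num)
  obtain ⟨d2, hd2, h2⟩ := Metric.uniformContinuous_iff.1 u2 (1 / 100) (by norm_num)
  obtain ⟨e0, he0⟩ := exists_pow_lt_of_lt_one (lt_min (half_pos hd1) (half_pos hd2))
    (show (1 / 2 : ℝ) < 1 by norm_num)
  have he : (2 : ℝ) / 2 ^ e0 = 2 * (1 / 2) ^ e0 := by
    rw [one_div, inv_pow]
    rfl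
  refine ⟨⟨F, h, y, f, hp, rho, rho_cont, rho_F, eta, eta_cont, eta_F, e0, ?_, Q, Q_tr, ?_, H,
    H_tr, ?_⟩⟩
  · intro p p' hpp
    rw [he] at hpp
    have h3 := (lt_min_iff.1 he0).1
    have h4 := (lt_min_iff.1 he0).2
    refine ⟨h1 (by linarith), ?_⟩
    rw [← Real.dist_eq]
    exact h2 (by linarith)
  · intro m
    have h3 := hQ m
    norm_num at h3 ⊢
    exact h3
  · intro m
    have h3 := hH m
    rw [Real.dist_eq] at h3
    norm_num at h3 ⊢
    exact h3

end Pool.Agent.Helper82.NL
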