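import Pool.Agent.Helper82.NL.ADefs

/-!
Labels are constant on leaves (project NL, MP_3235d4_lc).
-/

namespace Pool.Agent.Helper82.NL

namespace CD

variable {O : Set (ℕ →. ℕ)} {N : ℕ → ℕ} {Y : Type} [MetricSpace Y] (C : CD O N Y)

private theorem A3_pow (k : ℕ) : (1 : ℝ) / 2 ^ (k + 2) = 1 / 4 * (1 / 2 ^ k) := by
  rw [pow_add]
  have : (2 : ℝ) ^ k ≠ 0 := by positivity
  field_simp
  norm_num

private theorem A3_dist_le (i j k v : ℕ)
    (h : C.f (Nat.pair i (Nat.pair j (k + 2))) ≤ v) :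
    dist (C.y i) (C.y j) ≤ ((v : ℝ) + 1) / 4 * (1 / 2 ^ k) := by
  have h1 := C.pres.apx i j (k + 2)
  have h2 := (abs_le.1 h1).1
  have h3 : (C.f (Nat.pair i (Nat.pair j (k + 2))) : ℝ) ≤ v := by exact_mod_cast h
  have h4 := A3_pow k
  have h5 : (C.f (Nat.pair i (Nat.pair j (k + 2))) : ℝ) / 2 ^ (k + 2) ≤ v * (1 / 2 ^ (k + 2)) := by
    rw [mul_one_div]
    gcongr
  rw [h4] at h2 h5
  linarith

private theorem A3_le_of_dist (i j k v : ℕ)
    (h : dist (C.y i) (C.y j) ≤ ((v : ℝ) - 1) / 4 * (1 / 2 ^ k)) :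
    C.f (Nat.pair i (Nat.pair j (k + 2))) ≤ v := by
  have h1 := C.pres.apx i j (k + 2)
  have h2 := (abs_le.1 h1).2
  have h4 := A3_pow k
  have h6 : (0 : ℝ) < 1 / 2 ^ (k + 2) := by positivity
  have h5 : (C.f (Nat.pair i (Nat.pair j (k + 2))) : ℝ) * (1 / 2 ^ (k + 2)) ≤
      v * (1 / 2 ^ (k + 2)) := by
    rw [mul_one_div]
    rw [h4] at h2 ⊢
    linarith
  have h7 := le_of_mul_le_mul_right h5 h6
  exact_mod_cast h7

theorem dist_le_of_near {c m r : ℕ} (h : C.near c m r) :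
    dist (C.y m) (C.y (ci c r)) ≤ 5 / 4 * (1 / 2 ^ res c) := by
  have h1 := C.A3_dist_le m (ci c r) (res c) 4 h
  norm_num at h1 ⊢
  exact h1

theorem near_of_dist_le {c m r : ℕ} (h : dist (C.y m) (C.y (ci c r)) ≤ 3 / 4 * (1 / 2 ^ res c)) :
    C.near c m r := by
  refine C.A3_le_of_dist m (ci c r) (res c) 4 ?_
  norm_num at h ⊢
  exact h

theorem dist_le_of_adj {c r r' : ℕ} (h : C.adj c r r') :
    dist (C.y (ci c r)) (C.y (ci c r')) ≤ 17 / 4 * (1 / 2 ^ res c) := by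
  have h1 := C.A3_dist_le (ci c r) (ci c r') (res c) 16 h
  norm_num at h1 ⊢
  exact h1

theorem adj_of_dist_le {c r r' : ℕ}
    (h : dist (C.y (ci c r)) (C.y (ci c r')) ≤ 15 / 4 * (1 / 2 ^ res c)) : C.adj c r r' := by
  refine C.A3_le_of_dist (ci c r) (ci c r') (res c) 16 ?_
  norm_num at h ⊢
  exact h

/-- Every point of the space is near a centre. -/
theorem cover_all {c : ℕ} (hc : C.Valid c) (p : Y) :
    ∃ r < cn c, dist p (C.y (ci c r)) ≤ 3 / 2 * (1 / 2 ^ res c) := by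
  have hpos : (0 : ℝ) < 1 / 4 * (1 / 2 ^ res c) := by positivity
  obtain ⟨m, hm⟩ := C.pres.dense.exists_dist_lt p hpos
  obtain ⟨r, hr, hn⟩ := hc.cover m
  refine ⟨r, hr, ?_⟩
  have h1 := C.dist_le_of_near hn
  have h2 := dist_triangle p (C.y m) (C.y (ci c r))
  linarith

/-- Centres near two close points are adjacent. -/
theorem adj_of_close {c r r' : ℕ} {p p' : Y} (h : dist p p' ≤ 1 / 2 * (1 / 2 ^ res c))
    (hr : dist p (C.y (ci c r)) ≤ 3 / 2 * (1 / 2 ^ res c))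
    (hr' : dist p' (C.y (ci c r')) ≤ 3 / 2 * (1 / 2 ^ res c)) : C.adj c r r' := by
  apply C.adj_of_dist_le
  have hpos : (0 : ℝ) < 1 / 2 ^ res c := by positivity
  have h1 := dist_triangle (C.y (ci c r)) p (C.y (ci c r'))
  have h2 := dist_triangle p p' (C.y (ci c r'))
  rw [dist_comm (C.y (ci c r)) p] at h1
  linarith

/-- The height of a centre near a low point: `dist ≤ 3 / 2 / 2 ^ res c ≤ 2 / 2 ^ e0`. -/
theorem H_lt {c r : ℕ} (hc : C.Valid c) {p : Y} (hp : C.eta p ≤ 1 / 5)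
    (hr : dist p (C.y (ci c r)) ≤ 3 / 2 * (1 / 2 ^ res c)) : C.H (ci c r) < 40 := by
  have h1 : (1 : ℝ) / 2 ^ res c ≤ 1 / 2 ^ C.e0 :=
    one_div_le_one_div_of_le (by positivity) (pow_le_pow_right₀ (by norm_num) hc.e0_le)
  have h2 : dist p (C.y (ci c r)) ≤ 2 / 2 ^ C.e0 := by
    have h3 : (0 : ℝ) < 1 / 2 ^ C.e0 := by positivity
    have h4 : (2 : ℝ) / 2 ^ C.e0 = 2 * (1 / 2 ^ C.e0) := by ring
    rw [h4]
    linarith
  have h5 := (C.he0 _ _ h2).2
  have h6 := C.hH (ci c r)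
  have h7 := (abs_lt.1 h5).1
  have h8 := (abs_lt.1 h6).1
  have h9 : (C.H (ci c r) : ℝ) < 40 := by linarith
  exact_mod_cast h9

/-- Locally the label of the centres near a point does not change. -/
theorem label_local {c r r' : ℕ} (hc : C.Valid c) (hr0 : r < cn c) (hr0' : r' < cn c) {p p' : Y}
    (hp : C.eta p ≤ 1 / 5) (hp' : C.eta p' ≤ 1 / 5) (h : dist p p' ≤ 1 / 2 * (1 / 2 ^ res c))
    (hr : dist p (C.y (ci c r)) ≤ 3 / 2 * (1 / 2 ^ res c))
    (hr' : dist p' (C.y (ci c r')) ≤ 3 / 2 * (1 / 2 ^ res c)) : clab c r = 1 ↔ clab c r' = 1 := by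
  have h1 := C.adj_of_close h hr hr'
  have h2 := C.adj_of_close (by rwa [dist_comm]) hr' hr
  have h3 := C.H_lt hc hp hr
  have h4 := C.H_lt hc hp' hr'
  constructor
  · intro h5
    by_contra h6
    have := hc.sep r hr0 r' hr0' h1 h5 h6
    omega
  · intro h5
    by_contra h6
    have := hc.sep r' hr0' r hr0 h2 h5 h6
    omega

end CD

end Pool.Agent.Helper82.NL
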