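import Pool.Agent.Helper82.NL.A3

/-!
Labels are constant on leaves (project NL, MP_3235d4_lc).
-/

namespace Pool.Agent.Helper82.NL

namespace CD

variable {O : Set (ℕ →. ℕ)} {N : ℕ → ℕ} {Y : Type} [MetricSpace Y] (C : CD O N Y)

/-- On a preconnected low set the label is constant. Choose for every point a near centre
(`cover_all`) and let `ℓ p : Prop` or `Bool` be its label; by `label_local` it is locally constant
on `S`, so `ContinuousOn`; `IsPreconnected.constant`. -/
theorem label_const {c r r' : ℕ} (hc : C.Valid c) (hr0 : r < cn c) (hr0' : r' < cn c) {S : Set Y}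
    (hS : IsPreconnected S) (hlow : ∀ p ∈ S, C.eta p ≤ 1 / 5) {p p' : Y} (hp : p ∈ S)
    (hp' : p' ∈ S) (hr : dist p (C.y (ci c r)) ≤ 3 / 2 * (1 / 2 ^ res c))
    (hr' : dist p' (C.y (ci c r')) ≤ 3 / 2 * (1 / 2 ^ res c)) : clab c r = 1 ↔ clab c r' = 1 := by
  classical
  choose R hR0 hRd using C.cover_all hc
  have hpos : (0 : ℝ) < 1 / 2 * (1 / 2 ^ res c) := by positivity
  set f : Y → Bool := fun q => decide (clab c (R q) = 1) with hf
  have hcont : ContinuousOn f S := by
    intro q hq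
    refine (continuousWithinAt_const (b := f q)).congr_of_eventuallyEq ?_ rfl
    rw [Filter.EventuallyEq, eventually_nhdsWithin_iff]
    filter_upwards [Metric.ball_mem_nhds q hpos] with q' hq' hqS
    rw [hf]
    refine decide_eq_decide.2 ?_
    exact C.label_local hc (hR0 q') (hR0 q) (hlow q' hqS) (hlow q hq)
      (le_of_lt (Metric.mem_ball.1 hq')) (hRd q') (hRd q)
  have h1 : f p = f p' := hS.constant hcont hp hp'
  have h2 : clab c (R p) = 1 ↔ clab c (R p') = 1 := decide_eq_decide.1 h1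
  have h3 := C.label_local hc hr0 (hR0 p) (hlow p hp) (hlow p hp)
    (by rw [dist_self]; exact hpos.le) hr (hRd p)
  have h4 := C.label_local hc (hR0 p') hr0' (hlow p' hp') (hlow p' hp')
    (by rw [dist_self]; exact hpos.le) (hRd p') hr'
  exact h3.trans (h2.trans h4)

/-- The low part of a leaf is preconnected: the image of the circle and the image of
`[0, 1/5]` have a common point. -/
theorem low_preconnected (o : Option ℕ) :
    IsPreconnected {p | ∃ κ, C.F o κ = p ∧ etaF κ ≤ 1 / 5} := by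
  have hF := C.leafy.cont o
  have h1 : IsPreconnected (Set.range fun x : ℝ => C.F o (Sum.inl (x : UnitAddCircle))) :=
    isPreconnected_range (hF.comp (continuous_inl.comp (AddCircle.continuous_mk' 1)))
  have h2 : IsPreconnected ((fun x : ℝ => C.F o (Sum.inr (Set.projIcc 0 1 zero_le_one x))) ''
      Set.Icc (0 : ℝ) (1 / 5)) :=
    isPreconnected_Icc.image _
      (hF.comp (continuous_inr.comp continuous_projIcc)).continuousOn
  have he : C.F o (Sum.inl 0) = C.F o (Sum.inr 0) := (C.leafy.fib _ _ _ _).2 (by simp [Rel])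
  have m1 : C.F o (Sum.inl 0) ∈ Set.range fun x : ℝ => C.F o (Sum.inl (x : UnitAddCircle)) := by
    refine ⟨0, ?_⟩
    change C.F o (Sum.inl ((0 : ℝ) : UnitAddCircle)) = _
    rw [AddCircle.coe_zero]
  have m2 : C.F o (Sum.inl 0) ∈ (fun x : ℝ => C.F o (Sum.inr (Set.projIcc 0 1 zero_le_one x))) ''
      Set.Icc (0 : ℝ) (1 / 5) := by
    refine ⟨0, ⟨le_refl _, by norm_num⟩, ?_⟩
    change C.F o (Sum.inr (Set.projIcc (0 : ℝ) 1 zero_le_one 0)) = _
    rw [he]
    congr 2
    exact Subtype.ext (by simp)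
  have e1 : ∀ z : UnitAddCircle, etaF (Sum.inl z) = 0 := fun _ => rfl
  have e2 : ∀ t : unitInterval, etaF (Sum.inr t) = (t : ℝ) := fun _ => rfl
  have h3 := IsPreconnected.union _ m1 m2 h1 h2
  have h4 : {p | ∃ κ, C.F o κ = p ∧ etaF κ ≤ 1 / 5} =
      (Set.range fun x : ℝ => C.F o (Sum.inl (x : UnitAddCircle))) ∪
        ((fun x : ℝ => C.F o (Sum.inr (Set.projIcc 0 1 zero_le_one x))) ''
          Set.Icc (0 : ℝ) (1 / 5)) := by
    ext p
    constructor
    · rintro ⟨κ, rfl, hκ⟩
      rcases κ with z | t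
      · left
        obtain ⟨x, rfl⟩ := QuotientAddGroup.mk_surjective z
        exact ⟨x, rfl⟩
      · right
        refine ⟨(t : ℝ), ⟨t.2.1, ?_⟩, ?_⟩
        · rwa [e2] at hκ
        · change C.F o (Sum.inr (Set.projIcc (0 : ℝ) 1 zero_le_one (t : ℝ))) = _
          rw [Set.projIcc_val]
    · rintro (⟨x, rfl⟩ | ⟨x, hx, rfl⟩)
      · refine ⟨_, rfl, ?_⟩
        rw [e1]
        norm_num
      · refine ⟨_, rfl, ?_⟩
        have h5 : ((Set.projIcc (0 : ℝ) 1 zero_le_one x : unitInterval) : ℝ) = x := by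
          rw [Set.projIcc_of_mem zero_le_one ⟨hx.1, hx.2.trans (by norm_num)⟩]
        rw [e2, h5]
        exact hx.2
  rw [h4]
  exact h3

end CD

end Pool.Agent.Helper82.NL
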