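import Pool.Agent.Helper82.NL.A4a

/-!
Labels are constant on leaves (project NL, MP_3235d4_lc).
-/

namespace Pool.Agent.Helper82.NL

namespace CD

variable {O : Set (ℕ →. ℕ)} {N : ℕ → ℕ} {Y : Type} [MetricSpace Y] (C : CD O N Y)

/-- Centres near low points of the leaf `o` are inside if and only if the leaf is inside. -/
theorem in_iff {c r : ℕ} (hc : C.Valid c) (hr0 : r < cn c) {o : Option ℕ} {κ : KK}
    (hκ : etaF κ ≤ 1 / 5) (hr : dist (C.F o κ) (C.y (ci c r)) ≤ 3 / 2 * (1 / 2 ^ res c)) :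
    C.In c o ↔ clab c r = 1 := by
  have hS := C.low_preconnected o
  have hlow : ∀ p ∈ {p | ∃ κ, C.F o κ = p ∧ etaF κ ≤ 1 / 5}, C.eta p ≤ 1 / 5 := by
    rintro p ⟨κ', rfl, h⟩
    rw [C.eta_F]
    exact h
  have h00 : etaF (Sum.inl 0) = 0 := rfl
  have h0 : etaF (Sum.inl 0) ≤ 1 / 5 := by
    rw [h00]
    norm_num
  have hp : C.F o κ ∈ {p | ∃ κ, C.F o κ = p ∧ etaF κ ≤ 1 / 5} := ⟨κ, rfl, hκ⟩
  have hp0 : C.F o (Sum.inl 0) ∈ {p | ∃ κ, C.F o κ = p ∧ etaF κ ≤ 1 / 5} :=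
    ⟨Sum.inl 0, rfl, h0⟩
  constructor
  · rintro ⟨r', hr', hl, hd⟩
    exact (C.label_const hc hr' hr0 hS hlow hp0 hp hd hr).1 hl
  · intro hl
    obtain ⟨r', hr', hd⟩ := C.cover_all hc (C.F o (Sum.inl 0))
    exact ⟨r', hr', (C.label_const hc hr0 hr' hS hlow hp hp0 hr hd).1 hl, hd⟩

/-- The leaves far out have the label of the limit leaf. -/
theorem in_limit {c : ℕ} (hc : C.Valid c) (h : ¬ C.In c none) :
    ∃ J, ∀ j ≥ J, ¬ C.In c (some j) := by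
  obtain ⟨J, hJ⟩ := C.leafy.conv (1 / 2 * (1 / 2 ^ res c)) (by positivity)
  refine ⟨J, fun j hj hin => h ?_⟩
  obtain ⟨r, hr, hl, hd⟩ := hin
  obtain ⟨r', hr', hd'⟩ := C.cover_all hc (C.F none (Sum.inl 0))
  have h1 := hJ j hj (Sum.inl 0)
  have h2 : nu (N j) (Sum.inl 0) = Sum.inl 0 := by
    simp [nu]
  rw [h2] at h1
  have h3 : ∀ o, C.eta (C.F o (Sum.inl 0)) ≤ 1 / 5 := by
    intro o
    have h00 : etaF (Sum.inl 0) = 0 := rfl
    rw [C.eta_F, h00]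
    norm_num
  exact ⟨r', hr', (C.label_local hc hr hr' (h3 _) (h3 _) h1.le hd hd').1 hl, hd'⟩

end CD

end Pool.Agent.Helper82.NL
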