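import Pool.Agent.Helper82.NL.A5b

/-!
Soundness of root certificates (project NL, MP_3235d4_lc).
-/

namespace Pool.Agent.Helper82.NL

namespace CD

variable {O : Set (ℕ →. ℕ)} {N : ℕ → ℕ} {Y : Type} [MetricSpace Y] (C : CD O N Y)

theorem not_in_none {c : ℕ} (hc : C.Valid c) : ¬ C.In c none := by
  intro h
  have h1 := C.sound hc h
  have h2 : Fe (ord c) = 1 := Nat.dvd_one.1 h1
  have h3 := Nat.three_le_fermatNumber (ord c)
  unfold Fe at h2
  omega

theorem in_finite {c : ℕ} (hc : C.Valid c) : {j | C.In c (some j)}.Finite := by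
  obtain ⟨J, hJ⟩ := C.in_limit hc (C.not_in_none hc)
  refine (Set.finite_lt_nat J).subset fun j hj => ?_
  by_contra h
  exact hJ j (not_lt.1 h) hj

end CD

end Pool.Agent.Helper82.NL
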