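import Pool.Agent.Helper82.NL.A4

/-!
Soundness of root certificates (project NL, MP_3235d4_lc).
-/

namespace Pool.Agent.Helper82.NL

private theorem A5a_lift (x : UnitAddCircle) :
    ∃ r : ℝ, ((r : ℝ) : UnitAddCircle) = x ∧ |r| = ‖x‖ := by
  obtain ⟨t, rfl⟩ := QuotientAddGroup.mk_surjective x
  refine ⟨t - round t, ?_, ?_⟩
  · have h1 : (((round t : ℤ) : ℝ) : UnitAddCircle) = 0 :=
      (AddCircle.coe_eq_zero_iff 1).mpr ⟨round t, by simp⟩
    rw [AddCircle.coe_sub, h1, sub_zero]
  · exact (UnitAddCircle.norm_eq (x := t)).symm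

/-- Discrete winding numbers. Choose real lifts `g a` of `G a` with `|g (a+1) - g a| < 1/(4q)`
(`g (a+1) = g a + δ` with `δ` the small representative of `G (a+1) - G a`, see
`UnitAddCircle.norm_eq`). Then `g P - g 0` is an integer `w`. The number `q * g a - N * a / P` is
at distance `< 1/4` from an integer `n a`; its steps are smaller than `1/4 + 1/8`, so
`|n (a+1) - n a| < 1` and `n a` is constant. Hence `|q * w - N| < 1/2`, so `q * w = N`. -/
theorem winding {q N P : ℕ} (hq : 0 < q) (hP : 0 < P) (hN : (N : ℝ) / P < 1 / 8)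
    (G : ℕ → UnitAddCircle) (hG : G P = G 0)
    (h1 : ∀ a < P, dist (G (a + 1)) (G a) < 1 / (4 * (q : ℝ)))
    (h2 : ∀ a ≤ P, dist (q • G a) (((N : ℝ) * ((a : ℝ) / P) : ℝ) : UnitAddCircle) < 1 / 4) :
    q ∣ N := by
  choose L hL hL' using A5a_lift
  obtain ⟨g, hg0, hg1⟩ : ∃ g : ℕ → ℝ, g 0 = L (G 0) ∧
      ∀ a, g (a + 1) = g a + L (G (a + 1) - G a) :=
    ⟨fun a => L (G 0) + ∑ i ∈ Finset.range a, L (G (i + 1) - G i), by simp,
      fun a => by simp [Finset.sum_range_succ, add_assoc]⟩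
  have hg : ∀ a, ((g a : ℝ) : UnitAddCircle) = G a := by
    intro a
    induction a with
    | zero => rw [hg0, hL]
    | succ a ih => rw [hg1, AddCircle.coe_add, ih, hL, add_sub_cancel]
  have hstep : ∀ a < P, |g (a + 1) - g a| < 1 / (4 * (q : ℝ)) := by
    intro a ha
    rw [hg1, add_sub_cancel_left, hL', ← dist_eq_norm]
    exact h1 a ha
  obtain ⟨w, hw⟩ : ∃ w : ℤ, g P - g 0 = w := by
    have h3 : ((g P - g 0 : ℝ) : UnitAddCircle) = 0 := by
      rw [AddCircle.coe_sub, hg, hg, hG, sub_self]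
    obtain ⟨w, hw⟩ := (AddCircle.coe_eq_zero_iff 1).mp h3
    exact ⟨w, by simpa using hw.symm⟩
  have hq' : (0 : ℝ) < q := by exact_mod_cast hq
  have hP' : (0 : ℝ) < P := by exact_mod_cast hP
  obtain ⟨t, htd⟩ : ∃ t : ℕ → ℝ, ∀ a, t a = q * g a - (N : ℝ) * ((a : ℝ) / P) := ⟨_, fun _ => rfl⟩
  have ht : ∀ a ≤ P, |t a - round (t a)| < 1 / 4 := by
    intro a ha
    rw [← UnitAddCircle.norm_eq]
    have h4 := h2 a ha
    rw [dist_eq_norm, ← hg a, ← AddCircle.coe_nsmul, ← AddCircle.coe_sub, nsmul_eq_mul,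
      ← htd a] at h4
    exact h4
  have htstep : ∀ a < P, |t (a + 1) - t a| < 3 / 8 := by
    intro a ha
    have h5 : t (a + 1) - t a = q * (g (a + 1) - g a) - (N : ℝ) / P := by
      rw [htd, htd]
      push_cast
      field_simp
      ring
    have h6 : |(q : ℝ) * (g (a + 1) - g a)| < 1 / 4 := by
      rw [abs_mul, abs_of_pos hq']
      have h7 := mul_lt_mul_of_pos_left (hstep a ha) hq'
      have h8 : (q : ℝ) * (1 / (4 * (q : ℝ))) = 1 / 4 := by
        field_simp
      rw [h8] at h7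
      exact h7
    have h9 : 0 ≤ (N : ℝ) / P := by positivity
    rw [h5, abs_lt]
    rw [abs_lt] at h6
    constructor <;> linarith [h6.1, h6.2]
  have hn : ∀ a ≤ P, round (t a) = round (t 0) := by
    intro a
    induction a with
    | zero => intro _; rfl
    | succ a ih =>
      intro ha
      rw [← ih (by omega)]
      have h10 := ht (a + 1) ha
      have h11 := ht a (by omega)
      have h12 := htstep a (by omega)
      rw [abs_lt] at h10 h11 h12
      have h13 : |((round (t (a + 1)) - round (t a) : ℤ) : ℝ)| < 1 := by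
        push_cast
        rw [abs_lt]
        constructor <;> linarith [h10.1, h10.2, h11.1, h11.2, h12.1, h12.2]
      have h14 : |round (t (a + 1)) - round (t a)| < 1 := by exact_mod_cast h13
      have h15 := Int.abs_lt_one_iff.mp h14
      omega
  have h16 := ht P le_rfl
  have h17 := ht 0 (Nat.zero_le P)
  rw [hn P le_rfl] at h16
  have h18 : t P - t 0 = q * w - N := by
    rw [htd, htd, ← hw]
    push_cast
    field_simp
    ring
  rw [abs_lt] at h16 h17
  have h19 : |(((q : ℤ) * w - (N : ℤ) : ℤ) : ℝ)| < 1 := by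
    push_cast
    rw [← h18, abs_lt]
    constructor <;> linarith [h16.1, h16.2, h17.1, h17.2]
  have h20 : |(q : ℤ) * w - (N : ℤ)| < 1 := by exact_mod_cast h19
  have h21 := Int.abs_lt_one_iff.mp h20
  have h22 : (N : ℤ) = q * w := by omega
  exact Int.natCast_dvd_natCast.mp ⟨w, h22⟩

namespace CD

variable {O : Set (ℕ →. ℕ)} {N : ℕ → ℕ} {Y : Type} [MetricSpace Y] (C : CD O N Y)

end CD

end Pool.Agent.Helper82.NL
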