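import Pool.Agent.Helper82.NL.A5a

/-!
Soundness of root certificates (project NL, MP_3235d4_lc).
-/

namespace Pool.Agent.Helper82.NL

namespace CD

variable {O : Set (ℕ →. ℕ)} {N : ℕ → ℕ} {Y : Type} [MetricSpace Y] (C : CD O N Y)

private theorem A5b_norm (x : ℝ) : ‖(x : UnitAddCircle)‖ ≤ |x| := by
  rw [UnitAddCircle.norm_eq]
  have h := round_le x 0
  rwa [Int.cast_zero, sub_zero] at h

private theorem A5b_GG (c r : ℕ) :
    Fe (ord c) • GG c r = (((cG c r : ℝ) / 100 : ℝ) : UnitAddCircle) := by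
  unfold GG
  rw [← AddCircle.coe_nsmul]
  congr 1
  rw [nsmul_eq_mul]
  have h : (Fe (ord c) : ℝ) ≠ 0 := by
    have := Fe_pos (ord c)
    positivity
  field_simp

private theorem A5b_eta (z : UnitAddCircle) : etaF (Sum.inl z) = 0 := rfl

/-- If a leaf is inside then its winding number is divisible by the order of the roots. Take `P`
large, the points `p a = F o (inl (a / P))`, a centre `r a` near `p a` for `a < P` and `r P = r 0`,
`G a = GG c (r a)`, and apply `winding` with `wnd N o`; labels by `in_iff`, adjacency by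
`adj_of_close`, heights by `H_lt`, `q • GG c r = cG / 100`, `power`, `hQ` and `he0`
(`1/5 + 1/50 + 1/100 < 1/4`). -/
theorem sound {c : ℕ} (hc : C.Valid c) {o : Option ℕ} (ho : C.In c o) :
    Fe (ord c) ∣ wnd N o := by
  classical
  have hpos : (0 : ℝ) < 1 / 2 * (1 / 2 ^ res c) := by positivity
  choose R hR1 hR2 using fun p : Y => C.cover_all hc p
  have hcont : Continuous (fun z : UnitAddCircle => C.F o (Sum.inl z)) :=
    (C.leafy.cont o).comp continuous_inl
  have huc := CompactSpace.uniformContinuous_of_continuous hcont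
  obtain ⟨δ, hδ, hδ'⟩ := Metric.uniformContinuous_iff.1 huc _ hpos
  obtain ⟨P, hP⟩ := exists_nat_gt (max (1 / δ) (8 * (wnd N o : ℝ)))
  have hP1 : 1 / δ < P := lt_of_le_of_lt (le_max_left _ _) hP
  have hP2 : 8 * (wnd N o : ℝ) < P := lt_of_le_of_lt (le_max_right _ _) hP
  have hP0 : (0 : ℝ) < P := lt_trans (by positivity) hP1
  have hP0' : 0 < P := by exact_mod_cast hP0
  set θ : ℕ → UnitAddCircle := fun a => (((a : ℝ) / P : ℝ) : UnitAddCircle) with hθ
  set p : ℕ → Y := fun a => C.F o (Sum.inl (θ a)) with hp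
  have hθP : θ P = θ 0 := by
    simp only [hθ, div_self hP0.ne', Nat.cast_zero, zero_div, AddCircle.coe_zero]
    exact AddCircle.coe_period 1
  have hpP : p P = p 0 := by
    simp only [hp, hθP]
  have hstep : ∀ a, dist (p (a + 1)) (p a) ≤ 1 / 2 * (1 / 2 ^ res c) := by
    intro a
    refine (hδ' ?_).le
    rw [dist_eq_norm]
    simp only [hθ]
    rw [← AddCircle.coe_sub]
    refine (A5b_norm _).trans_lt ?_
    have h1 : ((a + 1 : ℕ) : ℝ) / P - (a : ℝ) / P = 1 / P := by
      push_cast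
      ring
    rw [h1, abs_of_pos (by positivity)]
    rw [one_div_lt hP0 hδ]
    exact hP1
  have hlow : ∀ a, C.eta (p a) ≤ 1 / 5 := by
    intro a
    simp only [hp, C.eta_F, A5b_eta]
    norm_num
  have hlab : ∀ a, clab c (R (p a)) = 1 := by
    intro a
    refine (C.in_iff hc (hR1 (p a)) (κ := Sum.inl (θ a)) ?_ (hR2 (p a))).1 ho
    rw [A5b_eta]
    norm_num
  have hH : ∀ a, C.H (ci c (R (p a))) < 50 := fun a =>
    (C.H_lt hc (hlow a) (hR2 (p a))).trans (by norm_num)
  have he : (1 : ℝ) / 2 ^ res c ≤ 1 / 2 ^ C.e0 :=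
    one_div_le_one_div_of_le (by positivity) (pow_le_pow_right₀ (by norm_num) hc.e0_le)
  refine winding (q := Fe (ord c)) (P := P) (Fe_pos _) hP0' ?_ (fun a => GG c (R (p a))) ?_ ?_ ?_
  · rw [div_lt_iff₀ hP0]
    linarith
  · simp only [hpP]
  · intro a _
    exact hc.root _ (hR1 _) _ (hR1 _) (C.adj_of_close (hstep a) (hR2 _) (hR2 _)) (hlab _) (hlab _)
      (hH _) (hH _)
  · intro a _
    rw [A5b_GG]
    have h1 := hc.power _ (hR1 (p a)) (hlab a) (hH a)
    have h2 := C.hQ (ci c (R (p a)))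
    have h3 : dist (p a) (C.y (ci c (R (p a)))) ≤ 2 / 2 ^ C.e0 := by
      have h4 := hR2 (p a)
      have h5 : (0 : ℝ) < 1 / 2 ^ C.e0 := by positivity
      have h6 : (2 : ℝ) / 2 ^ C.e0 = 2 * (1 / 2 ^ C.e0) := by ring
      rw [h6]
      linarith
    have h4 := (C.he0 _ _ h3).1
    have h5 : C.rho (p a) = (((wnd N o : ℝ) * ((a : ℝ) / P) : ℝ) : UnitAddCircle) := by
      simp only [hp, C.rho_F, rhoF, Sum.elim_inl, hθ]
      rw [← AddCircle.coe_nsmul, nsmul_eq_mul]
    rw [← h5]
    have h6 := dist_triangle (((cG c (R (p a)) : ℝ) / 100 : ℝ) : UnitAddCircle)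
      (((C.Q (ci c (R (p a))) : ℝ) / 100 : ℝ) : UnitAddCircle) (C.rho (p a))
    have h7 := dist_triangle (((C.Q (ci c (R (p a))) : ℝ) / 100 : ℝ) : UnitAddCircle)
      (C.rho (C.y (ci c (R (p a))))) (C.rho (p a))
    rw [dist_comm] at h2 h4
    linarith

end CD

end Pool.Agent.Helper82.NL
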