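import Pool.Agent.Helper82.NL.A5

/-!
Common leaves of certificates (project NL, MP_3235d4_lc).
-/

namespace Pool.Agent.Helper82.NL

namespace CD

variable {O : Set (ℕ →. ℕ)} {N : ℕ → ℕ} {Y : Type} [MetricSpace Y] (C : CD O N Y)

/-- If a leaf is inside for all certificates of the list, take a point `y m` so close to
`F o (inl 0)` that the distance is `≤ 1 / 4 / 2 ^ res` for all of them and `≤ 2 / 2 ^ e0`; its
height is below `1 / 100`, and a centre `r` with `near` (from `cover`) is inside by `in_iff`. -/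
theorem NE_of_in {L : ℕ} {o : Option ℕ} (hL : ∀ s < len L, C.Valid (ent L s))
    (h : ∀ s < len L, C.In (ent L s) o) : C.NE L := by
  set B : ℕ := C.e0 + ∑ s ∈ Finset.range (len L), res (ent L s) with hB
  have hpos : (0 : ℝ) < 1 / 4 * (1 / 2 ^ B) := by positivity
  have hle : ∀ k ≤ B, (1 : ℝ) / 2 ^ B ≤ 1 / 2 ^ k := fun k hk =>
    one_div_le_one_div_of_le (by positivity) (pow_le_pow_right₀ (by norm_num) hk)
  obtain ⟨m, hm⟩ := C.pres.dense.exists_dist_lt (C.F o (Sum.inl 0)) hpos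
  have heta : C.eta (C.F o (Sum.inl 0)) = 0 := by
    rw [C.eta_F]
    rfl
  have h0 : dist (C.F o (Sum.inl 0)) (C.y m) ≤ 2 / 2 ^ C.e0 := by
    have h1 := hle C.e0 (by omega)
    have h2 : (2 : ℝ) / 2 ^ C.e0 = 2 * (1 / 2 ^ C.e0) := by ring
    have h3 : (0 : ℝ) < 1 / 2 ^ C.e0 := by positivity
    rw [h2]
    linarith
  refine ⟨m, ?_, fun s hs => ?_⟩
  · have h1 := (C.he0 _ _ h0).2
    have h2 := C.hH m
    rw [heta] at h1
    have h3 := (abs_lt.1 h1).1
    have h4 := (abs_lt.1 h2).1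
    have h5 : (C.H m : ℝ) < 10 := by linarith
    have h6 : C.H m < 10 := by exact_mod_cast h5
    exact h6.le
  · obtain ⟨r, hr, hn⟩ := (hL s hs).cover m
    refine ⟨r, hr, ?_, hn⟩
    have h1 := C.dist_le_of_near hn
    have h2 : res (ent L s) ≤ B := by
      have := Finset.single_le_sum (f := fun s => res (ent L s)) (fun _ _ => Nat.zero_le _)
        (Finset.mem_range.2 hs)
      omega
    have h3 := hle _ h2
    have h4 := dist_triangle (C.F o (Sum.inl 0)) (C.y m) (C.y (ci (ent L s) r))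
    refine (C.in_iff (hL s hs) hr (o := o) (κ := Sum.inl 0) ?_ ?_).1 (h s hs)
    · show (0 : ℝ) ≤ 1 / 5
      norm_num
    · linarith

/-- A point with `H m ≤ 10` is `F o κ` with `etaF κ ≤ 1 / 5`; `in_iff`. -/
theorem in_of_NE {L : ℕ} (hL : ∀ s < len L, C.Valid (ent L s)) (h : C.NE L) :
    ∃ o, ∀ s < len L, C.In (ent L s) o := by
  obtain ⟨m, hm, hs⟩ := h
  obtain ⟨o, κ, hκ⟩ := C.leafy.surj (C.y m)
  have h1 : etaF κ ≤ 1 / 5 := by
    have h2 := C.hH m
    rw [← hκ, C.eta_F] at h2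
    have h3 := (abs_lt.1 h2).2
    have h4 : (C.H m : ℝ) ≤ 10 := by exact_mod_cast hm
    linarith
  refine ⟨o, fun s hs' => ?_⟩
  obtain ⟨r, hr, hl, hn⟩ := hs s hs'
  have h2 := C.dist_le_of_near hn
  refine (C.in_iff (hL s hs') hr (κ := κ) h1 ?_).2 hl
  rw [hκ]
  have h3 : (0 : ℝ) < 1 / 2 ^ res (ent L s) := by positivity
  linarith

theorem ne_iff {L : ℕ} (h0 : 0 < len L) (hL : ∀ s < len L, C.Valid (ent L s)) :
    C.NE L ↔ ∃ j, ∀ s < len L, C.In (ent L s) (some j) := by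
  constructor
  · intro h
    obtain ⟨o, ho⟩ := C.in_of_NE hL h
    cases o with
    | none => exact absurd (ho 0 h0) (C.not_in_none (hL 0 h0))
    | some j => exact ⟨j, ho⟩
  · rintro ⟨j, hj⟩
    exact C.NE_of_in hL hj

end CD

end Pool.Agent.Helper82.NL
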