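import Pool.Agent.Helper82.NL.A4

/-!
Construction of certificates: preparations (project NL, MP_3235d4_lc).
-/

namespace Pool.Agent.Helper82.NL

/-- Uniform continuity of a map on the compact space `KK` in terms of a continuous map `F` whose
fibres it respects. (Otherwise there are `κ n, κ' n` with `dist (F (κ n)) (F (κ' n)) → 0` and
`dist (g (κ n)) (g (κ' n)) ≥ ε`; limit points violate the hypothesis. Or: the set
`{(κ, κ') | ε ≤ dist (g κ) (g κ')}` is compact and `dist (F κ) (F κ')` is positive on it.) -/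
theorem unif_factor {Y : Type} [MetricSpace Y] {F : KK → Y} (hF : Continuous F)
    {g : KK → UnitAddCircle} (hg : Continuous g) (h : ∀ κ κ', F κ = F κ' → g κ = g κ')
    (ε : ℝ) (hε : 0 < ε) : ∃ δ > 0, ∀ κ κ', dist (F κ) (F κ') < δ → dist (g κ) (g κ') < ε := by
  have hcl : IsClosed {p : KK × KK | ε ≤ dist (g p.1) (g p.2)} :=
    isClosed_le continuous_const ((hg.comp continuous_fst).dist (hg.comp continuous_snd))
  have hK := hcl.isCompact
  have hd : Continuous (fun p : KK × KK => dist (F p.1) (F p.2)) :=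
    (hF.comp continuous_fst).dist (hF.comp continuous_snd)
  rcases Set.eq_empty_or_nonempty {p : KK × KK | ε ≤ dist (g p.1) (g p.2)} with he | hne
  · refine ⟨1, one_pos, fun κ κ' _ => ?_⟩
    by_contra hcon
    have h1 : (κ, κ') ∈ {p : KK × KK | ε ≤ dist (g p.1) (g p.2)} := not_lt.1 hcon
    rw [he] at h1
    exact h1
  · obtain ⟨p, hp, hmin⟩ := hK.exists_isMinOn hne hd.continuousOn
    refine ⟨dist (F p.1) (F p.2), ?_, fun κ κ' hlt => ?_⟩
    · refine dist_pos.2 fun h1 => ?_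
      have h2 : ε ≤ dist (g p.1) (g p.2) := hp
      rw [h _ _ h1, dist_self] at h2
      exact absurd h2 (not_le.2 hε)
    · by_contra hcon
      have h1 : (κ, κ') ∈ {p : KK × KK | ε ≤ dist (g p.1) (g p.2)} := not_lt.1 hcon
      have h2 : dist (F p.1) (F p.2) ≤ dist (F κ) (F κ') := hmin h1
      exact absurd hlt (not_lt.2 h2)

/-- The root of the base angle on one leaf. -/
noncomputable def rootF (M : ℕ) (κ : KK) : UnitAddCircle :=
  Sum.elim (fun z => M • z) (fun _ => 0) κ

theorem rootF_cont (M : ℕ) : Continuous (rootF M) := by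
  rw [continuous_sum_dom]
  exact ⟨continuous_nsmul M, continuous_const⟩

theorem rootF_rel (M : ℕ) {o : Option ℕ} {κ κ' : KK} (h : Rel o κ o κ') :
    rootF M κ = rootF M κ' := by
  rcases h with ⟨rfl, rfl⟩ | ⟨-, rfl | ⟨rfl, rfl⟩ | ⟨rfl, rfl⟩⟩
  · rfl
  · rfl
  · exact nsmul_zero M
  · exact (nsmul_zero M).symm

/-- Density of the multiples of `1 / (100 F)` in the circle. -/
theorem exists_G (F : ℕ) (hF : 0 < F) (z : UnitAddCircle) :
    ∃ G : ℕ, dist z (((G : ℝ) / (100 * (F : ℝ)) : ℝ) : UnitAddCircle) ≤ 1 / (100 * (F : ℝ)) := by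
  obtain ⟨x, rfl⟩ := QuotientAddGroup.mk_surjective z
  have hF' : (0 : ℝ) < 100 * (F : ℝ) := by
    have : (0 : ℝ) < (F : ℝ) := by exact_mod_cast hF
    linarith
  set D : ℝ := 100 * (F : ℝ) with hD
  have h0 : 0 ≤ Int.fract x * D := mul_nonneg (Int.fract_nonneg x) hF'.le
  refine ⟨⌊Int.fract x * D⌋₊, ?_⟩
  have h1 := Nat.floor_le h0
  have h2 := Nat.lt_floor_add_one (Int.fract x * D)
  set G : ℝ := (⌊Int.fract x * D⌋₊ : ℝ) with hG
  change dist ((x : ℝ) : UnitAddCircle) ((G / D : ℝ) : UnitAddCircle) ≤ 1 / D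
  rw [dist_eq_norm, ← AddCircle.coe_sub, UnitAddCircle.norm_eq]
  refine (round_le (x - G / D) ⌊x⌋).trans ?_
  have h3 : x - G / D - (⌊x⌋ : ℝ) = (Int.fract x * D - G) / D := by
    rw [sub_div, mul_div_cancel_right₀ _ hF'.ne', Int.fract]
    ring
  rw [h3, abs_div, abs_of_pos hF', abs_of_nonneg (by linarith)]
  exact div_le_div_of_nonneg_right (by linarith) hF'.le

namespace CD

variable {O : Set (ℕ →. ℕ)} {N : ℕ → ℕ} {Y : Type} [MetricSpace Y] (C : CD O N Y)

end CD

end Pool.Agent.Helper82.NL
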