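import Pool.Agent.Helper82.NL.A7a

/-!
Construction of certificates: preparations (project NL, MP_3235d4_lc).
-/

namespace Pool.Agent.Helper82.NL

private noncomputable def A7b_h (o : Option ℕ) : ℝ := o.elim 0 (fun i => (1 / 2) ^ i)

private theorem A7b_eta_inl (z : UnitAddCircle) : etaF (Sum.inl z) = 0 := rfl

private theorem A7b_eta_inr (t : unitInterval) : etaF (Sum.inr t) = (t : ℝ) := rfl

private theorem A7b_eta_cont : Continuous etaF := by
  have e : etaF = (Sum.elim (fun _ => 0) (fun t => (t : ℝ)) :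
      UnitAddCircle ⊕ unitInterval → ℝ) := by
    funext κ
    rcases κ with z | t <;> rfl
  rw [e]
  exact Continuous.sumElim continuous_const continuous_subtype_val

private theorem A7b_eta_nu (M : ℕ) (κ : KK) : etaF (nu M κ) = etaF κ := by
  rcases κ with z | t <;> rfl

private theorem A7b_eta_nonneg (κ : KK) : 0 ≤ etaF κ := by
  rcases κ with z | t
  · exact le_rfl
  · exact t.2.1

private theorem A7b_eta_le (κ : KK) : etaF κ ≤ 1 := by
  rcases κ with z | t
  · exact zero_le_one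
  · exact t.2.2

private theorem A7b_gap (j : ℕ) (o : Option ℕ) (ho : o ≠ some j) :
    (1 / 2) ^ (j + 1) ≤ |A7b_h o - A7b_h (some j)| := by
  have hp : (0 : ℝ) < (1 / 2) ^ j := by positivity
  have hs : ((1 : ℝ) / 2) ^ (j + 1) = (1 / 2) ^ j / 2 := by rw [pow_succ]; ring
  rcases o with _ | i
  · have : A7b_h none - A7b_h (some j) = -(1 / 2) ^ j := by simp [A7b_h]
    rw [this, abs_neg, abs_of_pos hp, hs]
    linarith
  · have hij : i ≠ j := fun h => ho (by rw [h])
    have e : A7b_h (some i) - A7b_h (some j) = (1 / 2) ^ i - (1 / 2) ^ j := by simp [A7b_h]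
    rw [e]
    rcases lt_or_gt_of_ne hij with h | h
    · have h1 : ((1 : ℝ) / 2) ^ j ≤ (1 / 2) ^ (i + 1) :=
        pow_le_pow_of_le_one (by norm_num) (by norm_num) h
      have h2 : ((1 : ℝ) / 2) ^ (i + 1) = (1 / 2) ^ i / 2 := by rw [pow_succ]; ring
      rw [abs_of_nonneg (by linarith), hs]
      linarith
    · have h1 : ((1 : ℝ) / 2) ^ i ≤ (1 / 2) ^ (j + 1) :=
        pow_le_pow_of_le_one (by norm_num) (by norm_num) h
      rw [abs_sub_comm, abs_of_nonneg (by linarith), hs]
      linarith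

namespace CD

variable {O : Set (ℕ →. ℕ)} {N : ℕ → ℕ} {Y : Type} [MetricSpace Y] (C : CD O N Y)

/-- The low part of the leaf `some j` has positive distance from the low parts of the other
leaves. Descend (`Leafy.descend`) the real function
`some i, inl z ↦ (1/2)^i - (1/2)^j`, `some i, inr t ↦ ((1/2)^i - (1/2)^j) * (1 - t)`,
`none ↦ - (1/2)^j`, `- (1/2)^j * (1 - t)`; it vanishes on the leaf `some j` and its absolute value
on the other low parts is at least `(1/2)^(j+1) * 11 / 20`; use its uniform continuity. -/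
theorem separated (j : ℕ) : ∃ δ > 0, ∀ κ κ' o', o' ≠ some j → etaF κ ≤ 9 / 20 →
    etaF κ' ≤ 9 / 20 → δ ≤ dist (C.F (some j) κ) (C.F o' κ') := by
  have := C.leafy.compactSpace
  obtain ⟨Φ, hΦc, hΦ⟩ := C.leafy.descend
    (fun o κ => (A7b_h o - A7b_h (some j)) * (1 - etaF κ))
    (fun o => continuous_const.mul (continuous_const.sub A7b_eta_cont))
    (by
      intro o κ o' κ' h
      rcases h with ⟨rfl, rfl⟩ | ⟨rfl, rfl | ⟨rfl, rfl⟩ | ⟨rfl, rfl⟩⟩
      · simp only [A7b_eta_inr, Set.Icc.coe_one, sub_self, mul_zero]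
      · rfl
      · simp only [A7b_eta_inr, A7b_eta_inl, Set.Icc.coe_zero]
      · simp only [A7b_eta_inr, A7b_eta_inl, Set.Icc.coe_zero])
    (by
      intro ε hε
      obtain ⟨J, hJ⟩ := exists_pow_lt_of_lt_one hε (show (1 / 2 : ℝ) < 1 by norm_num)
      refine ⟨J, fun i hi κ => ?_⟩
      have h1 : ((1 : ℝ) / 2) ^ i ≤ (1 / 2) ^ J :=
        pow_le_pow_of_le_one (by norm_num) (by norm_num) hi
      have h2 : (0 : ℝ) < (1 / 2) ^ i := by positivity
      have h3 := A7b_eta_nonneg κ
      have h4 := A7b_eta_le κ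
      simp only [A7b_eta_nu]
      rw [Real.dist_eq]
      have e : (A7b_h (some i) - A7b_h (some j)) * (1 - etaF κ) -
          (A7b_h none - A7b_h (some j)) * (1 - etaF κ) = (1 / 2) ^ i * (1 - etaF κ) := by
        simp only [A7b_h, Option.elim_none, Option.elim_some]
        ring
      rw [e, abs_of_nonneg (mul_nonneg h2.le (by linarith))]
      calc ((1 : ℝ) / 2) ^ i * (1 - etaF κ) ≤ (1 / 2) ^ i * 1 :=
            mul_le_mul_of_nonneg_left (by linarith) h2.le
        _ < ε := by linarith)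
  have huc : UniformContinuous Φ := CompactSpace.uniformContinuous_of_continuous hΦc
  have hp : (0 : ℝ) < (1 / 2) ^ (j + 1) * (11 / 20) := by positivity
  obtain ⟨δ, hδ, H⟩ := Metric.uniformContinuous_iff.mp huc _ hp
  refine ⟨δ, hδ, fun κ κ' o' ho' _ h2 => ?_⟩
  by_contra hlt
  have h3 := H (lt_of_not_ge hlt)
  rw [Real.dist_eq, hΦ, hΦ, sub_self, zero_mul, zero_sub, abs_neg, abs_mul] at h3
  have h4 := A7b_gap j o' ho'
  have h5 : (11 : ℝ) / 20 ≤ |1 - etaF κ'| := le_trans (by linarith) (le_abs_self _)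
  have h6 := mul_le_mul h4 h5 (by norm_num) (abs_nonneg _)
  linarith

/-- Finite nets of points of the dense sequence. -/
theorem exists_net (δ : ℝ) (hδ : 0 < δ) : ∃ (n : ℕ) (i : ℕ → ℕ), ∀ p : Y,
    ∃ r < n, dist p (C.y (i r)) ≤ δ := by
  have := C.leafy.compactSpace
  obtain ⟨t, ht⟩ := isCompact_univ.elim_finite_subcover (fun m => Metric.ball (C.y m) δ)
    (fun _ => Metric.isOpen_ball) (fun p _ => by
      obtain ⟨m, hm⟩ := C.pres.dense.exists_dist_lt p hδ
      exact Set.mem_iUnion.2 ⟨m, Metric.mem_ball.2 hm⟩)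
  refine ⟨t.sup id + 1, id, fun p => ?_⟩
  obtain ⟨m, hm, hm'⟩ := Set.mem_iUnion₂.1 (ht (Set.mem_univ p))
  exact ⟨m, Nat.lt_succ_of_le (Finset.le_sup (f := id) hm), (Metric.mem_ball.1 hm').le⟩

end CD

end Pool.Agent.Helper82.NL
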