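import Pool.Agent.Helper82.NL.A7

/-!
Completeness of certificates (project NL, MP_3235d4_lc).
-/

namespace Pool.Agent.Helper82.NL

/-- The code of a certificate with given entries. -/
theorem exists_cert (x e n : ℕ) (i lab G : ℕ → ℕ) : ∃ c, ord c = x ∧ res c = e ∧ cn c = n ∧
    ∀ r < n, ci c r = i r ∧ clab c r = lab r ∧ cG c r = G r := by
  obtain ⟨L, hL, hent⟩ := exists_code (fun r => Nat.pair (i r) (Nat.pair (lab r) (G r))) n
  refine ⟨Nat.pair x (Nat.pair e L), ?_, ?_, ?_, fun r hr => ?_⟩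
  · simp only [ord, Nat.unpair_pair]
  · simp only [res, Nat.unpair_pair]
  · simp only [cn, Nat.unpair_pair, hL]
  · refine ⟨?_, ?_, ?_⟩
    · simp only [ci, Nat.unpair_pair, hent r hr]
    · simp only [clab, Nat.unpair_pair, hent r hr]
    · simp only [cG, Nat.unpair_pair, hent r hr]

namespace CD

variable {O : Set (ℕ →. ℕ)} {N : ℕ → ℕ} {Y : Type} [MetricSpace Y] (C : CD O N Y)

end CD

end Pool.Agent.Helper82.NL
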