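import Pool.Agent.Helper82.NL.A8a

/-!
Completeness of certificates (project NL, MP_3235d4_lc).
-/

namespace Pool.Agent.Helper82.NL

namespace CD

variable {O : Set (ℕ →. ℕ)} {N : ℕ → ℕ} {Y : Type} [MetricSpace Y] (C : CD O N Y)

/-- For a leaf whose winding number is divisible by `Fe x` there is a certificate with exactly this
leaf inside. Let `M = N j / Fe x`, `δ₁` from `separated`, `δ₂` from `unif_factor` for
`C.F (some j)` and `rootF M` with `ε = 1 / (100 * Fe x)`, and `e ≥ e0` with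
`17 / 4 / 2 ^ e < min δ₁ δ₂`; a net with `δ = 1 / 2 / 2 ^ e`. The label of a centre `y (i r)` is
`1` if it lies in the leaf `some j`, say `y (i r) = C.F (some j) κ`, and then `G r` is from
`exists_G` for `rootF M κ`; otherwise both are `0`. Checks: `cover` by `near_of_dist_le`; `sep`: if
both heights are `< 40` then `etaF ≤ 42 / 100`, contradiction to `separated`; `root`:
`1/100 + 1/100 + 1/100 < 1/4` (times `1 / Fe x`); `power`: `cG / 100 = Fe x • GG`, and
`Fe x • rootF M κ = rhoF N (some j) κ`, so the distance is `≤ 1/100 + 1/50`. Inside: a centre near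
`F (some j) (inl 0)` lies in this leaf by `separated`; a centre with label `1` near `F o (inl 0)` is
low, so `o = some j` by `separated`. -/
theorem complete (j x : ℕ) (h : Fe x ∣ N j) :
    ∃ c, C.Valid c ∧ ord c = x ∧ ∀ o, C.In c o ↔ o = some j := by
  classical
  obtain ⟨M, hM⟩ := h
  have hFx : 0 < Fe x := lt_of_lt_of_le (by norm_num) (Nat.three_le_fermatNumber x)
  have hF0 : (0 : ℝ) < (Fe x : ℝ) := by exact_mod_cast hFx
  obtain ⟨δ₁, hδ₁, hsep⟩ := C.separated j
  obtain ⟨δ₂, hδ₂, hunif⟩ := unif_factor (C.leafy.cont (some j)) (rootF_cont M)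
    (fun κ κ' hk => rootF_rel M ((C.leafy.fib _ _ _ _).1 hk)) (1 / (100 * (Fe x : ℝ)))
    (by positivity)
  -- the resolution
  obtain ⟨e1, he1⟩ : ∃ e1 : ℕ, (17 / 4 : ℝ) * (1 / 2 ^ e1) < min δ₁ δ₂ := by
    obtain ⟨e1, he1⟩ := exists_pow_lt_of_lt_one (show (0 : ℝ) < min δ₁ δ₂ / 5 by positivity)
      (show (1 / 2 : ℝ) < 1 by norm_num)
    refine ⟨e1, ?_⟩
    rw [one_div_pow] at he1
    have : (0 : ℝ) < 1 / 2 ^ e1 := by positivity
    linarith
  set e := max C.e0 e1 with hedef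
  have hee1 : (1 : ℝ) / 2 ^ e ≤ 1 / 2 ^ e1 :=
    one_div_le_one_div_of_le (by positivity)
      (pow_le_pow_right₀ (by norm_num) (le_max_right _ _))
  have hee0 : (1 : ℝ) / 2 ^ e ≤ 1 / 2 ^ C.e0 :=
    one_div_le_one_div_of_le (by positivity)
      (pow_le_pow_right₀ (by norm_num) (le_max_left _ _))
  have hepos : (0 : ℝ) < 1 / 2 ^ e := by positivity
  have hlt1 : (17 / 4 : ℝ) * (1 / 2 ^ e) < δ₁ :=
    lt_of_le_of_lt (by linarith) (lt_of_lt_of_le he1 (min_le_left _ _))
  have hlt2 : (17 / 4 : ℝ) * (1 / 2 ^ e) < δ₂ :=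
    lt_of_le_of_lt (by linarith) (lt_of_lt_of_le he1 (min_le_right _ _))
  obtain ⟨n, i, hnet⟩ := C.exists_net (1 / 2 * (1 / 2 ^ e)) (by positivity)
  have hex : ∀ r, (∃ κ, C.F (some j) κ = C.y (i r)) → ∃ G : ℕ, ∃ κ, C.F (some j) κ = C.y (i r) ∧
      dist (rootF M κ) (((G : ℝ) / (100 * (Fe x : ℝ)) : ℝ) : UnitAddCircle)
        ≤ 1 / (100 * (Fe x : ℝ)) := by
    rintro r ⟨κ, hκ⟩
    obtain ⟨G, hG⟩ := exists_G (Fe x) hFx (rootF M κ)
    exact ⟨G, κ, hκ, hG⟩
  obtain ⟨c, hord, hres, hcn, hc⟩ := exists_cert x e n i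
    (fun r => if ∃ κ, C.F (some j) κ = C.y (i r) then 1 else 0)
    (fun r => if hr : ∃ κ, C.F (some j) κ = C.y (i r) then (hex r hr).choose else 0)
  have hlab : ∀ r < n, (clab c r = 1 ↔ ∃ κ, C.F (some j) κ = C.y (i r)) := by
    intro r hr
    rw [(hc r hr).2.1]
    by_cases hx : ∃ κ, C.F (some j) κ = C.y (i r)
    · simp only [hx, if_true]
    · simp only [hx, if_false]
      simp
  have hG : ∀ r < n, clab c r = 1 → ∃ κ, C.F (some j) κ = C.y (i r) ∧
      dist (rootF M κ) (((cG c r : ℝ) / (100 * (Fe x : ℝ)) : ℝ) : UnitAddCircle)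
        ≤ 1 / (100 * (Fe x : ℝ)) := by
    intro r hr h1
    have hx := (hlab r hr).1 h1
    have h2 := (hex r hx).choose_spec
    rw [(hc r hr).2.2, dif_pos hx]
    exact h2
  have hci : ∀ r < n, ci c r = i r := fun r hr => (hc r hr).1
  have hnl : ∀ r < n, clab c r ≠ 1 → ∃ o' κ', o' ≠ some j ∧ C.F o' κ' = C.y (i r) := by
    intro r hr h1
    obtain ⟨o', κ', h2⟩ := C.leafy.surj (C.y (i r))
    refine ⟨o', κ', ?_, h2⟩
    rintro rfl
    exact h1 ((hlab r hr).2 ⟨κ', h2⟩)
  refine ⟨c, ?_, hord, ?_⟩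
  · refine ⟨?_, ?_, ?_, ?_, ?_⟩
    · rw [hres]
      exact le_max_left _ _
    · intro m
      obtain ⟨r, hr, hd⟩ := hnet (C.y m)
      refine ⟨r, by rw [hcn]; exact hr, C.near_of_dist_le ?_⟩
      rw [hci r hr, hres]
      linarith
    · intro r hr r' hr' hadj h1 h2
      rw [hcn] at hr hr'
      by_contra hcon
      push Not at hcon
      obtain ⟨hH1, hH2⟩ := hcon
      have hd := C.dist_le_of_adj hadj
      rw [hci r hr, hci r' hr', hres] at hd
      rw [hci r hr] at hH1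
      rw [hci r' hr'] at hH2
      obtain ⟨κ, hκ⟩ := (hlab r hr).1 h1
      obtain ⟨o', κ', ho', hκ'⟩ := hnl r' hr' h2
      have e1 : etaF κ ≤ 9 / 20 := by
        rw [← C.eta_F (some j) κ, hκ]
        have h3 := (abs_lt.1 (C.hH (i r))).2
        have h4 : ((C.H (i r) : ℕ) : ℝ) ≤ 39 := by exact_mod_cast Nat.le_of_lt_succ hH1
        linarith
      have e2 : etaF κ' ≤ 9 / 20 := by
        rw [← C.eta_F o' κ', hκ']
        have h3 := (abs_lt.1 (C.hH (i r'))).2
        have h4 : ((C.H (i r') : ℕ) : ℝ) ≤ 39 := by exact_mod_cast Nat.le_of_lt_succ hH2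
        linarith
      have h5 := hsep κ κ' o' ho' e1 e2
      rw [hκ, hκ'] at h5
      linarith
    · intro r hr r' hr' hadj h1 h2 _ _
      rw [hcn] at hr hr'
      have hd := C.dist_le_of_adj hadj
      rw [hci r hr, hci r' hr', hres] at hd
      obtain ⟨κ, hκ, hg⟩ := hG r hr h1
      obtain ⟨κ', hκ', hg'⟩ := hG r' hr' h2
      have h3 : dist (rootF M κ) (rootF M κ') < 1 / (100 * (Fe x : ℝ)) := by
        refine hunif κ κ' ?_
        rw [hκ, hκ']
        linarith
      unfold GG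
      rw [hord]
      have h4 := dist_triangle4 (((cG c r : ℝ) / (100 * (Fe x : ℝ)) : ℝ) : UnitAddCircle)
        (rootF M κ) (rootF M κ') (((cG c r' : ℝ) / (100 * (Fe x : ℝ)) : ℝ) : UnitAddCircle)
      rw [dist_comm _ (rootF M κ)] at h4
      have h5 : (1 : ℝ) / (100 * (Fe x : ℝ)) = 1 / 100 * (1 / (Fe x : ℝ)) := by
        field_simp
      have h6 : (1 : ℝ) / (4 * (Fe x : ℝ)) = 1 / 4 * (1 / (Fe x : ℝ)) := by
        field_simp
      have h7 : (0 : ℝ) < 1 / (Fe x : ℝ) := by positivity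
      rw [h5] at hg hg' h3
      rw [h6]
      linarith
    · intro r hr h1 _
      rw [hcn] at hr
      obtain ⟨κ, hκ, hg⟩ := hG r hr h1
      rw [hci r hr]
      have h2 : Fe x • rootF M κ = rhoF N (some j) κ := by
        cases κ with
        | inl z =>
          change Fe x • (M • z) = N j • z
          rw [hM, mul_smul]
        | inr t =>
          change Fe x • (0 : UnitAddCircle) = 0
          exact smul_zero _
      have h3 : Fe x • (((cG c r : ℝ) / (100 * (Fe x : ℝ)) : ℝ) : UnitAddCircle) =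
          (((cG c r : ℝ) / 100 : ℝ) : UnitAddCircle) := by
        rw [← AddCircle.coe_nsmul]
        congr 1
        rw [nsmul_eq_mul]
        field_simp
      have h4 : dist (((cG c r : ℝ) / 100 : ℝ) : UnitAddCircle) (rhoF N (some j) κ) ≤ 1 / 100 := by
        rw [← h2, ← h3, dist_eq_norm, ← smul_sub]
        refine (norm_nsmul_le).trans ?_
        rw [← dist_eq_norm, dist_comm]
        calc (Fe x : ℝ) * dist (rootF M κ) (((cG c r : ℝ) / (100 * (Fe x : ℝ)) : ℝ) : UnitAddCircle)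
            ≤ (Fe x : ℝ) * (1 / (100 * (Fe x : ℝ))) := mul_le_mul_of_nonneg_left hg hF0.le
          _ = 1 / 100 := by field_simp
      have h5 := C.hQ (i r)
      rw [← hκ, C.rho_F] at h5
      have h6 := dist_triangle (((cG c r : ℝ) / 100 : ℝ) : UnitAddCircle) (rhoF N (some j) κ)
        (((C.Q (i r) : ℝ) / 100 : ℝ) : UnitAddCircle)
      linarith
  · intro o
    have h0 : ∀ (p p' : Y), dist p p' ≤ 3 / 2 * (1 / 2 ^ e) → |C.eta p - C.eta p'| < 1 / 100 := by
      intro p p' hd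
      refine (C.he0 p p' ?_).2
      have : (2 : ℝ) / 2 ^ C.e0 = 2 * (1 / 2 ^ C.e0) := by ring
      rw [this]
      linarith
    constructor
    · rintro ⟨r, hr, h1, hd⟩
      rw [hcn] at hr
      rw [hci r hr, hres] at hd
      by_contra ho
      obtain ⟨κ, hκ⟩ := (hlab r hr).1 h1
      rw [← hκ] at hd
      have h2 := (abs_lt.1 (h0 _ _ hd)).1
      rw [C.eta_F, C.eta_F] at h2
      have h3 : etaF (Sum.inl (0 : UnitAddCircle)) = 0 := rfl
      rw [h3] at h2
      have h4 := hsep κ (Sum.inl 0) o ho (by linarith) (by rw [h3]; norm_num)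
      rw [dist_comm] at hd
      linarith
    · rintro rfl
      obtain ⟨r, hr, hd⟩ := hnet (C.F (some j) (Sum.inl 0))
      refine ⟨r, by rw [hcn]; exact hr, ?_, by rw [hci r hr, hres]; linarith⟩
      by_contra h1
      obtain ⟨o', κ', ho', hκ'⟩ := hnl r hr h1
      rw [← hκ'] at hd
      have h2 := (abs_lt.1 (h0 _ _ (by linarith : dist (C.F (some j) (Sum.inl 0)) (C.F o' κ') ≤
        3 / 2 * (1 / 2 ^ e)))).1
      rw [C.eta_F, C.eta_F] at h2
      have h3 : etaF (Sum.inl (0 : UnitAddCircle)) = 0 := rfl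
      rw [h3] at h2
      have h4 := hsep (Sum.inl 0) κ' o' ho' (by rw [h3]; norm_num) (by linarith)
      linarith

end CD

end Pool.Agent.Helper82.NL
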