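import Pool.Agent.Helper82.NL.A9b

/-!
Complexity of the validity of certificates (project NL, MP_3235d4_lc).
-/

namespace Pool.Agent.Helper82.NL

variable {O : Set (ℕ →. ℕ)}

end Pool.Agent.Helper82.NL
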