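import Pool.Agent.Helper82.NL.ADefs

/-!
Complexity of the validity of certificates (project NL, MP_3235d4_lc).
-/

namespace Pool.Agent.Helper82.NL

/-- The distance of `a / M` and `b / M` in the circle, times `M`. -/
def cdist (M a b : ℕ) : ℕ := min ((a + (M - b % M)) % M) ((b + (M - a % M)) % M)

private theorem A9a_cdist {M : ℕ} (hM : 0 < M) (a b : ℕ) :
    min ((a + (M - b % M)) % M) (M - (a + (M - b % M)) % M) = cdist M a b := by
  unfold cdist
  have hbl : b % M < M := Nat.mod_lt _ hM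
  have hal : a % M < M := Nat.mod_lt _ hM
  have ha := Nat.mod_add_div a M
  have hb := Nat.mod_add_div b M
  have hr := Nat.mod_lt (a + (M - b % M)) hM
  have hs := Nat.mod_lt (b + (M - a % M)) hM
  have hsum : (a + (M - b % M)) + (b + (M - a % M)) = M * (a / M + b / M + 2) := by
    have e : M * (a / M + b / M + 2) = M * (a / M) + M * (b / M) + 2 * M := by ring
    omega
  have hd : M ∣ (a + (M - b % M)) % M + (b + (M - a % M)) % M := by
    rw [Nat.dvd_iff_mod_eq_zero, ← Nat.add_mod, hsum, Nat.mul_mod_right]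
  obtain ⟨k, hk⟩ := hd
  have hk2 : k < 2 := by
    by_contra h
    have : M * 2 ≤ M * k := Nat.mul_le_mul_left M (by omega)
    omega
  interval_cases k <;> omega

private theorem A9a_coe {M : ℕ} (hM : 0 < M) (a b : ℕ) :
    (((a : ℝ) / M - (b : ℝ) / M : ℝ) : UnitAddCircle) =
      ((((a + (M - b % M) : ℕ) : ℝ) / (M : ℝ) * 1 : ℝ) : UnitAddCircle) := by
  have hM0 : (M : ℝ) ≠ 0 := by exact_mod_cast hM.ne'
  have hbl : b % M < M := Nat.mod_lt _ hM
  have h1 : (b : ℝ) = ((b % M : ℕ) : ℝ) + (M : ℝ) * ((b / M : ℕ) : ℝ) := by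
    exact_mod_cast (Nat.mod_add_div b M).symm
  have hc : ((a + (M - b % M) : ℕ) : ℝ) / (M : ℝ) * 1 =
      ((a : ℝ) / M - (b : ℝ) / M) + (1 + b / M : ℕ) • (1 : ℝ) := by
    rw [Nat.cast_add, Nat.cast_sub hbl.le, nsmul_eq_mul, Nat.cast_add, Nat.cast_one]
    field_simp
    linarith
  rw [hc, AddCircle.coe_add, AddCircle.coe_nsmul, AddCircle.coe_period, smul_zero, add_zero]

/-- The two numbers in `cdist` are the residues of `a - b` and `b - a` (they are both `0` or have
sum `M`); `AddCircle.norm_div_natCast`, or `UnitAddCircle.norm_eq`. -/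
theorem dist_eq_cdist {M : ℕ} (hM : 0 < M) (a b : ℕ) :
    dist (((a : ℝ) / M : ℝ) : UnitAddCircle) (((b : ℝ) / M : ℝ) : UnitAddCircle) =
      (cdist M a b : ℝ) / M := by
  have : Fact ((0 : ℝ) < 1) := ⟨one_pos⟩
  rw [dist_eq_norm, ← AddCircle.coe_sub, A9a_coe hM a b]
  have h := AddCircle.norm_div_natCast (p := (1 : ℝ)) (m := a + (M - b % M)) (n := M)
  rw [A9a_cdist hM a b] at h
  rw [one_mul] at h
  exact h

variable {O : Set (ℕ →. ℕ)}

theorem TR.cdist {M a b : ℕ → ℕ} (hM : TR O M) (ha : TR O a) (hb : TR O b) :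
    TR O (fun n => NL.cdist (M n) (a n) (b n)) := by
  have h1 := TR.mod (TR.add ha (TR.sub hM (TR.mod hb hM))) hM
  have h2 := TR.mod (TR.add hb (TR.sub hM (TR.mod ha hM))) hM
  refine TR.of_eq (TR.sub h1 (TR.sub h1 h2)) fun n => ?_
  unfold NL.cdist
  omega

theorem TR.FeA {f : ℕ → ℕ} (hf : TR O f) : TR O (fun n => NL.Fe (f n)) :=
  TR.of_eq (TR.add (TR.pow (TR.const 2) (TR.pow (TR.const 2) hf)) (TR.const 1)) fun _ => rfl

end Pool.Agent.Helper82.NL
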