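import Pool.Agent.Helper82.NL.A9a

/-!
Complexity of the validity of certificates (project NL, MP_3235d4_lc).
-/

namespace Pool.Agent.Helper82.NL

variable {O : Set (ℕ →. ℕ)}

/-- A predicate on numbers which is decidable in `O`. -/
def Dec (O : Set (ℕ →. ℕ)) (p : ℕ → Prop) : Prop := ∃ r, TR O r ∧ ∀ n, r n = 0 ↔ p n

theorem Dec.of_iff {p q : ℕ → Prop} (hp : Dec O p) (h : ∀ n, q n ↔ p n) : Dec O q := by
  obtain ⟨r, hr, hr'⟩ := hp
  exact ⟨r, hr, fun n => (hr' n).trans (h n).symm⟩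

theorem Dec.and {p q : ℕ → Prop} (hp : Dec O p) (hq : Dec O q) : Dec O (fun n => p n ∧ q n) := by
  obtain ⟨r, hr, hr'⟩ := hp
  obtain ⟨s, hs, hs'⟩ := hq
  refine ⟨fun n => r n + s n, TR.add hr hs, fun n => ?_⟩
  rw [Nat.add_eq_zero_iff, hr', hs']

theorem Dec.not {p : ℕ → Prop} (hp : Dec O p) : Dec O (fun n => ¬ p n) := by
  obtain ⟨r, hr, hr'⟩ := hp
  refine ⟨fun n => 1 - r n, TR.sub (TR.const 1) hr, fun n => ?_⟩
  show 1 - r n = 0 ↔ ¬ p n
  rw [← hr' n]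
  omega

theorem Dec.or {p q : ℕ → Prop} (hp : Dec O p) (hq : Dec O q) : Dec O (fun n => p n ∨ q n) := by
  obtain ⟨r, hr, hr'⟩ := hp
  obtain ⟨s, hs, hs'⟩ := hq
  refine ⟨fun n => r n * s n, TR.mul hr hs, fun n => ?_⟩
  rw [Nat.mul_eq_zero, hr', hs']

theorem Dec.imp {p q : ℕ → Prop} (hp : Dec O p) (hq : Dec O q) : Dec O (fun n => p n → q n) := by
  refine (hp.not.or hq).of_iff fun n => ?_
  tauto

theorem Dec.le {a b : ℕ → ℕ} (ha : TR O a) (hb : TR O b) : Dec O (fun n => a n ≤ b n) := by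
  refine ⟨fun n => a n - b n, TR.sub ha hb, fun n => ?_⟩
  show a n - b n = 0 ↔ a n ≤ b n
  omega

theorem Dec.eq {a b : ℕ → ℕ} (ha : TR O a) (hb : TR O b) : Dec O (fun n => a n = b n) := by
  refine ((Dec.le ha hb).and (Dec.le hb ha)).of_iff fun n => ?_
  omega

theorem Dec.comp {p : ℕ → Prop} (hp : Dec O p) {f : ℕ → ℕ} (hf : TR O f) :
    Dec O (fun n => p (f n)) := by
  obtain ⟨r, hr, hr'⟩ := hp
  exact ⟨fun n => r (f n), TR.comp hr hf, fun n => hr' (f n)⟩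

/-- Bounded quantifiers, with the variable coded as `pair n i`. -/
theorem Dec.ball {p : ℕ → ℕ → Prop} (hp : Dec O (fun z => p z.unpair.1 z.unpair.2)) {k : ℕ → ℕ}
    (hk : TR O k) : Dec O (fun n => ∀ i < k n, p n i) := by
  obtain ⟨r, hr, hr'⟩ := hp
  obtain ⟨s, hs, hs'⟩ := TR.ball hk hr
  refine ⟨s, hs, fun n => (hs' n).trans ?_⟩
  refine forall_congr' fun i => forall_congr' fun _ => ?_
  rw [hr']
  show p (Nat.pair n i).unpair.1 (Nat.pair n i).unpair.2 ↔ p n i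
  rw [Nat.unpair_pair]

theorem Dec.bex {p : ℕ → ℕ → Prop} (hp : Dec O (fun z => p z.unpair.1 z.unpair.2)) {k : ℕ → ℕ}
    (hk : TR O k) : Dec O (fun n => ∃ i < k n, p n i) := by
  refine (Dec.ball (p := fun n i => ¬ p n i) hp.not hk).not.of_iff fun n => ?_
  push Not
  rfl

theorem SG.of_dec {p : ℕ → Prop} (hp : Dec O p) : SG O p := by
  obtain ⟨r, hr, hr'⟩ := hp
  refine ⟨fun z => r z.unpair.1, TR.comp hr (TR.left TR.id), fun n => ?_⟩
  simp only [Nat.unpair_pair]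
  rw [← hr' n]
  exact ⟨fun h => ⟨0, fun _ => h⟩, fun ⟨_, h⟩ => h 0⟩

end Pool.Agent.Helper82.NL
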