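import Pool.Agent.Helper82.NL.B3b

/-!
Common roots in the circle (project NL, MP_3235d4_lc).
-/

namespace Pool.Agent.Helper82.NL

theorem Fe_pos (x : ℕ) : 0 < Fe x := by
  unfold Fe
  have := Nat.three_le_fermatNumber x
  omega

theorem Fe_coprime {x y : ℕ} (h : x ≠ y) : Nat.Coprime (Fe x) (Fe y) :=
  Nat.coprime_fermatNumber_fermatNumber h

/-- A Fermat number divides a product of Fermat numbers only if it is one of the factors. -/
theorem Fe_dvd_prod {s : Finset ℕ} {x : ℕ} (h : Fe x ∣ ∏ y ∈ s, Fe y) : x ∈ s := by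
  by_contra hx
  have h1 : Nat.Coprime (Fe x) (∏ y ∈ s, Fe y) :=
    Nat.Coprime.prod_right fun y hy => Fe_coprime fun e => hx (e ▸ hy)
  have h2 := Nat.Coprime.eq_one_of_dvd h1 h
  have h3 := Nat.three_le_fermatNumber x
  unfold Fe at h2
  omega

end Pool.Agent.Helper82.NL
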