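import Pool.Agent.Helper82.NL.Top2
import Pool.Agent.Helper82.NL.SG1
import Pool.Agent.Helper82.NL.B3

/-!
Certificates for clopen sets with roots: definitions (project NL, MP_3235d4_lc).
-/

namespace Pool.Agent.Helper82.NL

/-- A dense sequence with distances computable from `O`. -/
structure Pres (O : Set (ℕ →. ℕ)) {Y : Type} [MetricSpace Y] (y : ℕ → Y) (f : ℕ → ℕ) : Prop where
  dense : DenseRange y
  tr : TR O f
  apx : ∀ i j k, |(f (Nat.pair i (Nat.pair j k)) : ℝ) / 2 ^ k - dist (y i) (y j)| ≤ 1 / 2 ^ k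

/-- The base angle, leafwise. -/
noncomputable def rhoF (N : ℕ → ℕ) (o : Option ℕ) (κ : KK) : UnitAddCircle :=
  Sum.elim (fun z => wnd N o • z) (fun _ => 0) κ

/-- The height on the segments, leafwise. -/
noncomputable def etaF (κ : KK) : ℝ := Sum.elim (fun _ => 0) (fun t => (t : ℝ)) κ

/-- All data which are used for the certificates. -/
structure CD (O : Set (ℕ →. ℕ)) (N : ℕ → ℕ) (Y : Type) [MetricSpace Y] where
  F : Option ℕ → KK → Y
  leafy : Leafy N F
  y : ℕ → Y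
  f : ℕ → ℕ
  pres : Pres O y f
  rho : Y → UnitAddCircle
  rho_cont : Continuous rho
  rho_F : ∀ o κ, rho (F o κ) = rhoF N o κ
  eta : Y → ℝ
  eta_cont : Continuous eta
  eta_F : ∀ o κ, eta (F o κ) = etaF κ
  e0 : ℕ
  he0 : ∀ p p', dist p p' ≤ 2 / 2 ^ e0 → dist (rho p) (rho p') < 1 / 100 ∧
    |eta p - eta p'| < 1 / 100
  Q : ℕ → ℕ
  Q_tr : TR O Q
  hQ : ∀ m, dist (rho (y m)) (((Q m : ℝ) / 100 : ℝ) : UnitAddCircle) < 1 / 50
  H : ℕ → ℕ
  H_tr : TR O H
  hH : ∀ m, |eta (y m) - (H m : ℝ) / 100| < 1 / 50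

/-- The order of the roots of a certificate is `Fe (c.unpair.1)`. -/
def ord (c : ℕ) : ℕ := c.unpair.1

/-- The resolution. -/
def res (c : ℕ) : ℕ := c.unpair.2.unpair.1

/-- The number of centres. -/
def cn (c : ℕ) : ℕ := len c.unpair.2.unpair.2

/-- The index of a centre. -/
def ci (c r : ℕ) : ℕ := (ent c.unpair.2.unpair.2 r).unpair.1

/-- The label of a centre: `1` inside. -/
def clab (c r : ℕ) : ℕ := (ent c.unpair.2.unpair.2 r).unpair.2.unpair.1

/-- The numerator of the root at a centre; the denominator is `100 * Fe (ord c)`. -/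
def cG (c r : ℕ) : ℕ := (ent c.unpair.2.unpair.2 r).unpair.2.unpair.2

namespace CD

variable {O : Set (ℕ →. ℕ)} {N : ℕ → ℕ} {Y : Type} [MetricSpace Y] (C : CD O N Y)

/-- The point `m` is seen to be near the centre `r`. -/
def near (c m r : ℕ) : Prop := C.f (Nat.pair m (Nat.pair (ci c r) (res c + 2))) ≤ 4

/-- Two centres which are not seen to be far. -/
def adj (c r r' : ℕ) : Prop := C.f (Nat.pair (ci c r) (Nat.pair (ci c r') (res c + 2))) ≤ 16

/-- The root at a centre. -/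
noncomputable def GG (c r : ℕ) : UnitAddCircle :=
  (((cG c r : ℝ) / (100 * (Fe (ord c) : ℝ)) : ℝ) : UnitAddCircle)

/-- Valid certificates. -/
structure Valid (c : ℕ) : Prop where
  e0_le : C.e0 ≤ res c
  cover : ∀ m, ∃ r < cn c, C.near c m r
  sep : ∀ r < cn c, ∀ r' < cn c, C.adj c r r' → clab c r = 1 → clab c r' ≠ 1 →
    40 ≤ C.H (ci c r) ∨ 40 ≤ C.H (ci c r')
  root : ∀ r < cn c, ∀ r' < cn c, C.adj c r r' → clab c r = 1 → clab c r' = 1 →
    C.H (ci c r) < 50 → C.H (ci c r') < 50 → dist (GG c r) (GG c r') < 1 / (4 * (Fe (ord c) : ℝ))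
  power : ∀ r < cn c, clab c r = 1 → C.H (ci c r) < 50 →
    dist (((cG c r : ℝ) / 100 : ℝ) : UnitAddCircle)
      (((C.Q (ci c r) : ℝ) / 100 : ℝ) : UnitAddCircle) < 1 / 5

/-- The leaf `o` is inside. -/
def In (c : ℕ) (o : Option ℕ) : Prop :=
  ∃ r < cn c, clab c r = 1 ∧ dist (C.F o (Sum.inl 0)) (C.y (ci c r)) ≤ 3 / 2 * (1 / 2 ^ res c)

/-- Some point is seen to be inside for all certificates of the coded list `L`. -/
def NE (L : ℕ) : Prop := ∃ m, C.H m ≤ 10 ∧ ∀ s < len L, ∃ r < cn (ent L s),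
  clab (ent L s) r = 1 ∧ C.near (ent L s) m r

end CD

/-- What the recursion theoretic part needs to know about certificates. -/
structure CertSys (O : Set (ℕ →. ℕ)) (V : ℕ → Set ℕ) where
  Valid : ℕ → Prop
  In : ℕ → Set ℕ
  NE : ℕ → Prop
  valid_pi : ∃ R, TR O R ∧ ∀ c, Valid c ↔ ∀ m, R (Nat.pair c m) = 0
  ne_sigma : ∃ R, TR O R ∧ ∀ L, NE L ↔ ∃ m, R (Nat.pair L m) = 0
  ne_iff : ∀ L, 0 < len L → (∀ s < len L, Valid (ent L s)) →
    (NE L ↔ ∃ j, ∀ s < len L, j ∈ In (ent L s))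
  fin : ∀ c, Valid c → (In c).Finite
  sound : ∀ c, Valid c → ∀ j ∈ In c, ord c ∈ V j
  complete : ∀ j, ∀ x ∈ V j, ∃ c, Valid c ∧ ord c = x ∧ In c = {j}

end Pool.Agent.Helper82.NL
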