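import Pool.Agent.Helper82.NL.BDefs

/-!
The base angles of the points (project NL, MP_3235d4_lc).
-/

namespace Pool.Agent.Helper82.NL

theorem ee_le (m : ℕ) : ee m ≤ m :=
  (Nat.unpair_left_le _).trans ((Nat.unpair_right_le _).trans (Nat.unpair_right_le _))

theorem base_pos (m : ℕ) : 0 < base m := by
  unfold base
  positivity

/-- `uu m % 2 ^ ee m ≤ 2 ^ ee m - 1` and `ee m < m + 1`. -/
theorem base_lt_one (m : ℕ) : base m < 1 := by
  unfold base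
  have h1 : uu m % 2 ^ ee m + 1 ≤ 2 ^ ee m := Nat.mod_lt _ (by positivity)
  have h2 : ((uu m % 2 ^ ee m : ℕ) : ℝ) + 1 ≤ 2 ^ ee m := by exact_mod_cast h1
  have h3 : (0 : ℝ) < 2 ^ ee m := by positivity
  have h4 : ((uu m % 2 ^ ee m : ℕ) : ℝ) / 2 ^ ee m + 1 / 2 ^ ee m ≤ 1 := by
    rw [← add_div, div_le_one h3]
    exact h2
  have h5 : (1 : ℝ) / 2 ^ (m + 1) < 1 / 2 ^ ee m := by
    apply one_div_lt_one_div_of_lt h3
    exact pow_lt_pow_right₀ (by norm_num) (Nat.lt_succ_of_le (ee_le m))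
  linarith

theorem tt_mem (m : ℕ) : 0 ≤ tt m ∧ tt m ≤ 1 := by
  unfold tt
  refine ⟨by positivity, ?_⟩
  have h1 : uu m % (2 ^ ee m + 1) < 2 ^ ee m + 1 := Nat.mod_lt _ (by positivity)
  have h2 : ((uu m % (2 ^ ee m + 1) : ℕ) : ℝ) ≤ 2 ^ ee m := by
    exact_mod_cast Nat.lt_succ_iff.1 h1
  rw [div_le_one (by positivity)]
  exact h2

/-- `base m` is an odd multiple of `1 / 2 ^ (m + 1)`, by `ee_le`. -/
theorem base_odd (m : ℕ) : ∃ u : ℕ, base m = ((2 * u + 1 : ℕ) : ℝ) / 2 ^ (m + 1) := by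
  refine ⟨(uu m % 2 ^ ee m) * 2 ^ (m - ee m), ?_⟩
  unfold base
  have h1 : (2 : ℝ) ^ (m + 1) = 2 ^ ee m * (2 ^ (m - ee m) * 2) := by
    rw [← pow_succ, ← pow_add]
    congr 1
    have := ee_le m
    omega
  have h2 : (2 : ℝ) ^ ee m ≠ 0 := by positivity
  have h3 : (2 : ℝ) ^ (m - ee m) ≠ 0 := by positivity
  rw [h1]
  generalize uu m % 2 ^ ee m = w
  push_cast
  field_simp

/-- An integer multiple `c / 2 ^ n` with odd `c` has distance at least `1 / 2 ^ n` from all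
integers when `0 < n` (`UnitAddCircle.norm_eq`). -/
theorem norm_odd (c : ℤ) (hc : Odd c) (n : ℕ) (hn : 0 < n) :
    (1 : ℝ) / 2 ^ n ≤ ‖(((c : ℝ) / 2 ^ n : ℝ) : UnitAddCircle)‖ := by
  rw [UnitAddCircle.norm_eq]
  have h2 : (0 : ℝ) < 2 ^ n := by positivity
  generalize round ((c : ℝ) / 2 ^ n) = r
  have h3 : (c : ℝ) / 2 ^ n - r = ((c - 2 ^ n * r : ℤ) : ℝ) / 2 ^ n := by
    push_cast
    field_simp
  rw [h3, abs_div, abs_of_pos h2]
  have h4 : (1 : ℤ) ≤ |c - 2 ^ n * r| := by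
    apply Int.one_le_abs
    intro h5
    have h6 : c = 2 ^ n * r := by linarith
    have h7 : Even c := by
      rw [h6]
      exact (Int.even_pow.2 ⟨even_two, by omega⟩).mul_right r
    exact (Int.not_even_iff_odd.2 hc) h7
  have h8 : (1 : ℝ) ≤ |((c - 2 ^ n * r : ℤ) : ℝ)| := by
    rw [← Int.cast_abs]
    exact_mod_cast h4
  gcongr

theorem norm_base (m : ℕ) : 1 / 2 ^ (m + 1) ≤ ‖((base m : ℝ) : UnitAddCircle)‖ := by
  obtain ⟨u, hu⟩ := base_odd m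
  have h1 := norm_odd (2 * u + 1) ⟨u, rfl⟩ (m + 1) (Nat.succ_pos m)
  rw [hu]
  push_cast at h1 ⊢
  exact h1

/-- The difference is an odd multiple of `1 / 2 ^ (m + 1)`. -/
theorem norm_base_sub {q m : ℕ} (h : q < m) :
    1 / 2 ^ (m + 1) ≤ ‖((base m : ℝ) : UnitAddCircle) - ((base q : ℝ) : UnitAddCircle)‖ := by
  obtain ⟨u, hu⟩ := base_odd m
  obtain ⟨v, hv⟩ := base_odd q
  obtain ⟨d, hd⟩ : ∃ d, m = q + d + 1 := ⟨m - q - 1, by omega⟩
  have h1 := norm_odd (2 * (u - (2 * v + 1) * 2 ^ d) + 1) ⟨_, rfl⟩ (m + 1) (Nat.succ_pos m)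
  rw [← AddCircle.coe_sub]
  have h2 : base m - base q = (((2 * ((u : ℤ) - (2 * v + 1) * 2 ^ d) + 1 : ℤ) : ℝ)) / 2 ^ (m + 1) := by
    rw [hu, hv]
    have h3 : (2 : ℝ) ^ (m + 1) = 2 ^ (q + 1) * (2 * 2 ^ d) := by
      rw [← pow_succ', ← pow_add, hd]
      congr 1
      omega
    rw [h3]
    push_cast
    field_simp
    ring
  rw [h2]
  exact h1

end Pool.Agent.Helper82.NL
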