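import Pool.Agent.Helper82.NL.B1

/-!
The interpolating functions (project NL, MP_3235d4_lc).
-/

namespace Pool.Agent.Helper82.NL

namespace AD

variable (D : AD)

private theorem B2a_Fe_pos (x : ℕ) : 0 < Fe x := by
  unfold Fe Nat.fermatNumber
  exact Nat.succ_pos _

theorem root_nonneg (k m : ℕ) : 0 ≤ D.root k m := by
  unfold root
  have h1 := base_pos m
  positivity

theorem root_lt_one (k m : ℕ) : D.root k m < 1 := by
  unfold root
  have h0 := B2a_Fe_pos (D.idx k)
  have h1 : (0 : ℝ) < (Fe (D.idx k) : ℝ) := by exact_mod_cast h0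
  rw [div_lt_one h1]
  have h2 := base_lt_one m
  have h3 : ent (ll m) k % Fe (D.idx k) + 1 ≤ Fe (D.idx k) := Nat.mod_lt _ h0
  have h4 : ((ent (ll m) k % Fe (D.idx k) : ℕ) : ℝ) + 1 ≤ (Fe (D.idx k) : ℝ) := by
    exact_mod_cast h3
  linarith

/-- `Fe • root = base` in the circle. -/
theorem Fe_smul_root (k m : ℕ) :
    Fe (D.idx k) • ((D.root k m : ℝ) : UnitAddCircle) = ((base m : ℝ) : UnitAddCircle) := by
  have h0 := B2a_Fe_pos (D.idx k)
  have h1 : (Fe (D.idx k) : ℝ) ≠ 0 := by
    have : (0 : ℝ) < (Fe (D.idx k) : ℝ) := by exact_mod_cast h0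
    exact this.ne'
  have h2 : Fe (D.idx k) • D.root k m = base m + ((ent (ll m) k % Fe (D.idx k) : ℕ) : ℝ) := by
    unfold root
    rw [nsmul_eq_mul, mul_div_cancel₀ _ h1]
  have h3 : ((((ent (ll m) k % Fe (D.idx k) : ℕ) : ℝ)) : UnitAddCircle) = 0 := by
    rw [AddCircle.coe_eq_zero_iff]
    exact ⟨((ent (ll m) k % Fe (D.idx k) : ℕ) : ℤ), by
      rw [zsmul_eq_mul, mul_one, Int.cast_natCast]⟩
  rw [← AddCircle.coe_nsmul, h2, AddCircle.coe_add, h3, add_zero]

/-- Alive before the time of death. -/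
theorem al_iff {j k : ℕ} (h : ∃ t, ¬ D.al j k t) (t : ℕ) : D.al j k t ↔ t < D.tau j k := by
  classical
  have htau : D.tau j k = Nat.find h := by
    unfold tau
    rw [dif_pos h]
  rw [htau]
  constructor
  · intro ht
    by_contra hcon
    push Not at hcon
    have h1 : ∀ s, D.al j k (Nat.find h + s) → D.al j k (Nat.find h) := by
      intro s
      induction s with
      | zero => exact fun k => k
      | succ s ih => exact fun k => ih (D.anti _ _ _ k)
    apply Nat.find_spec h
    apply h1 (t - Nat.find h)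
    have h2 : Nat.find h + (t - Nat.find h) = t := by omega
    rw [h2]
    exact ht
  · intro ht
    exact not_not.1 (Nat.find_min h ht)

theorem mem_A (j k : ℕ) : k ∈ D.A j ↔ ∀ t, D.al j k t := by
  unfold A
  rw [Set.Finite.mem_toFinset]
  rfl

theorem spike_range (j k : ℕ) (b : UnitAddCircle) : 0 ≤ D.spike j k b ∧ D.spike j k b ≤ 1 := by
  unfold spike
  refine ⟨le_min zero_le_one (Finset.sum_nonneg fun q _ => ?_), min_le_left _ _⟩
  split_ifs
  · exact mul_nonneg (D.root_nonneg k q) (sub_nonneg.2 (min_le_left _ _))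
  · exact le_rfl

end AD

end Pool.Agent.Helper82.NL
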