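import Pool.Agent.Helper82.NL.B2a

/-!
The interpolating functions (project NL, MP_3235d4_lc).
-/

namespace Pool.Agent.Helper82.NL

namespace AD

variable (D : AD)

theorem spike_cont (j k : ℕ) : Continuous (D.spike j k) := by
  unfold spike
  refine continuous_const.min (continuous_finsetSum _ fun q _ => ?_)
  split_ifs
  · fun_prop
  · exact continuous_const

theorem B2b_term {T q : ℕ} (hq : q < T) {x : ℝ} (hx : 1 / 2 ^ (q + 1) ≤ x) :
    1 - min 1 (2 ^ T * x) = 0 := by
  have h1 : (1 : ℝ) / 2 ^ T ≤ 1 / 2 ^ (q + 1) :=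
    one_div_le_one_div_of_le (by positivity) (pow_le_pow_right₀ (by norm_num) hq)
  have h2 : (2 : ℝ) ^ T * (1 / 2 ^ T) = 1 := mul_one_div_cancel (by positivity)
  have h3 : (1 : ℝ) ≤ 2 ^ T * x := by
    rw [← h2]
    exact mul_le_mul_of_nonneg_left (h1.trans hx) (by positivity)
  rw [min_eq_left h3, sub_self]

/-- All terms vanish: `‖base q‖ ≥ 1 / 2 ^ (q + 1) ≥ 1 / 2 ^ tau`. -/
theorem spike_zero (j k : ℕ) : D.spike j k 0 = 0 := by
  unfold spike
  rw [Finset.sum_eq_zero, min_eq_right zero_le_one]
  intro q hq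
  split_ifs
  · rw [zero_sub, norm_neg, B2b_term (Finset.mem_range.mp hq) (norm_base q), mul_zero]
  · rfl

/-- Only the term of `q` does not vanish, see `norm_base_sub`. -/
theorem spike_base {j k q : ℕ} (hq : q < D.tau j k) (hk : kd q = 0) (hj : jj q = j) :
    D.spike j k ((base q : ℝ) : UnitAddCircle) = D.root k q := by
  unfold spike
  rw [Finset.sum_eq_single q]
  · rw [if_pos ⟨hk, hj⟩, sub_self, norm_zero, mul_zero, min_eq_right zero_le_one, sub_zero, mul_one,
      min_eq_right (D.root_lt_one k q).le]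
  · intro m hm hne
    split_ifs
    · rcases lt_or_gt_of_ne hne with h | h
      · rw [B2b_term hq (norm_base_sub h), mul_zero]
      · have h1 := norm_base_sub h
        rw [norm_sub_rev] at h1
        rw [B2b_term (Finset.mem_range.mp hm) h1, mul_zero]
    · rfl
  · intro h
    exact absurd (Finset.mem_range.mpr hq) h

end AD

end Pool.Agent.Helper82.NL
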