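import Pool.Agent.Helper82.NL.Defs

/-!
Common roots in the circle (project NL, MP_3235d4_lc).
-/

namespace Pool.Agent.Helper82.NL

/-- If `s` is not empty the numbers `N / e k` have greatest common divisor `1`: there are integers
`u k` with `∑ u k * (N / e k) = 1`. Induction on `s`, or `Nat.Coprime` and Bezout. -/
theorem crt_bezout {s : Finset ℕ} (hs : s.Nonempty) (e : ℕ → ℕ)
    (he : ∀ k ∈ s, ∀ k' ∈ s, k ≠ k' → Nat.Coprime (e k) (e k')) (hpos : ∀ k ∈ s, 0 < e k) :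
    ∃ u : ℕ → ℤ, ∑ k ∈ s, u k * ((∏ i ∈ s, e i) / e k : ℕ) = 1 := by
  classical
  have h1 : Pairwise (Function.onFun IsCoprime fun i : s => (e i : ℤ)) := by
    intro i j hij
    exact Nat.isCoprime_iff_coprime.mpr
      (he i i.2 j j.2 (fun h => hij (Subtype.ext h)))
  obtain ⟨μ, hμ⟩ := (exists_sum_eq_one_iff_pairwise_coprime (s := fun i => (e i : ℤ)) hs).mpr h1
  refine ⟨μ, ?_⟩
  rw [← hμ]
  refine Finset.sum_congr rfl fun k hk => ?_
  have h2 : (∏ i ∈ s, e i) / e k = ∏ j ∈ s \ {k}, e j := by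
    rw [← Finset.prod_sdiff (Finset.singleton_subset_iff.mpr hk), Finset.prod_singleton]
    exact Nat.mul_div_cancel _ (hpos k hk)
  rw [h2]
  push_cast
  rfl

theorem crt_unique {s : Finset ℕ} (e : ℕ → ℕ)
    (he : ∀ k ∈ s, ∀ k' ∈ s, k ≠ k' → Nat.Coprime (e k) (e k')) (hpos : ∀ k ∈ s, 0 < e k)
    {z z' : UnitAddCircle} (h : (∏ i ∈ s, e i) • z = (∏ i ∈ s, e i) • z')
    (h' : ∀ k ∈ s, ((∏ i ∈ s, e i) / e k) • z = ((∏ i ∈ s, e i) / e k) • z') : z = z' := by
  rcases s.eq_empty_or_nonempty with rfl | hs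
  · simpa using h
  · obtain ⟨u, hu⟩ := crt_bezout hs e he hpos
    have key : ∀ x : UnitAddCircle, x = ∑ k ∈ s, u k • (((∏ i ∈ s, e i) / e k) • x) := by
      intro x
      have h1 : ∀ k ∈ s, u k • (((∏ i ∈ s, e i) / e k) • x)
          = (u k * ((∏ i ∈ s, e i) / e k : ℕ)) • x := by
        intro k _
        rw [mul_smul, natCast_zsmul]
      rw [Finset.sum_congr rfl h1, ← Finset.sum_smul, hu, one_smul]
    rw [key z, key z']
    refine Finset.sum_congr rfl fun k hk => ?_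
    rw [h' k hk]

end Pool.Agent.Helper82.NL
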