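import Pool.Agent.Helper82.NL.B3a

/-!
Common roots in the circle (project NL, MP_3235d4_lc).
-/

namespace Pool.Agent.Helper82.NL

theorem B3b_swap {s : Finset ℕ} (e : ℕ → ℕ)
    (he : ∀ k ∈ s, ∀ k' ∈ s, k ≠ k' → Nat.Coprime (e k) (e k')) (hpos : ∀ k ∈ s, 0 < e k)
    (b : UnitAddCircle) (x : ℕ → UnitAddCircle) (hx : ∀ k ∈ s, e k • x k = b)
    {j k : ℕ} (hj : j ∈ s) (hk : k ∈ s) :
    ((∏ i ∈ s, e i) / e j) • x k = ((∏ i ∈ s, e i) / e k) • x j := by
  rcases eq_or_ne k j with rfl | hkj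
  · rfl
  · obtain ⟨m, hm⟩ := Nat.Coprime.mul_dvd_of_dvd_of_dvd (he k hk j hj hkj)
      (Finset.dvd_prod_of_mem e hk) (Finset.dvd_prod_of_mem e hj)
    have h1 : (∏ i ∈ s, e i) / e j = m * e k := by
      rw [hm]
      exact Nat.div_eq_of_eq_mul_left (hpos j hj) (by ring)
    have h2 : (∏ i ∈ s, e i) / e k = m * e j := by
      rw [hm]
      exact Nat.div_eq_of_eq_mul_left (hpos k hk) (by ring)
    rw [h1, h2, mul_smul, mul_smul, hx k hk, hx j hj]

/-- `z = ∑ u k • x k` with the Bezout coefficients: for `i ≠ k` one has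
`(N / e k) • x i = (N / (e k * e i)) • b = (N / e i) • x k`. -/
theorem crt_exists {s : Finset ℕ} (e : ℕ → ℕ)
    (he : ∀ k ∈ s, ∀ k' ∈ s, k ≠ k' → Nat.Coprime (e k) (e k')) (hpos : ∀ k ∈ s, 0 < e k)
    (b : UnitAddCircle) (x : ℕ → UnitAddCircle) (hx : ∀ k ∈ s, e k • x k = b) :
    ∃ z : UnitAddCircle, (∏ i ∈ s, e i) • z = b ∧
      ∀ k ∈ s, ((∏ i ∈ s, e i) / e k) • z = x k := by
  rcases s.eq_empty_or_nonempty with rfl | hs
  · exact ⟨b, by simp, by simp⟩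
  · obtain ⟨u, hu⟩ := crt_bezout hs e he hpos
    refine ⟨∑ k ∈ s, u k • x k, ?_, fun j hj => ?_⟩
    · rw [Finset.smul_sum]
      have h1 : ∀ k ∈ s, (∏ i ∈ s, e i) • (u k • x k)
          = (u k * ((∏ i ∈ s, e i) / e k : ℕ)) • b := by
        intro k hk
        have h2 : (∏ i ∈ s, e i) = (∏ i ∈ s, e i) / e k * e k :=
          (Nat.div_mul_cancel (Finset.dvd_prod_of_mem e hk)).symm
        rw [smul_comm, h2, mul_smul, hx k hk, mul_smul, ← h2, natCast_zsmul]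
      rw [Finset.sum_congr rfl h1, ← Finset.sum_smul, hu, one_smul]
    · rw [Finset.smul_sum]
      have h1 : ∀ k ∈ s, ((∏ i ∈ s, e i) / e j) • (u k • x k)
          = (u k * ((∏ i ∈ s, e i) / e k : ℕ)) • x j := by
        intro k hk
        rw [smul_comm, B3b_swap e he hpos b x hx hj hk, mul_smul, natCast_zsmul]
      rw [Finset.sum_congr rfl h1, ← Finset.sum_smul, hu, one_smul]

end Pool.Agent.Helper82.NL
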