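import Pool.Agent.Helper82.NL.B4c

/-!
The parametrization `beta` makes its range a space of leaves (project NL, MP_3235d4_lc).
-/

namespace Pool.Agent.Helper82.NL

namespace AD

variable (D : AD)

/-- The presented space. -/
def QQ : Type := {p : EE // ∃ o κ, D.beta o κ = p}

noncomputable instance : MetricSpace D.QQ :=
  inferInstanceAs (MetricSpace {p : EE // ∃ o κ, D.beta o κ = p})

/-- The parametrization of the presented space. -/
noncomputable def FF (o : Option ℕ) (κ : KK) : D.QQ := ⟨D.beta o κ, o, κ, rfl⟩

theorem leafy_FF : Leafy D.N D.FF :=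
  leafy_range D.beta D.beta_cont D.beta_fib D.beta_conv

end AD

end Pool.Agent.Helper82.NL
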