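import Pool.Agent.Helper82.NL.B2
import Pool.Agent.Helper82.NL.B3

/-!
The parametrization `beta` makes its range a space of leaves (project NL, MP_3235d4_lc).
-/

namespace Pool.Agent.Helper82.NL

/-- Closeness in finitely many coordinates: the tail of `∑ 2⁻¹ ^ i` is small. -/
theorem EE.close (ε : ℝ) (hε : 0 < ε) : ∃ (K : ℕ) (δ : ℝ), 0 < δ ∧
    ∀ x y : EE, (∀ i < K, dist (x i) (y i) < δ) → dist x y < ε := by
  obtain ⟨K, hK⟩ : ∃ K : ℕ, (2⁻¹ : ℝ) ^ K < ε / 4 :=
    exists_pow_lt_of_lt_one (by positivity) (by norm_num)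
  refine ⟨K, ε / (2 * (K + 1)), by positivity, fun x y h => ?_⟩
  rw [EE.dist_eq]
  have hgeo : Summable fun i : ℕ => (2⁻¹ : ℝ) ^ i :=
    summable_geometric_of_lt_one (by norm_num) (by norm_num)
  have hsum : Summable fun i : ℕ => min ((2⁻¹ : ℝ) ^ i) (dist (x i) (y i)) :=
    Summable.of_nonneg_of_le (fun i => le_min (by positivity) dist_nonneg)
      (fun i => min_le_left _ _) hgeo
  rw [← hsum.sum_add_tsum_nat_add K]
  have h1 : ∑ i ∈ Finset.range K, min ((2⁻¹ : ℝ) ^ i) (dist (x i) (y i)) ≤
      K * (ε / (2 * (K + 1))) := by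
    calc ∑ i ∈ Finset.range K, min ((2⁻¹ : ℝ) ^ i) (dist (x i) (y i))
        ≤ ∑ _i ∈ Finset.range K, ε / (2 * (K + 1)) :=
          Finset.sum_le_sum fun i hi =>
            (min_le_right _ _).trans (h i (Finset.mem_range.mp hi)).le
      _ = K * (ε / (2 * (K + 1))) := by
          rw [Finset.sum_const, Finset.card_range, nsmul_eq_mul]
  have h2 : ∑' i : ℕ, min ((2⁻¹ : ℝ) ^ (i + K)) (dist (x (i + K)) (y (i + K))) ≤
      2 * (2⁻¹ : ℝ) ^ K := by
    have hg2 : Summable fun i : ℕ => (2⁻¹ : ℝ) ^ (i + K) := (summable_nat_add_iff K).mpr hgeo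
    calc ∑' i : ℕ, min ((2⁻¹ : ℝ) ^ (i + K)) (dist (x (i + K)) (y (i + K)))
        ≤ ∑' i : ℕ, (2⁻¹ : ℝ) ^ (i + K) :=
          ((summable_nat_add_iff K).mpr hsum).tsum_le_tsum (fun i => min_le_left _ _) hg2
      _ = 2 * (2⁻¹ : ℝ) ^ K := by
          simp_rw [pow_add]
          rw [tsum_mul_right, tsum_geometric_of_lt_one (by norm_num) (by norm_num)]
          norm_num
  have h3 : K * (ε / (2 * (K + 1))) < ε / 2 := by
    have hK0 : (0 : ℝ) < 2 * (K + 1) := by positivity
    rw [← mul_div_assoc, div_lt_div_iff₀ hK0 (by norm_num)]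
    nlinarith
  linarith

namespace AD

variable (D : AD)

theorem coord_cont (j k : ℕ) : Continuous (D.coord j k) := by
  unfold coord
  split_ifs
  · fun_prop
  · have h := D.spike_cont j k
    have h2 : Continuous fun z : UnitAddCircle => D.spike j k (D.N j • z) :=
      h.comp (continuous_const_smul _)
    exact (AddCircle.continuous_mk' 1).comp h2

theorem coord_zero (j k : ℕ) : D.coord j k 0 = 0 := by
  unfold coord
  split_ifs
  · exact smul_zero _
  · rw [smul_zero, spike_zero]
    exact AddCircle.coe_zero (1 : ℝ)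

theorem beta_cont (o : Option ℕ) : Continuous (D.beta o) := by
  rw [EE.continuous_iff]
  intro i
  have hq : ∀ f : unitInterval → ℝ, Continuous f →
      Continuous fun t : unitInterval => ((f t : ℝ) : UnitAddCircle) :=
    fun f hf => (AddCircle.continuous_mk' 1).comp hf
  cases o with
  | none =>
    rw [continuous_sum_dom]
    constructor
    · match i with
      | 0 => exact continuous_id
      | _ + 1 => exact continuous_const
    · match i with
      | 0 => exact continuous_const
      | 1 => exact continuous_const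
      | 2 => exact hq (fun t => (t : ℝ) / 4) (by fun_prop)
      | _ + 3 => exact continuous_const
  | some j =>
    rw [continuous_sum_dom]
    constructor
    · match i with
      | 0 => exact continuous_const_smul (D.N j)
      | 1 => exact continuous_const
      | 2 => exact continuous_const
      | l + 3 =>
        change Continuous fun z : UnitAddCircle => if l < j then 0 else D.coord j (l - j) z
        split_ifs
        · exact continuous_const
        · exact D.coord_cont j (l - j)
    · match i with
      | 0 => exact continuous_const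
      | 1 => exact hq (fun t => (1 / 2) ^ j * (1 - (t : ℝ)) / 4) (by fun_prop)
      | 2 => exact hq (fun t => (t : ℝ) / 4) (by fun_prop)
      | _ + 3 => exact continuous_const

end AD

end Pool.Agent.Helper82.NL
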