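import Pool.Agent.Helper82.NL.B4a

/-!
The parametrization `beta` makes its range a space of leaves (project NL, MP_3235d4_lc).
-/

namespace Pool.Agent.Helper82.NL

namespace AD

variable (D : AD)

/-- On a circle: the coordinates `D.N j • z` and `D.coord j k z`, `k ∈ D.A j`, determine `z` by
`crt_unique`. -/
theorem circle_inj (j : ℕ) {z z' : UnitAddCircle}
    (h : D.beta (some j) (Sum.inl z) = D.beta (some j) (Sum.inl z')) : z = z' := by
  have h0 : D.N j • z = D.N j • z' := congrFun h 0
  have h1 : ∀ k, D.coord j k z = D.coord j k z' := by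
    intro k
    have h2 : (if k + j < j then (0 : UnitAddCircle) else D.coord j (k + j - j) z) =
        (if k + j < j then (0 : UnitAddCircle) else D.coord j (k + j - j) z') :=
      congrFun h (k + j + 3)
    rw [if_neg (by omega), if_neg (by omega), Nat.add_sub_cancel] at h2
    exact h2
  refine crt_unique (s := D.A j) (fun k => Fe (D.idx k)) ?_ (fun k _ => Fe_pos _) h0 ?_
  · intro k hk k' hk' hne
    refine Fe_coprime fun e => hne ?_
    exact D.inj j k k' ((D.mem_A j k).mp hk) ((D.mem_A j k').mp hk') e
  · intro k hk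
    have h2 := h1 k
    unfold coord at h2
    rw [if_pos hk, if_pos hk] at h2
    exact h2

/-- The height of the leaf. -/
noncomputable def B4b_wt (o : Option ℕ) : ℝ := o.elim 0 fun j => (1 / 2) ^ j

/-- The parameter of a point of a leaf. -/
noncomputable def B4b_tt : KK → ℝ := Sum.elim (fun _ => 0) (fun t : unitInterval => (t : ℝ))

theorem B4b_wt_mem (o : Option ℕ) : 0 ≤ B4b_wt o ∧ B4b_wt o ≤ 1 := by
  cases o with
  | none => simp [B4b_wt]
  | some j =>
    refine ⟨?_, ?_⟩
    · simp only [B4b_wt, Option.elim]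
      positivity
    · simp only [B4b_wt, Option.elim]
      exact pow_le_one₀ (by norm_num) (by norm_num)

theorem B4b_wt_inj {o o' : Option ℕ} (h : B4b_wt o = B4b_wt o') : o = o' := by
  have hp : ∀ j : ℕ, (0 : ℝ) < (1 / 2) ^ j := fun j => by positivity
  cases o with
  | none =>
    cases o' with
    | none => rfl
    | some j =>
      exfalso
      simp only [B4b_wt, Option.elim] at h
      exact (hp j).ne h
  | some j =>
    cases o' with
    | none =>
      exfalso
      simp only [B4b_wt, Option.elim] at h
      exact (hp j).ne' h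
    | some j' =>
      simp only [B4b_wt, Option.elim] at h
      have h1 : Function.Injective fun n : ℕ => (1 / 2 : ℝ) ^ n :=
        pow_right_injective₀ (by norm_num) (by norm_num)
      rw [h1 h]

theorem B4b_tt_mem (κ : KK) : 0 ≤ B4b_tt κ ∧ B4b_tt κ ≤ 1 := by
  cases κ with
  | inl z => simp [B4b_tt]
  | inr t => exact ⟨t.2.1, t.2.2⟩

theorem B4b_one (o : Option ℕ) (κ : KK) :
    D.beta o κ 1 = ((B4b_wt o * (1 - B4b_tt κ) / 4 : ℝ) : UnitAddCircle) := by
  cases o with
  | none =>
    cases κ with
    | inl z =>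
      change (0 : UnitAddCircle) = _
      simp [B4b_wt]
    | inr t =>
      change (0 : UnitAddCircle) = _
      simp [B4b_wt]
  | some j =>
    cases κ with
    | inl z =>
      change (((1 / 2) ^ j / 4 : ℝ) : UnitAddCircle) = (((1 / 2) ^ j * (1 - 0) / 4 : ℝ) : UnitAddCircle)
      rw [sub_zero, mul_one]
    | inr t => rfl

theorem B4b_two (o : Option ℕ) (κ : KK) :
    D.beta o κ 2 = ((B4b_tt κ / 4 : ℝ) : UnitAddCircle) := by
  cases o with
  | none =>
    cases κ with
    | inl z =>
      change (0 : UnitAddCircle) = ((0 / 4 : ℝ) : UnitAddCircle)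
      rw [zero_div]
      rfl
    | inr t => rfl
  | some j =>
    cases κ with
    | inl z =>
      change (0 : UnitAddCircle) = ((0 / 4 : ℝ) : UnitAddCircle)
      rw [zero_div]
      rfl
    | inr t => rfl

theorem B4b_coe_inj {x y : ℝ} (hx : 0 ≤ x ∧ x ≤ 1) (hy : 0 ≤ y ∧ y ≤ 1)
    (h : ((x / 4 : ℝ) : UnitAddCircle) = ((y / 4 : ℝ) : UnitAddCircle)) : x = y := by
  have h1 := (AddCircle.coe_eq_coe_iff_of_mem_Ico (p := (1 : ℝ)) (a := 0) (x := x / 4) (y := y / 4)
    ⟨by linarith, by linarith⟩ ⟨by linarith, by linarith⟩).mp h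
  linarith

theorem B4b_glue (o : Option ℕ) : D.beta o (Sum.inl 0) = D.beta o (Sum.inr 0) := by
  funext i
  have h4 : (0 : UnitAddCircle) = ((((0 : unitInterval) : ℝ) / 4 : ℝ) : UnitAddCircle) := by
    rw [Set.Icc.coe_zero, zero_div]
    rfl
  cases o with
  | none =>
    match i with
    | 0 => rfl
    | 1 => rfl
    | 2 => exact h4
    | l + 3 => rfl
  | some j =>
    match i with
    | 0 =>
      change D.N j • (0 : UnitAddCircle) = 0
      exact smul_zero _
    | 1 =>
      change (((1 / 2) ^ j / 4 : ℝ) : UnitAddCircle) =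
        (((1 / 2) ^ j * (1 - ((0 : unitInterval) : ℝ)) / 4 : ℝ) : UnitAddCircle)
      rw [Set.Icc.coe_zero, sub_zero, mul_one]
    | 2 => exact h4
    | l + 3 =>
      change (if l < j then (0 : UnitAddCircle) else D.coord j (l - j) 0) = 0
      split_ifs
      · rfl
      · exact D.coord_zero j (l - j)

theorem B4b_apex (o : Option ℕ) : D.beta o (Sum.inr 1) = D.beta none (Sum.inr 1) := by
  funext i
  cases o with
  | none => rfl
  | some j =>
    match i with
    | 0 => rfl
    | 1 =>
      change (((1 / 2) ^ j * (1 - ((1 : unitInterval) : ℝ)) / 4 : ℝ) : UnitAddCircle) = 0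
      rw [Set.Icc.coe_one, sub_self, mul_zero, zero_div]
      rfl
    | 2 => rfl
    | l + 3 => rfl

theorem B4b_circle_inj (o : Option ℕ) {z z' : UnitAddCircle}
    (h : D.beta o (Sum.inl z) = D.beta o (Sum.inl z')) : z = z' := by
  cases o with
  | none => exact congrFun h 0
  | some j => exact D.circle_inj j h

/-- The coordinates `1` and `2` (real numbers `h / 4` and `t / 4` in `[0, 1/4]`, on which the map
to the circle is injective) determine the leaf and `t`, except for the apex; `circle_inj` for two
points of the same circle, and for a point of the circle and of the segment at `t = 0` compare with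
`z' = 0`. -/
theorem beta_fib (o : Option ℕ) (κ : KK) (o' : Option ℕ) (κ' : KK) :
    D.beta o κ = D.beta o' κ' ↔ Rel o κ o' κ' := by
  constructor
  · intro h
    have ht : B4b_tt κ = B4b_tt κ' := by
      refine B4b_coe_inj (B4b_tt_mem κ) (B4b_tt_mem κ') ?_
      rw [← D.B4b_two o κ, ← D.B4b_two o' κ', h]
    have hm : ∀ (o : Option ℕ) (κ : KK), 0 ≤ B4b_wt o * (1 - B4b_tt κ) ∧
        B4b_wt o * (1 - B4b_tt κ) ≤ 1 := by
      intro o κ
      have h1 := B4b_wt_mem o
      have h2 := B4b_tt_mem κ
      exact ⟨mul_nonneg h1.1 (by linarith), mul_le_one₀ h1.2 (by linarith) (by linarith)⟩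
    have hw : B4b_wt o * (1 - B4b_tt κ) = B4b_wt o' * (1 - B4b_tt κ') := by
      refine B4b_coe_inj (hm o κ) (hm o' κ') ?_
      rw [← D.B4b_one o κ, ← D.B4b_one o' κ', h]
    rcases eq_or_ne (B4b_tt κ) 1 with h1 | h1
    · left
      have h2 : ∀ κ : KK, B4b_tt κ = 1 → κ = Sum.inr 1 := by
        intro κ hκ
        cases κ with
        | inl z => exact absurd hκ (by simp [B4b_tt])
        | inr t => exact congrArg Sum.inr (Subtype.ext hκ)
      exact ⟨h2 κ h1, h2 κ' (ht ▸ h1)⟩
    · right
      rw [← ht] at hw
      have h3 : o = o' :=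
        B4b_wt_inj (mul_right_cancel₀ (sub_ne_zero.mpr (Ne.symm h1)) hw)
      subst h3
      refine ⟨rfl, ?_⟩
      cases κ with
      | inl z =>
        cases κ' with
        | inl z' =>
          left
          rw [D.B4b_circle_inj o h]
        | inr t' =>
          right
          left
          have h5 : t' = 0 := Subtype.ext ht.symm
          subst h5
          rw [← D.B4b_glue o] at h
          rw [D.B4b_circle_inj o h]
          exact ⟨rfl, rfl⟩
      | inr t =>
        cases κ' with
        | inl z' =>
          right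
          right
          have h5 : t = 0 := Subtype.ext ht
          subst h5
          rw [← D.B4b_glue o] at h
          rw [D.B4b_circle_inj o h]
          exact ⟨rfl, rfl⟩
        | inr t' =>
          left
          exact congrArg Sum.inr (Subtype.ext ht)
  · rintro (⟨rfl, rfl⟩ | ⟨rfl, rfl | ⟨rfl, rfl⟩ | ⟨rfl, rfl⟩⟩)
    · rw [D.B4b_apex o, D.B4b_apex o']
    · rfl
    · exact D.B4b_glue o
    · exact (D.B4b_glue o).symm

end AD

end Pool.Agent.Helper82.NL
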