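import Pool.Agent.Helper82.NL.B4b

/-!
The parametrization `beta` makes its range a space of leaves (project NL, MP_3235d4_lc).
-/

namespace Pool.Agent.Helper82.NL

theorem B4c_norm (x : ℝ) : ‖((x : ℝ) : UnitAddCircle)‖ ≤ |x| := by
  rw [UnitAddCircle.norm_eq]
  have h := round_le x 0
  simpa using h

namespace AD

variable (D : AD)

/-- The coordinate `0` is the same, the coordinates `1` and `2` differ by at most `(1/2)^j`, and
the coordinates `l + 3` vanish for `l < j`; use `EE.close`. -/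
theorem beta_conv : ∀ ε > 0, ∃ J, ∀ j ≥ J, ∀ κ,
    dist (D.beta (some j) κ) (D.beta none (nu (D.N j) κ)) < ε := by
  intro ε hε
  obtain ⟨K, δ, hδ, h⟩ := EE.close ε hε
  obtain ⟨J, hJ⟩ := exists_pow_lt_of_lt_one hδ (by norm_num : (1 / 2 : ℝ) < 1)
  refine ⟨max J K, fun j hj κ => h _ _ (fun i hi => ?_)⟩
  have hjJ : J ≤ j := (le_max_left _ _).trans hj
  have hjK : K ≤ j := (le_max_right _ _).trans hj
  have hpow : (1 / 2 : ℝ) ^ j < δ :=
    (pow_le_pow_of_le_one (by norm_num) (by norm_num) hjJ).trans_lt hJ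
  have hpos : (0 : ℝ) < (1 / 2 : ℝ) ^ j := by positivity
  have hsm : ∀ x : ℝ, |x| ≤ (1 / 2 : ℝ) ^ j → dist ((x : ℝ) : UnitAddCircle) 0 < δ := by
    intro x hx
    rw [dist_zero_right]
    exact ((B4c_norm x).trans hx).trans_lt hpow
  rcases κ with z | t
  · match i, hi with
    | 0, _ => simpa [AD.beta, AD.betaFun, nu] using hδ
    | 1, _ =>
      have e : |(1 / 2 : ℝ) ^ j / 4| ≤ (1 / 2 : ℝ) ^ j := by
        rw [abs_of_nonneg (by positivity)]
        linarith
      exact hsm _ e
    | 2, _ => simpa [AD.beta, AD.betaFun, nu] using hδ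
    | l + 3, hi =>
      have hl : l < j := by omega
      have e : D.beta (some j) (Sum.inl z) (l + 3) = 0 := by
        simp [AD.beta, AD.betaFun, hl]
      rw [e]
      simpa [AD.beta, AD.betaFun, nu] using hδ
  · match i, hi with
    | 0, _ => simpa [AD.beta, AD.betaFun, nu] using hδ
    | 1, _ =>
      have h0 := t.2.1
      have h1 := t.2.2
      have e : |(1 / 2 : ℝ) ^ j * (1 - (t : ℝ)) / 4| ≤ (1 / 2 : ℝ) ^ j := by
        rw [abs_of_nonneg (div_nonneg (mul_nonneg hpos.le (by linarith)) (by norm_num))]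
        nlinarith
      exact hsm _ e
    | 2, _ => simpa [AD.beta, AD.betaFun, nu] using hδ
    | l + 3, hi => simpa [AD.beta, AD.betaFun, nu] using hδ

end AD

end Pool.Agent.Helper82.NL
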