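import Pool.Agent.Helper82.NL.B4

/-!
The points of the presentation (project NL, MP_3235d4_lc).
-/

namespace Pool.Agent.Helper82.NL

namespace AD

variable (D : AD)

/-- `crt_exists` with `Fe_smul_root`. -/
theorem exists_pz (m : ℕ) : ∃ z : UnitAddCircle,
    D.N (jj m) • z = ((base m : ℝ) : UnitAddCircle) ∧
    ∀ k ∈ D.A (jj m), (D.N (jj m) / Fe (D.idx k)) • z = ((D.root k m : ℝ) : UnitAddCircle) := by
  unfold N
  refine crt_exists (s := D.A (jj m)) (fun k => Fe (D.idx k)) ?_ (fun k _ => Fe_pos _) _
    (fun k => ((D.root k m : ℝ) : UnitAddCircle)) (fun k _ => D.Fe_smul_root k m)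
  intro k hk k' hk' hne
  refine Fe_coprime fun h => hne ?_
  exact D.inj (jj m) k k' ((D.mem_A _ _).1 hk) ((D.mem_A _ _).1 hk') h

/-- The parameter of the point `m` on its circle. -/
noncomputable def pz (m : ℕ) : UnitAddCircle := (D.exists_pz m).choose

/-- The parameter of the point `m` in its leaf. -/
noncomputable def ppt (m : ℕ) : KK :=
  if kd m = 0 then Sum.inl (D.pz m) else Sum.inr ⟨tt m, tt_mem m⟩

theorem B5_zero : ((0 : ℝ) : UnitAddCircle) = 0 := rfl

theorem B5_half (j : ℕ) : (0 : ℝ) ≤ (1 / 2) ^ j ∧ (1 / 2 : ℝ) ^ j ≤ 1 :=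
  ⟨by positivity, pow_le_one₀ (by norm_num) (by norm_num)⟩

theorem ureal_mem (m i : ℕ) : 0 ≤ D.ureal m i ∧ D.ureal m i ≤ 1 := by
  have h1 := B5_half (jj m)
  have h2 := tt_mem m
  unfold ureal
  by_cases hk : kd m = 0
  · rw [if_pos hk]
    rcases i with _ | _ | _ | l
    · exact ⟨(base_pos m).le, (base_lt_one m).le⟩
    · simp only
      constructor <;> linarith
    · simp
    · simp only
      split_ifs
      · simp
      · exact ⟨D.root_nonneg _ _, (D.root_lt_one _ _).le⟩
      · exact D.spike_range _ _ _
  · rw [if_neg hk]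
    rcases i with _ | _ | _ | l
    · simp
    · simp only
      have h3 : 0 ≤ (1 / 2 : ℝ) ^ jj m * (1 - tt m) := mul_nonneg h1.1 (by linarith)
      have h4 : (1 / 2 : ℝ) ^ jj m * (1 - tt m) ≤ 1 := mul_le_one₀ h1.2 (by linarith) (by linarith)
      constructor <;> linarith
    · simp only
      constructor <;> linarith
    · simp

/-- The coordinates of the points. On a circle, for `k ∉ A` and `m < tau` (alive at stage `m`) it is
`spike_base` with `q = m`. -/
theorem beta_ppt (m i : ℕ) :
    D.beta (some (jj m)) (D.ppt m) i = ((D.ureal m i : ℝ) : UnitAddCircle) := by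
  obtain ⟨hz1, hz2⟩ := (D.exists_pz m).choose_spec
  have hpz : (D.exists_pz m).choose = D.pz m := rfl
  rw [hpz] at hz1 hz2
  unfold beta ppt ureal
  by_cases hk : kd m = 0
  · rw [if_pos hk, if_pos hk]
    rcases i with _ | _ | _ | l
    · simp only [betaFun]
      exact hz1
    · simp only [betaFun]
    · simp only [betaFun]
      exact B5_zero.symm
    · simp only [betaFun]
      by_cases hl : l < jj m
      · rw [if_pos hl, if_pos hl]
        exact B5_zero.symm
      · rw [if_neg hl, if_neg hl]
        unfold coord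
        by_cases hA : l - jj m ∈ D.A (jj m)
        · rw [if_pos hA, if_pos ((D.mem_A _ _).1 hA m)]
          exact hz2 _ hA
        · rw [if_neg hA, hz1]
          by_cases hal : D.al (jj m) (l - jj m) m
          · rw [if_pos hal]
            have hex : ∃ t, ¬ D.al (jj m) (l - jj m) t := by
              rw [D.mem_A] at hA
              push Not at hA
              exact hA
            rw [D.spike_base ((D.al_iff hex m).1 hal) hk rfl]
          · rw [if_neg hal]
  · rw [if_neg hk, if_neg hk]
    rcases i with _ | _ | _ | l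
    · simp only [betaFun]
      exact B5_zero.symm
    · simp only [betaFun]
    · simp only [betaFun]
    · simp only [betaFun]
      exact B5_zero.symm

/-- The dense sequence. -/
noncomputable def yy (m : ℕ) : D.QQ := D.FF (some (jj m)) (D.ppt m)

end AD

end Pool.Agent.Helper82.NL
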