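import Pool.Agent.Helper82.NL.B5

/-!
Density of the points (project NL, MP_3235d4_lc).
-/

namespace Pool.Agent.Helper82.NL

private theorem B6a_code (s : ℕ → ℕ) (K M : ℕ) : ∃ L, M ≤ L ∧ ∀ k < K, ent L k = s k := by
  choose L hL using fun v : ℕ => exists_code (fun k => if k < K then s k else v) (K + 1)
  by_contra hcon
  push Not at hcon
  have h1 : ∀ v k, k < K → ent (L v) k = s k := fun v k hk => by
    rw [(hL v).2 k (by omega), if_pos hk]
  have h2 : ∀ v, ent (L v) K = v := fun v => by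
    rw [(hL v).2 K (by omega), if_neg (lt_irrefl K)]
  have h3 : ∀ v, L v < M := by
    intro v
    by_contra hv
    obtain ⟨k, hk, hk'⟩ := hcon (L v) (by omega)
    exact hk' (h1 v k hk)
  refine not_injective_infinite_finite (fun v : ℕ => (⟨L v, h3 v⟩ : Fin M)) ?_
  intro v v' hv
  have h4 : L v = L v' := congrArg Fin.val hv
  rw [← h2 v, h4, h2 v']

/-- The code with given entries. -/
theorem exists_point (kind j u e : ℕ) (hk : kind < 2) (s : ℕ → ℕ) (K M : ℕ) :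
    ∃ m, M ≤ m ∧ kd m = kind ∧ jj m = j ∧ uu m = u ∧ ee m = e ∧ ∀ k < K, ent (ll m) k = s k := by
  obtain ⟨L, h1, h2⟩ := B6a_code s K M
  refine ⟨Nat.pair (2 * j + kind) (Nat.pair u (Nat.pair e L)), ?_, ?_, ?_, ?_, ?_, ?_⟩
  · exact h1.trans ((Nat.right_le_pair e L).trans ((Nat.right_le_pair u _).trans
      (Nat.right_le_pair _ _)))
  · unfold kd
    rw [Nat.unpair_pair]
    simp only
    omega
  · unfold jj
    rw [Nat.unpair_pair]
    simp only
    omega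
  · simp only [uu, Nat.unpair_pair]
  · simp only [ee, Nat.unpair_pair]
  · simp only [ll, Nat.unpair_pair]
    exact h2

namespace AD

variable (D : AD)

theorem dense_segment (j : ℕ) (t : ℝ) (ht : 0 ≤ t ∧ t ≤ 1) (ε : ℝ) (hε : 0 < ε) :
    ∃ m, kd m = 1 ∧ jj m = j ∧ |tt m - t| < ε := by
  obtain ⟨e, he⟩ := exists_pow_lt_of_lt_one hε (show (1 / 2 : ℝ) < 1 by norm_num)
  obtain ⟨m, -, h1, h2, h3, h4, -⟩ := exists_point 1 j ⌊t * 2 ^ e⌋₊ e (by norm_num)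
    (fun _ => 0) 0 0
  refine ⟨m, h1, h2, ?_⟩
  have hp : (0 : ℝ) < 2 ^ e := by positivity
  have ht0 : 0 ≤ t * 2 ^ e := mul_nonneg ht.1 hp.le
  have h5 : ⌊t * 2 ^ e⌋₊ < 2 ^ e + 1 := by
    rw [Nat.lt_succ_iff]
    apply Nat.floor_le_of_le
    push_cast
    nlinarith [ht.2]
  have h6 : tt m = (⌊t * 2 ^ e⌋₊ : ℝ) / 2 ^ e := by
    unfold tt
    rw [h3, h4, Nat.mod_eq_of_lt h5]
  have h7 := Nat.floor_le ht0
  have h8 := Nat.lt_floor_add_one (t * 2 ^ e)
  have h9 : |(⌊t * 2 ^ e⌋₊ : ℝ) - t * 2 ^ e| ≤ 1 := by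
    rw [abs_le]
    constructor <;> linarith
  have h10 : tt m - t = ((⌊t * 2 ^ e⌋₊ : ℝ) - t * 2 ^ e) * (1 / 2) ^ e := by
    rw [h6, one_div, inv_pow]
    field_simp
  rw [h10, abs_mul, abs_of_nonneg (show (0 : ℝ) ≤ (1 / 2) ^ e by positivity)]
  calc |(⌊t * 2 ^ e⌋₊ : ℝ) - t * 2 ^ e| * (1 / 2) ^ e ≤ 1 * (1 / 2) ^ e :=
        mul_le_mul_of_nonneg_right h9 (by positivity)
    _ < ε := by rw [one_mul]; exact he

end AD

end Pool.Agent.Helper82.NL
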