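import Pool.Agent.Helper82.NL.B6a

/-!
Density of the points (project NL, MP_3235d4_lc).
-/

namespace Pool.Agent.Helper82.NL

private theorem B6b_coe {x y : ℝ} {n : ℤ} (h : x = y + n) :
    (x : UnitAddCircle) = (y : UnitAddCircle) := by
  have h1 : ((n : ℝ) : UnitAddCircle) = 0 := by
    have h2 : ((n : ℝ) : UnitAddCircle) = n • ((1 : ℝ) : UnitAddCircle) := by
      rw [← AddCircle.coe_zsmul]
      simp
    rw [h2, AddCircle.coe_period, smul_zero]
  rw [h, AddCircle.coe_add, h1, add_zero]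

private theorem B6b_norm (x : ℝ) : ‖((x : ℝ) : UnitAddCircle)‖ ≤ |x| := by
  rw [UnitAddCircle.norm_eq]
  have := round_le x 0
  simpa using this

namespace AD

variable (D : AD)

/-- The parameters of the points on the circle `j` are dense. Let `b ∈ [0, 1)` represent `N • z`.
For a large `e` let `u = ⌊2 ^ e b⌋ < 2 ^ e`, so `base m` is as close to `b` as we want if `uu m = u`,
`ee m = e` and `m` is large. For `k ∈ D.A j` the class `(N / Fe) • z` is `(b + i k) / Fe` for a number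
`i k < Fe` because its multiple by `Fe` is `b`; take `ent (ll m) k = i k` for these finitely many
`k`. Then `z' = z + (base m - b) / N` satisfies the equations of `exists_pz`, so it is `D.pz m` by
`crt_unique`. -/
theorem dense_circle (j : ℕ) (z : UnitAddCircle) (ε : ℝ) (hε : 0 < ε) :
    ∃ m, kd m = 0 ∧ jj m = j ∧ dist (D.pz m) z < ε := by
  classical
  obtain ⟨r, rfl⟩ : ∃ r : ℝ, (r : UnitAddCircle) = z := QuotientAddGroup.mk_surjective z
  have hN0 : 0 < D.N j := Finset.prod_pos (fun k _ => Fe_pos _)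
  have hNr : (0 : ℝ) < D.N j := by exact_mod_cast hN0
  obtain ⟨n0, hn0⟩ : ∃ n0 : ℤ, n0 = ⌊(D.N j : ℝ) * r⌋ := ⟨_, rfl⟩
  obtain ⟨b, hb⟩ : ∃ b : ℝ, b = Int.fract ((D.N j : ℝ) * r) := ⟨_, rfl⟩
  have hb0 : 0 ≤ b := hb ▸ Int.fract_nonneg _
  have hb1 : b < 1 := hb ▸ Int.fract_lt_one _
  have hNb : (D.N j : ℝ) * r = b + n0 := by
    rw [hb, hn0]
    exact (Int.fract_add_floor _).symm
  obtain ⟨e, he⟩ : ∃ e : ℕ, (1 / 2 : ℝ) ^ e < ε / 2 :=
    exists_pow_lt_of_lt_one (by positivity) (by norm_num)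
  obtain ⟨u, hu⟩ : ∃ u : ℕ, u = ⌊(2 : ℝ) ^ e * b⌋₊ := ⟨_, rfl⟩
  have h2e : (0 : ℝ) < 2 ^ e := by positivity
  have hu1 : (u : ℝ) ≤ 2 ^ e * b := hu ▸ Nat.floor_le (by positivity)
  have hu2 : 2 ^ e * b < u + 1 := hu ▸ Nat.lt_floor_add_one _
  have hu3 : u < 2 ^ e := by
    have h1 : (u : ℝ) < ((2 ^ e : ℕ) : ℝ) := by
      push_cast
      nlinarith
    exact_mod_cast h1
  obtain ⟨m, hmM, hkd, hjj, huu, hee, hent⟩ := exists_point 0 j u e (by norm_num)
    (fun k => (n0 % (Fe (D.idx k) : ℤ)).toNat) ((D.A j).sup id + 1) e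
  have hbase : base m = (u : ℝ) / 2 ^ e + 1 / 2 ^ (m + 1) := by
    unfold base
    rw [huu, hee, Nat.mod_eq_of_lt hu3]
  have hd : |base m - b| < ε := by
    have h1 : (u : ℝ) / 2 ^ e ≤ b := by
      rw [div_le_iff₀ h2e]
      linarith
    have h2 : b < (u : ℝ) / 2 ^ e + (1 / 2) ^ e := by
      have h3 : b * 2 ^ e < (((u : ℝ) / 2 ^ e + (1 / 2) ^ e)) * 2 ^ e := by
        rw [add_mul, div_mul_cancel₀ _ h2e.ne', ← mul_pow]
        norm_num
        linarith
      exact lt_of_mul_lt_mul_right h3 h2e.le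
    have h4 : (1 : ℝ) / 2 ^ (m + 1) ≤ (1 / 2) ^ e := by
      rw [← one_div_pow]
      exact pow_le_pow_of_le_one (by norm_num) (by norm_num) (by omega)
    have h5 : (0 : ℝ) < 1 / 2 ^ (m + 1) := by positivity
    rw [abs_lt, hbase]
    constructor <;> linarith
  have key : D.pz m = ((r + (base m - b) / D.N j : ℝ) : UnitAddCircle) := by
    obtain ⟨hs1, hs2⟩ : D.N (jj m) • D.pz m = ((base m : ℝ) : UnitAddCircle) ∧
      ∀ k ∈ D.A (jj m), (D.N (jj m) / Fe (D.idx k)) • D.pz m =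
        ((D.root k m : ℝ) : UnitAddCircle) := (D.exists_pz m).choose_spec
    rw [hjj] at hs1 hs2
    refine crt_unique (s := D.A j) (fun k => Fe (D.idx k)) ?_ (fun k _ => Fe_pos _) ?_ ?_
    · intro k hk k' hk' hne
      exact Fe_coprime (fun h => hne (D.inj j k k' ((D.mem_A j k).1 hk) ((D.mem_A j k').1 hk') h))
    · change D.N j • D.pz m = D.N j • _
      rw [hs1, ← AddCircle.coe_nsmul]
      refine (B6b_coe (n := n0) ?_).symm
      rw [nsmul_eq_mul, mul_add, hNb, mul_div_cancel₀ _ hNr.ne']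
      ring
    · intro k hk
      change (D.N j / Fe (D.idx k)) • D.pz m = (D.N j / Fe (D.idx k)) • _
      rw [hs2 k hk, ← AddCircle.coe_nsmul]
      have hF0 : 0 < Fe (D.idx k) := Fe_pos _
      have hFr : (0 : ℝ) < Fe (D.idx k) := by exact_mod_cast hF0
      obtain ⟨N', hN'⟩ : Fe (D.idx k) ∣ D.N j := Finset.dvd_prod_of_mem _ hk
      have hN1 : D.N j / Fe (D.idx k) = N' := by
        rw [hN', Nat.mul_div_cancel_left _ hF0]
      have hN2 : (D.N j : ℝ) = Fe (D.idx k) * N' := by exact_mod_cast hN'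
      have hkK : k < (D.A j).sup id + 1 := Nat.lt_succ_of_le (Finset.le_sup (f := id) hk)
      have hroot : D.root k m =
          (base m + ((n0 % (Fe (D.idx k) : ℤ) : ℤ) : ℝ)) / (Fe (D.idx k) : ℝ) := by
        unfold AD.root
        rw [hent k hkK]
        have hi0 : 0 ≤ n0 % (Fe (D.idx k) : ℤ) := Int.emod_nonneg _ (by omega)
        have hi1 : n0 % (Fe (D.idx k) : ℤ) < Fe (D.idx k) := Int.emod_lt_of_pos _ (by omega)
        have h3 : (n0 % (Fe (D.idx k) : ℤ)).toNat % Fe (D.idx k) =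
            (n0 % (Fe (D.idx k) : ℤ)).toNat := Nat.mod_eq_of_lt (by omega)
        rw [h3]
        have h4 : (((n0 % (Fe (D.idx k) : ℤ)).toNat : ℕ) : ℝ) =
            ((n0 % (Fe (D.idx k) : ℤ) : ℤ) : ℝ) := by
          have h5 : (((n0 % (Fe (D.idx k) : ℤ)).toNat : ℕ) : ℤ) = n0 % (Fe (D.idx k) : ℤ) :=
            Int.toNat_of_nonneg hi0
          exact_mod_cast h5
        rw [h4]
      refine (B6b_coe (n := n0 / (Fe (D.idx k) : ℤ)) ?_).symm
      rw [hroot, hN1, nsmul_eq_mul]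
      have h6 : (n0 : ℝ) = ((n0 % (Fe (D.idx k) : ℤ) : ℤ) : ℝ) +
          (Fe (D.idx k) : ℝ) * ((n0 / (Fe (D.idx k) : ℤ) : ℤ) : ℝ) := by
        exact_mod_cast (Int.emod_add_mul_ediv n0 (Fe (D.idx k) : ℤ)).symm
      rw [hN2] at hNb ⊢
      have hN'0 : (N' : ℝ) ≠ 0 := by
        intro h0
        rw [hN2, h0, mul_zero] at hNr
        exact lt_irrefl _ hNr
      have h7 : (N' : ℝ) * r = (b + n0) / Fe (D.idx k) := by
        rw [← hNb]
        field_simp
      rw [mul_add, h7, h6]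
      field_simp
      ring
  refine ⟨m, hkd, hjj, ?_⟩
  rw [key, dist_eq_norm, ← AddCircle.coe_sub]
  refine lt_of_le_of_lt (B6b_norm _) ?_
  have h1 : r + (base m - b) / D.N j - r = (base m - b) / D.N j := by ring
  rw [h1, abs_div, abs_of_pos hNr, div_lt_iff₀ hNr]
  have h2 : (1 : ℝ) ≤ D.N j := by exact_mod_cast hN0
  nlinarith

end AD

end Pool.Agent.Helper82.NL
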