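import Pool.Agent.Helper82.NL.B6b

/-!
Density of the points (project NL, MP_3235d4_lc).
-/

namespace Pool.Agent.Helper82.NL

namespace AD

variable (D : AD)

private theorem B6c_nu_surj (N : ℕ) (hN : 0 < N) : Function.Surjective (nu N) := by
  intro κ
  rcases κ with z | t
  · induction z using QuotientAddGroup.induction_on with
    | H x =>
      refine ⟨Sum.inl (((x / N : ℝ) : UnitAddCircle)), ?_⟩
      have h1 : N • (((x / N : ℝ) : UnitAddCircle)) = ((x : ℝ) : UnitAddCircle) := by
        rw [← AddCircle.coe_nsmul]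
        congr 1
        rw [nsmul_eq_mul]
        have h2 : (N : ℝ) ≠ 0 := by positivity
        field_simp
      simp only [nu, Sum.map_inl]
      rw [h1]
  · exact ⟨Sum.inr t, rfl⟩

private theorem B6c_N_pos (j : ℕ) : 0 < D.N j :=
  Finset.prod_pos (fun k _ => Fe_pos (D.idx k))

private theorem B6c_some (j : ℕ) (κ : KK) : D.FF (some j) κ ∈ closure (Set.range D.yy) := by
  rw [Metric.mem_closure_iff]
  intro ε hε
  have hc := D.leafy_FF.cont (some j)
  rcases κ with z | t
  · have h1 : Continuous (fun z : UnitAddCircle => D.FF (some j) (Sum.inl z)) :=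
      hc.comp continuous_inl
    obtain ⟨δ, hδ, h2⟩ := Metric.continuous_iff.1 h1 z ε hε
    obtain ⟨m, hm0, hmj, hm⟩ := D.dense_circle j z δ hδ
    refine ⟨D.yy m, ⟨m, rfl⟩, ?_⟩
    have h3 : D.yy m = D.FF (some j) (Sum.inl (D.pz m)) := by
      rw [yy, ppt, if_pos hm0, hmj]
    rw [h3, dist_comm]
    exact h2 _ hm
  · have h1 : Continuous (fun t : unitInterval => D.FF (some j) (Sum.inr t)) :=
      hc.comp continuous_inr
    obtain ⟨δ, hδ, h2⟩ := Metric.continuous_iff.1 h1 t ε hε
    obtain ⟨m, hm0, hmj, hm⟩ := dense_segment j (t : ℝ) ⟨t.2.1, t.2.2⟩ δ hδ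
    refine ⟨D.yy m, ⟨m, rfl⟩, ?_⟩
    have h3 : D.yy m = D.FF (some j) (Sum.inr ⟨tt m, tt_mem m⟩) := by
      rw [yy, ppt, if_neg (by omega), hmj]
    rw [h3, dist_comm]
    apply h2
    rw [Subtype.dist_eq, Real.dist_eq]
    exact hm

/-- Every point of a leaf `some j` is a limit of points `yy m` (continuity of `D.FF (some j)`), and
every point of the limit leaf is a limit of points of the leaves `some j` by `conv`, because
`nu (D.N j)` is surjective. -/
theorem dense_yy : DenseRange D.yy := by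
  intro q
  obtain ⟨o, κ, hq⟩ := D.leafy_FF.surj q
  rw [← hq]
  cases o with
  | some j => exact D.B6c_some j κ
  | none =>
    rw [← closure_closure, Metric.mem_closure_iff]
    intro ε hε
    obtain ⟨J, hJ⟩ := D.leafy_FF.conv ε hε
    obtain ⟨κ', hκ'⟩ := B6c_nu_surj (D.N J) (D.B6c_N_pos J) κ
    refine ⟨D.FF (some J) κ', D.B6c_some J κ', ?_⟩
    have h1 := hJ J le_rfl κ'
    rw [hκ', dist_comm] at h1
    exact h1

end AD

end Pool.Agent.Helper82.NL
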