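import Pool.Agent.Helper82.NL.B5

/-!
The coordinates of the points are computable from the alive data (project NL, MP_3235d4_lc).
-/

namespace Pool.Agent.Helper82.NL

/-- The alive relation is decidable in `O`. -/
def AD.Eff (D : AD) (O : Set (ℕ →. ℕ)) : Prop :=
  (∃ r, TR O r ∧ ∀ j k t, r (Nat.pair j (Nat.pair k t)) = 0 ↔ D.al j k t) ∧ TR O D.idx

variable {O : Set (ℕ →. ℕ)}

theorem TR.Fe {f : ℕ → ℕ} (hf : TR O f) : TR O (fun n => NL.Fe (f n)) := by
  refine (TR.add (TR.pow (TR.const 2) (TR.pow (TR.const 2) hf)) (TR.const 1)).of_eq fun n => ?_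
  rfl

theorem TR.kd {f : ℕ → ℕ} (hf : TR O f) : TR O (fun n => NL.kd (f n)) :=
  (TR.mod (TR.left hf) (TR.const 2)).of_eq fun _ => rfl

theorem TR.jj {f : ℕ → ℕ} (hf : TR O f) : TR O (fun n => NL.jj (f n)) :=
  (TR.div (TR.left hf) (TR.const 2)).of_eq fun _ => rfl

private theorem B7a_uu {f : ℕ → ℕ} (hf : TR O f) : TR O (fun n => NL.uu (f n)) :=
  (TR.left (TR.right hf)).of_eq fun _ => rfl

private theorem B7a_ee {f : ℕ → ℕ} (hf : TR O f) : TR O (fun n => NL.ee (f n)) :=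
  (TR.left (TR.right (TR.right hf))).of_eq fun _ => rfl

private theorem B7a_ll {f : ℕ → ℕ} (hf : TR O f) : TR O (fun n => NL.ll (f n)) :=
  (TR.right (TR.right (TR.right hf))).of_eq fun _ => rfl

/-- the numerator of the base angle with the denominator `2 ^ ee m * 2 ^ (m + 1)` -/
private def B7a_num (m : ℕ) : ℕ := NL.uu m % 2 ^ NL.ee m * 2 ^ (m + 1) + 2 ^ NL.ee m

private def B7a_den (m : ℕ) : ℕ := 2 ^ NL.ee m * 2 ^ (m + 1)

private theorem B7a_den_pos (m : ℕ) : 0 < B7a_den m := by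
  unfold B7a_den
  positivity

private theorem B7a_base (m : ℕ) : NL.base m = (B7a_num m : ℝ) / (B7a_den m : ℝ) := by
  unfold NL.base B7a_num B7a_den
  push_cast
  have h1 : (2 : ℝ) ^ NL.ee m ≠ 0 := by positivity
  have h2 : (2 : ℝ) ^ (m + 1) ≠ 0 := by positivity
  field_simp

private theorem B7a_num_tr {f : ℕ → ℕ} (hf : TR O f) : TR O (fun n => B7a_num (f n)) :=
  (TR.add (TR.mul (TR.mod (B7a_uu hf) (TR.pow (TR.const 2) (B7a_ee hf)))
    (TR.pow (TR.const 2) (TR.add hf (TR.const 1)))) (TR.pow (TR.const 2) (B7a_ee hf))).of_eq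
    fun _ => rfl

private theorem B7a_den_tr {f : ℕ → ℕ} (hf : TR O f) : TR O (fun n => B7a_den (f n)) :=
  (TR.mul (TR.pow (TR.const 2) (B7a_ee hf))
    (TR.pow (TR.const 2) (TR.add hf (TR.const 1)))).of_eq fun _ => rfl

theorem CR.base {f : ℕ → ℕ} (hf : TR O f) : CR O (fun n => NL.base (f n)) :=
  (CR.rat (B7a_num_tr hf) (B7a_den_tr hf) fun n => B7a_den_pos (f n)).of_eq
    fun n => (B7a_base (f n)).symm

theorem CR.tt {f : ℕ → ℕ} (hf : TR O f) : CR O (fun n => NL.tt (f n)) := by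
  have h1 : TR O (fun n => NL.uu (f n) % (2 ^ NL.ee (f n) + 1)) :=
    TR.mod (B7a_uu hf) (TR.add (TR.pow (TR.const 2) (B7a_ee hf)) (TR.const 1))
  have h2 : TR O (fun n => 2 ^ NL.ee (f n)) := TR.pow (TR.const 2) (B7a_ee hf)
  refine (CR.rat h1 h2 fun n => by positivity).of_eq fun n => ?_
  unfold NL.tt
  push_cast
  rfl

/-- `root k m` is a quotient of natural numbers: the denominator is `2 ^ (m + 1) * Fe`. -/
theorem CR.root (D : AD) (hD : D.Eff O) {f h : ℕ → ℕ} (hf : TR O f) (hh : TR O h) :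
    CR O (fun n => D.root (f n) (h n)) := by
  have h1 : TR O (fun n => NL.Fe (D.idx (f n))) := TR.Fe (TR.comp hD.2 hf)
  have h2 : TR O (fun n => ent (ll (h n)) (f n) % NL.Fe (D.idx (f n))) :=
    TR.mod (TR.op ent_prim (B7a_ll hh) hf) h1
  have h3 := TR.add (B7a_num_tr hh) (TR.mul h2 (B7a_den_tr hh))
  have h4 := TR.mul (B7a_den_tr hh) h1
  have hF : ∀ x, 0 < NL.Fe x := fun x => Nat.succ_pos _
  refine (CR.rat h3 h4 fun n => Nat.mul_pos (B7a_den_pos _) (hF _)).of_eq fun n => ?_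
  unfold AD.root
  rw [B7a_base]
  push_cast
  have h5 : (B7a_den (h n) : ℝ) ≠ 0 := Nat.cast_ne_zero.2 (B7a_den_pos _).ne'
  have h6 : (NL.Fe (D.idx (f n)) : ℝ) ≠ 0 := Nat.cast_ne_zero.2 (hF _).ne'
  field_simp

namespace AD

variable (D : AD)

end AD

end Pool.Agent.Helper82.NL
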