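import Pool.Agent.Helper82.NL.B7a

/-!
The coordinates of the points are computable from the alive data (project NL, MP_3235d4_lc).
-/

namespace Pool.Agent.Helper82.NL

variable {O : Set (ℕ →. ℕ)}

namespace AD

variable (D : AD)

/-- For a coordinate which is dead at time `m` the time of death is the number of `t < m` at which
it is alive. -/
theorem tau_eq_sum {j k m : ℕ} (r : ℕ → ℕ)
    (hr : ∀ j k t, r (Nat.pair j (Nat.pair k t)) = 0 ↔ D.al j k t) (h : ¬ D.al j k m) :
    D.tau j k = ∑ t ∈ Finset.range m, (1 - r (Nat.pair j (Nat.pair k t))) := by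
  have hex : ∃ t, ¬ D.al j k t := ⟨m, h⟩
  have h1 : ∀ t, 1 - r (Nat.pair j (Nat.pair k t)) = if t < D.tau j k then 1 else 0 := by
    intro t
    by_cases h2 : t < D.tau j k
    · rw [if_pos h2, (hr j k t).2 ((D.al_iff hex t).2 h2)]
    · rw [if_neg h2]
      have h3 : r (Nat.pair j (Nat.pair k t)) ≠ 0 :=
        fun h4 => h2 ((D.al_iff hex t).1 ((hr j k t).1 h4))
      omega
  have h3 : D.tau j k ≤ m := by
    by_contra h4
    exact h ((D.al_iff hex m).2 (by omega))
  have h5 : (Finset.range m).filter (fun t => t < D.tau j k) = Finset.range (D.tau j k) := by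
    ext t
    simp only [Finset.mem_filter, Finset.mem_range]
    omega
  rw [Finset.sum_congr rfl (fun t _ => h1 t), Finset.sum_boole, h5, Finset.card_range]
  simp

/-- The function `n ↦ spike j k (base m)` for `n = (j, (k, m))`, as far as `k` is dead at time `m`
(elsewhere the value does not matter). -/
theorem spike_CR (hD : D.Eff O) : ∃ s : ℕ → ℝ, CR O s ∧ ∀ j k m, ¬ D.al j k m →
    s (Nat.pair j (Nat.pair k m)) = D.spike j k ((NL.base m : ℝ) : UnitAddCircle) := by
  obtain ⟨r, hr, hal⟩ := hD.1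
  have hone : CR O (fun _ => (1 : ℝ)) :=
    (CR.rat (TR.const 1) (TR.const 1) (fun _ => one_pos)).of_eq (fun n => by norm_num)
  have hzero : CR O (fun _ => (0 : ℝ)) :=
    (CR.rat (TR.const 0) (TR.const 1) (fun _ => one_pos)).of_eq (fun n => by norm_num)
  have hbase : ∀ n, 0 ≤ NL.base n ∧ NL.base n ≤ 1 :=
    fun n => ⟨(base_pos n).le, (base_lt_one n).le⟩
  -- the time of death
  have hT : TR O (fun n => ∑ t ∈ Finset.range n.unpair.2.unpair.2,
      (1 - r (Nat.pair (Nat.pair n t).unpair.1.unpair.1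
        (Nat.pair (Nat.pair n t).unpair.1.unpair.2.unpair.1 (Nat.pair n t).unpair.2)))) :=
    TR.sum (r := fun z => 1 - r (Nat.pair z.unpair.1.unpair.1
        (Nat.pair z.unpair.1.unpair.2.unpair.1 z.unpair.2))) (TR.right (TR.right TR.id))
      (TR.sub (TR.const 1) (hr.comp (TR.pair (TR.left (TR.left TR.id))
        (TR.pair (TR.left (TR.right (TR.left TR.id))) (TR.right TR.id)))))
  set T : ℕ → ℕ := fun n => ∑ t ∈ Finset.range n.unpair.2.unpair.2,
      (1 - r (Nat.pair (Nat.pair n t).unpair.1.unpair.1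
        (Nat.pair (Nat.pair n t).unpair.1.unpair.2.unpair.1 (Nat.pair n t).unpair.2))) with hTdef
  have hTtau : ∀ j k m, ¬ D.al j k m → T (Nat.pair j (Nat.pair k m)) = D.tau j k := by
    intro j k m h
    rw [D.tau_eq_sum r hal h]
    simp only [hTdef, Nat.unpair_pair]
  -- the terms, for `z = ((j, (k, m)), q)`
  have hq : TR O (fun z : ℕ => z.unpair.2) := TR.right TR.id
  have hj : TR O (fun z : ℕ => z.unpair.1.unpair.1) := TR.left (TR.left TR.id)
  have hk : TR O (fun z : ℕ => z.unpair.1.unpair.2.unpair.1) := TR.left (TR.right (TR.left TR.id))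
  have hm : TR O (fun z : ℕ => z.unpair.1.unpair.2.unpair.2) := TR.right (TR.right (TR.left TR.id))
  have hTz : TR O (fun z : ℕ => T z.unpair.1) := hT.comp (TR.left TR.id)
  have h1 : CR O (fun z : ℕ => ‖((NL.base z.unpair.1.unpair.2.unpair.2 : ℝ) : UnitAddCircle) -
      ((NL.base z.unpair.2 : ℝ) : UnitAddCircle)‖) :=
    CR.circle (CR.base hm) (CR.base hq) (fun n => hbase _) (fun n => hbase _)
  have h2 := CR.min hone (CR.scale h1 hTz)
  have h3 := CR.absDiff hone h2
  have h4 := CR.root D hD hk hq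
  have hmin : ∀ x : ℝ, 0 ≤ x → |1 - min 1 x| = 1 - min 1 x ∧ 0 ≤ 1 - min 1 x ∧
      1 - min 1 x ≤ 1 := by
    intro x hx
    have h5 : min 1 x ≤ 1 := min_le_left _ _
    have h6 : 0 ≤ min 1 x := le_min zero_le_one hx
    exact ⟨abs_of_nonneg (by linarith), by linarith, by linarith⟩
  have hpow : ∀ (a : ℕ) (x : UnitAddCircle), (0 : ℝ) ≤ 2 ^ a * ‖x‖ :=
    fun a x => mul_nonneg (by positivity) (norm_nonneg _)
  have h5 := CR.mul h4 h3 (fun n => ⟨D.root_nonneg _ _, (D.root_lt_one _ _).le⟩)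
    (fun n => by
      obtain ⟨e1, e2, e3⟩ := hmin _ (hpow (T n.unpair.1)
        (((NL.base n.unpair.1.unpair.2.unpair.2 : ℝ) : UnitAddCircle) -
          ((NL.base n.unpair.2 : ℝ) : UnitAddCircle)))
      rw [e1]
      exact ⟨e2, e3⟩)
  have hc : TR O (fun z : ℕ => NL.kd z.unpair.2 + ((NL.jj z.unpair.2 - z.unpair.1.unpair.1) +
      (z.unpair.1.unpair.1 - NL.jj z.unpair.2))) :=
    TR.add (TR.kd hq) (TR.add (TR.sub (TR.jj hq) hj) (TR.sub hj (TR.jj hq)))
  have h6 := CR.min hone (CR.sum (CR.ite hc h5 hzero) hT)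
  refine ⟨_, h6, ?_⟩
  intro j k m h
  have hTt := hTtau j k m h
  unfold AD.spike
  simp only [Nat.unpair_pair]
  rw [hTt]
  congr 1
  refine Finset.sum_congr rfl fun q _ => ?_
  by_cases hcond : kd q = 0 ∧ jj q = j
  · rw [if_pos hcond, if_pos (by rw [hcond.1, hcond.2]; simp)]
    rw [(hmin _ (hpow _ _)).1]
  · rw [if_neg hcond, if_neg]
    intro h7
    apply hcond
    omega

end AD

end Pool.Agent.Helper82.NL
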