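import Pool.Agent.Helper82.NL.B7

/-!
The coordinates of the points are computable from the alive data (project NL, MP_3235d4_lc).
-/

namespace Pool.Agent.Helper82.NL

variable {O : Set (ℕ →. ℕ)}

namespace AD

variable (D : AD)

theorem ureal_CR (hD : D.Eff O) : CR O (fun n => D.ureal n.unpair.1 n.unpair.2) := by
  classical
  obtain ⟨s, hs, hs'⟩ := D.spike_CR hD
  obtain ⟨r, hr, hr'⟩ := hD.1
  have hm : TR O (fun n : ℕ => n.unpair.1) := TR.left TR.id
  have hi : TR O (fun n : ℕ => n.unpair.2) := TR.right TR.id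
  have hj : TR O (fun n : ℕ => jj n.unpair.1) := TR.jj hm
  have hk : TR O (fun n : ℕ => n.unpair.2 - 3 - jj n.unpair.1) :=
    TR.sub (TR.sub hi (TR.const 3)) hj
  have hp : TR O (fun n : ℕ => Nat.pair (jj n.unpair.1)
      (Nat.pair (n.unpair.2 - 3 - jj n.unpair.1) n.unpair.1)) := TR.pair hj (TR.pair hk hm)
  have hz : CR O (fun _ : ℕ => (0 : ℝ)) :=
    (CR.rat (TR.const 0) (TR.const 1) (fun _ => Nat.one_pos)).of_eq (fun n => by simp)
  have hone : CR O (fun _ : ℕ => (1 : ℝ)) :=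
    (CR.rat (TR.const 1) (TR.const 1) (fun _ => Nat.one_pos)).of_eq (fun n => by simp)
  have hfour : CR O (fun _ : ℕ => (1 / 4 : ℝ)) :=
    (CR.rat (TR.const 1) (TR.const 4) (fun _ => by norm_num)).of_eq (fun n => by norm_num)
  have hq : CR O (fun n : ℕ => ((1 / 2 : ℝ) ^ jj n.unpair.1 / 4)) := by
    refine (CR.rat (TR.const 1) (TR.mul (TR.pow (TR.const 2) hj) (TR.const 4))
      (fun n => by positivity)).of_eq (fun n => ?_)
    rw [one_div, inv_pow]
    push_cast
    rw [div_eq_mul_inv, div_eq_mul_inv, mul_inv, one_mul]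
  have hq0 : ∀ n : ℕ, 0 ≤ ((1 / 2 : ℝ) ^ jj n.unpair.1 / 4) ∧
      ((1 / 2 : ℝ) ^ jj n.unpair.1 / 4) ≤ 1 := by
    intro n
    refine ⟨by positivity, ?_⟩
    have h1 : (1 / 2 : ℝ) ^ jj n.unpair.1 ≤ 1 := pow_le_one₀ (by norm_num) (by norm_num)
    linarith
  have ht : CR O (fun n : ℕ => tt n.unpair.1) := CR.tt hm
  have ht0 : ∀ n : ℕ, 0 ≤ tt n.unpair.1 ∧ tt n.unpair.1 ≤ 1 := fun n => tt_mem _
  have ht4 : CR O (fun n : ℕ => tt n.unpair.1 / 4) :=
    (CR.mul ht hfour ht0 (fun _ => by constructor <;> norm_num)).of_eq (fun n => by ring)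
  have hu : CR O (fun n : ℕ => |1 - tt n.unpair.1|) := CR.absDiff hone ht
  have hu' : ∀ n : ℕ, |1 - tt n.unpair.1| = 1 - tt n.unpair.1 := fun n =>
    abs_of_nonneg (sub_nonneg.2 (ht0 n).2)
  have hu0 : ∀ n : ℕ, 0 ≤ |1 - tt n.unpair.1| ∧ |1 - tt n.unpair.1| ≤ 1 := by
    intro n
    refine ⟨abs_nonneg _, ?_⟩
    rw [hu' n]
    linarith [(ht0 n).1]
  have hv : CR O (fun n : ℕ => (1 / 2 : ℝ) ^ jj n.unpair.1 * (1 - tt n.unpair.1) / 4) := by
    refine (CR.mul hu hq hu0 hq0).of_eq (fun n => ?_)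
    rw [hu' n]
    ring
  have hroot : CR O (fun n : ℕ => D.root (n.unpair.2 - 3 - jj n.unpair.1) n.unpair.1) :=
    CR.root D hD hk hm
  have hA : CR O (fun n : ℕ => if n.unpair.2 - 3 + 1 - jj n.unpair.1 = 0 then (0 : ℝ) else
      (if r (Nat.pair (jj n.unpair.1) (Nat.pair (n.unpair.2 - 3 - jj n.unpair.1) n.unpair.1)) = 0
        then D.root (n.unpair.2 - 3 - jj n.unpair.1) n.unpair.1
        else s (Nat.pair (jj n.unpair.1)
          (Nat.pair (n.unpair.2 - 3 - jj n.unpair.1) n.unpair.1)))) :=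
    CR.ite (TR.sub (TR.add (TR.sub hi (TR.const 3)) (TR.const 1)) hj) hz
      (CR.ite (hr.comp hp) hroot (hs.comp hp))
  have hC := CR.ite (TR.kd hm)
    (CR.ite hi (CR.base hm) (CR.ite (TR.sub hi (TR.const 1)) hq
      (CR.ite (TR.sub hi (TR.const 2)) hz hA)))
    (CR.ite hi hz (CR.ite (TR.sub hi (TR.const 1)) hv
      (CR.ite (TR.sub hi (TR.const 2)) ht4 hz)))
  refine hC.of_eq fun n => ?_
  generalize n.unpair.1 = m
  generalize n.unpair.2 = i
  unfold ureal
  by_cases h0 : kd m = 0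
  · rw [if_pos h0, if_pos h0]
    match i with
    | 0 => simp
    | 1 => simp
    | 2 => simp
    | l + 3 =>
      have e1 : ¬ (l + 3 = 0) := by omega
      have e2 : ¬ (l + 3 - 1 = 0) := by omega
      have e3 : ¬ (l + 3 - 2 = 0) := by omega
      have e4 : l + 3 - 3 = l := by omega
      rw [if_neg e1, if_neg e2, if_neg e3, e4]
      show _ = (if l < jj m then (0 : ℝ) else _)
      by_cases h1 : l < jj m
      · have h2 : l + 1 - jj m = 0 := by omega
        rw [if_pos h1, if_pos h2]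
      · have h2 : ¬ (l + 1 - jj m = 0) := by omega
        rw [if_neg h1, if_neg h2]
        by_cases h3 : D.al (jj m) (l - jj m) m
        · rw [if_pos h3, if_pos ((hr' _ _ _).2 h3)]
        · rw [if_neg h3, if_neg (fun h4 => h3 ((hr' _ _ _).1 h4)), hs' _ _ _ h3]
  · rw [if_neg h0, if_neg h0]
    match i with
    | 0 => simp
    | 1 => simp
    | 2 => simp
    | l + 3 =>
      have e1 : ¬ (l + 3 = 0) := by omega
      have e2 : ¬ (l + 3 - 1 = 0) := by omega
      have e3 : ¬ (l + 3 - 2 = 0) := by omega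
      rw [if_neg e1, if_neg e2, if_neg e3]
      rfl

end AD

end Pool.Agent.Helper82.NL
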