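import Pool.Agent.Helper82.NL.B8a

/-!
The coordinates of the points are computable from the alive data (project NL, MP_3235d4_lc).
-/

namespace Pool.Agent.Helper82.NL

variable {O : Set (ℕ →. ℕ)}

/-- The tail of a series which is dominated by the geometric series. -/
private theorem B8b_tail (a : ℕ → ℝ) (h0 : ∀ i, 0 ≤ a i) (h1 : ∀ i, a i ≤ 2⁻¹ ^ i) (k : ℕ) :
    |∑ i ∈ Finset.range (k + 1), a i - ∑' i, a i| ≤ 1 / 2 ^ k := by
  have hg : Summable (fun i : ℕ => (2⁻¹ : ℝ) ^ i) :=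
    summable_geometric_of_lt_one (by norm_num) (by norm_num)
  have hs : Summable a := Summable.of_nonneg_of_le h0 h1 hg
  have h2 := hs.sum_add_tsum_nat_add (k + 1)
  have hst : Summable (fun i : ℕ => a (i + (k + 1))) := (summable_nat_add_iff (k + 1)).2 hs
  have hgt : Summable (fun i : ℕ => (2⁻¹ : ℝ) ^ (i + (k + 1))) :=
    (summable_nat_add_iff (k + 1)).2 hg
  have h3 : 0 ≤ ∑' i, a (i + (k + 1)) := tsum_nonneg fun i => h0 _
  have h4 : ∑' i, a (i + (k + 1)) ≤ ∑' i : ℕ, (2⁻¹ : ℝ) ^ (i + (k + 1)) :=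
    hst.tsum_le_tsum (fun i => h1 _) hgt
  have h5 : ∑' i : ℕ, (2⁻¹ : ℝ) ^ (i + (k + 1)) = 1 / 2 ^ k := by
    simp_rw [pow_add]
    rw [tsum_mul_right, tsum_geometric_of_lt_one (by norm_num) (by norm_num), pow_succ]
    rw [inv_pow]
    have : (2 : ℝ) ^ k ≠ 0 := by positivity
    field_simp
    norm_num
  rw [abs_le]
  constructor
  · linarith
  · have : (0 : ℝ) ≤ 1 / 2 ^ k := by positivity
    linarith

namespace AD

variable (D : AD)

/-- `∑' i, min (2⁻¹ ^ i) ‖u i - u' i‖`: `CR.lim` of the sums over `i < k + 1`, `CR.sum`, `CR.min`,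
`CR.circle`. -/
theorem dist_CR (hD : D.Eff O) : CR O (fun n => dist (D.yy n.unpair.1) (D.yy n.unpair.2)) := by
  have hU := D.ureal_CR hD
  have hu1 : CR O (fun w : ℕ => D.ureal w.unpair.1.unpair.1 w.unpair.2) :=
    (hU.comp (f := fun w : ℕ => Nat.pair w.unpair.1.unpair.1 w.unpair.2)
      (TR.pair (TR.left (TR.left TR.id)) (TR.right TR.id))).of_eq
      (fun w => by simp only [Nat.unpair_pair])
  have hu2 : CR O (fun w : ℕ => D.ureal w.unpair.1.unpair.2 w.unpair.2) :=
    (hU.comp (f := fun w : ℕ => Nat.pair w.unpair.1.unpair.2 w.unpair.2)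
      (TR.pair (TR.right (TR.left TR.id)) (TR.right TR.id))).of_eq
      (fun w => by simp only [Nat.unpair_pair])
  have hc := CR.circle hu1 hu2 (fun w => D.ureal_mem _ _) (fun w => D.ureal_mem _ _)
  have hp : CR O (fun w : ℕ => (2⁻¹ : ℝ) ^ w.unpair.2) :=
    (CR.rat (a := fun _ => 1) (b := fun w => 2 ^ w.unpair.2) (TR.const 1)
      (TR.pow (TR.const 2) (TR.right TR.id)) (fun w => by positivity)).of_eq
      (fun w => by push_cast; rw [inv_pow, one_div])
  have ht := CR.min hp hc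
  have ht' := ht.comp (f := fun w : ℕ => Nat.pair w.unpair.1.unpair.1 w.unpair.2)
    (TR.pair (TR.left (TR.left TR.id)) (TR.right TR.id))
  have hs := CR.sum ht' (K := fun z => z.unpair.2 + 1) (TR.add (TR.right TR.id) (TR.const 1))
  refine CR.lim hs ?_
  intro n k
  simp only [Nat.unpair_pair]
  have hd : dist (D.yy n.unpair.1) (D.yy n.unpair.2) = ∑' i : ℕ, min ((2⁻¹ : ℝ) ^ i)
      ‖((D.ureal n.unpair.1 i : ℝ) : UnitAddCircle) -
        ((D.ureal n.unpair.2 i : ℝ) : UnitAddCircle)‖ := by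
    change dist (D.beta (some (jj n.unpair.1)) (D.ppt n.unpair.1))
      (D.beta (some (jj n.unpair.2)) (D.ppt n.unpair.2)) = _
    rw [EE.dist_eq]
    refine tsum_congr fun i => ?_
    rw [D.beta_ppt, D.beta_ppt, dist_eq_norm]
  rw [hd]
  exact B8b_tail _ (fun i => le_min (by positivity) (norm_nonneg _)) (fun i => min_le_left _ _) k

end AD

end Pool.Agent.Helper82.NL
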