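import Pool.Agent.Helper82.NL.Top2

/-!
The model in `ℂ × ℂ` (project NL, MP_3235d4_lc).
-/

namespace Pool.Agent.Helper82.NL

theorem Top3_nl (N : ℕ → ℕ) (z : UnitAddCircle) :
    Xmap N none (Sum.inl z) = ((z.toCircle : ℂ), 0) := rfl

theorem Top3_nr (N : ℕ → ℕ) (t : unitInterval) :
    Xmap N none (Sum.inr t) = (1 + ((t : ℝ) : ℂ), 0) := rfl

theorem Top3_sl (N : ℕ → ℕ) (j : ℕ) (z : UnitAddCircle) :
    Xmap N (some j) (Sum.inl z) = (((N j • z).toCircle : ℂ), (1 / 2) ^ j * (z.toCircle : ℂ)) := rfl

theorem Top3_sr (N : ℕ → ℕ) (j : ℕ) (t : unitInterval) :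
    Xmap N (some j) (Sum.inr t) = (1 + ((t : ℝ) : ℂ), (1 / 2) ^ j * (1 - ((t : ℝ) : ℂ))) := rfl

theorem Xmap_cont (N : ℕ → ℕ) (o : Option ℕ) : Continuous (Xmap N o) := by
  have hc : Continuous (fun z : UnitAddCircle => ((z.toCircle : Circle) : ℂ)) :=
    continuous_subtype_val.comp AddCircle.continuous_toCircle
  have ht : Continuous (fun t : unitInterval => (((t : ℝ) : ℂ))) :=
    Complex.continuous_ofReal.comp continuous_subtype_val
  rw [continuous_sum_dom]
  cases o with
  | none =>
    exact ⟨hc.prodMk continuous_const, (continuous_const.add ht).prodMk continuous_const⟩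
  | some j =>
    refine ⟨Continuous.prodMk ?_ ?_, Continuous.prodMk ?_ ?_⟩
    · exact hc.comp (continuous_nsmul (N j))
    · exact continuous_const.mul hc
    · exact continuous_const.add ht
    · exact continuous_const.mul (continuous_const.sub ht)

/-- the height of a point -/
noncomputable def Top3_t : KK → ℝ := Sum.elim (fun _ => 0) (fun t => (t : ℝ))

/-- the size of a leaf -/
noncomputable def Top3_w : Option ℕ → ℝ := fun o => o.elim 0 (fun j => (1 / 2) ^ j)

theorem Top3_t_nonneg (κ : KK) : 0 ≤ Top3_t κ := by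
  cases κ with
  | inl z => exact le_rfl
  | inr t => exact t.2.1

theorem Top3_t_le (κ : KK) : Top3_t κ ≤ 1 := by
  cases κ with
  | inl z => exact zero_le_one
  | inr t => exact t.2.2

theorem Top3_nc (z : UnitAddCircle) : ‖((z.toCircle : Circle) : ℂ)‖ = 1 := Circle.norm_coe _

theorem Top3_norm1 (N : ℕ → ℕ) (o : Option ℕ) (κ : KK) : ‖(Xmap N o κ).1‖ = 1 + Top3_t κ := by
  have h1 : ∀ t : unitInterval, ‖1 + ((t : ℝ) : ℂ)‖ = 1 + (t : ℝ) := by
    intro t
    have h2 : (1 : ℂ) + ((t : ℝ) : ℂ) = ((1 + (t : ℝ) : ℝ) : ℂ) := by push_cast; rfl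
    have h3 := t.2.1
    rw [h2, Complex.norm_real, Real.norm_of_nonneg (by linarith)]
  cases o with
  | none =>
    cases κ with
    | inl z =>
      rw [Top3_nl]
      exact (Top3_nc z).trans (by simp [Top3_t])
    | inr t =>
      rw [Top3_nr]
      exact h1 t
  | some j =>
    cases κ with
    | inl z =>
      rw [Top3_sl]
      exact (Top3_nc _).trans (by simp [Top3_t])
    | inr t =>
      rw [Top3_sr]
      exact h1 t

theorem Top3_norm2 (N : ℕ → ℕ) (o : Option ℕ) (κ : KK) :
    ‖(Xmap N o κ).2‖ = Top3_w o * (1 - Top3_t κ) := by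
  cases o with
  | none =>
    cases κ with
    | inl z =>
      rw [Top3_nl]
      simp [Top3_w]
    | inr t =>
      rw [Top3_nr]
      simp [Top3_w]
  | some j =>
    cases κ with
    | inl z =>
      rw [Top3_sl]
      simp only
      rw [norm_mul, Top3_nc, norm_pow]
      simp [Top3_w, Top3_t]
    | inr t =>
      rw [Top3_sr]
      have h2 : (1 : ℂ) - ((t : ℝ) : ℂ) = ((1 - (t : ℝ) : ℝ) : ℂ) := by push_cast; rfl
      have h3 := t.2.2
      simp only
      rw [norm_mul, h2, Complex.norm_real, Real.norm_of_nonneg (by linarith), norm_pow]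
      simp [Top3_w, Top3_t]

theorem Top3_w_inj {o o' : Option ℕ} (h : Top3_w o = Top3_w o') : o = o' := by
  have hpos : ∀ j : ℕ, (0 : ℝ) < (1 / 2) ^ j := fun j => by positivity
  cases o with
  | none =>
    cases o' with
    | none => rfl
    | some j => exact absurd h (hpos j).ne
  | some i =>
    cases o' with
    | none => exact absurd h (hpos i).ne'
    | some j =>
      have h1 : i = j := (pow_right_injective₀ (by norm_num : (0 : ℝ) < 1 / 2)
        (by norm_num : (1 / 2 : ℝ) ≠ 1)) h
      rw [h1]

theorem Top3_circle {z z' : UnitAddCircle} (h : ((z.toCircle : Circle) : ℂ) = z'.toCircle) :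
    z = z' :=
  AddCircle.injective_toCircle one_ne_zero (Subtype.ext h)

theorem Top3_circle_one {z : UnitAddCircle} (h : ((z.toCircle : Circle) : ℂ) = 1) : z = 0 := by
  apply Top3_circle
  rw [h, AddCircle.toCircle_zero, Circle.coe_one]

/-- The norms of the two coordinates are `1`, `(1/2)^j` (or `0`) on circles and `1 + t`,
`(1/2)^j (1 - t)` (or `0`) on segments; `toCircle` is injective and `z.toCircle = 1` only for
`z = 0`. -/
theorem Xmap_fib (N : ℕ → ℕ) (o : Option ℕ) (κ : KK) (o' : Option ℕ) (κ' : KK) :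
    Xmap N o κ = Xmap N o' κ' ↔ Rel o κ o' κ' := by
  have hpos : ∀ j : ℕ, ((1 / 2 : ℂ)) ^ j ≠ 0 := fun j => pow_ne_zero _ (by norm_num)
  constructor
  · intro h
    have h1 : Top3_t κ = Top3_t κ' := by
      have h2 := Top3_norm1 N o κ
      rw [h, Top3_norm1 N o' κ'] at h2
      linarith
    have h2 : Top3_w o * (1 - Top3_t κ) = Top3_w o' * (1 - Top3_t κ) := by
      have h3 := Top3_norm2 N o κ
      rw [h, Top3_norm2 N o' κ', ← h1] at h3
      exact h3.symm
    by_cases ht : Top3_t κ = 1
    · left
      have h3 : ∀ κ : KK, Top3_t κ = 1 → κ = Sum.inr 1 := by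
        intro κ hκ
        cases κ with
        | inl z => exact absurd hκ zero_ne_one
        | inr t => exact congrArg Sum.inr (Subtype.ext hκ)
      exact ⟨h3 κ ht, h3 κ' (h1 ▸ ht)⟩
    · right
      have h3 : o = o' := Top3_w_inj (mul_right_cancel₀ (sub_ne_zero.2 (Ne.symm ht)) h2)
      subst h3
      refine ⟨rfl, ?_⟩
      cases κ with
      | inl z =>
        cases κ' with
        | inl z' =>
          left
          congr 1
          cases o with
          | none =>
            rw [Top3_nl, Top3_nl] at h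
            exact Top3_circle (Prod.ext_iff.1 h).1
          | some j =>
            rw [Top3_sl, Top3_sl] at h
            exact Top3_circle (mul_left_cancel₀ (hpos j) (Prod.ext_iff.1 h).2)
        | inr t' =>
          right
          left
          have h4 : t' = 0 := Subtype.ext h1.symm
          subst h4
          refine ⟨congrArg Sum.inl ?_, rfl⟩
          cases o with
          | none =>
            rw [Top3_nl, Top3_nr] at h
            exact Top3_circle_one ((Prod.ext_iff.1 h).1.trans (by simp))
          | some j =>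
            rw [Top3_sl, Top3_sr] at h
            apply Top3_circle_one
            rw [mul_left_cancel₀ (hpos j) (Prod.ext_iff.1 h).2]
            simp
      | inr t =>
        cases κ' with
        | inl z' =>
          right
          right
          have h4 : t = 0 := Subtype.ext h1
          subst h4
          refine ⟨rfl, congrArg Sum.inl ?_⟩
          cases o with
          | none =>
            rw [Top3_nl, Top3_nr] at h
            exact Top3_circle_one ((Prod.ext_iff.1 h).1.symm.trans (by simp))
          | some j =>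
            rw [Top3_sl, Top3_sr] at h
            apply Top3_circle_one
            rw [← mul_left_cancel₀ (hpos j) (Prod.ext_iff.1 h).2]
            simp
        | inr t' =>
          left
          exact congrArg Sum.inr (Subtype.ext h1)
  · have h0 : ∀ o : Option ℕ, Xmap N o (Sum.inl 0) = Xmap N o (Sum.inr 0) := by
      intro o
      cases o with
      | none =>
        rw [Top3_nl, Top3_nr]
        simp [AddCircle.toCircle_zero]
      | some j =>
        rw [Top3_sl, Top3_sr]
        simp [AddCircle.toCircle_zero]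
    have h1 : ∀ o : Option ℕ, Xmap N o (Sum.inr 1) = (2, 0) := by
      intro o
      cases o with
      | none =>
        rw [Top3_nr]
        norm_num
      | some j =>
        rw [Top3_sr]
        norm_num
    rintro (⟨rfl, rfl⟩ | ⟨rfl, rfl | ⟨rfl, rfl⟩ | ⟨rfl, rfl⟩⟩)
    · rw [h1, h1]
    · rfl
    · exact h0 o
    · exact (h0 o).symm

theorem Xmap_conv (N : ℕ → ℕ) :
    ∀ ε > 0, ∃ J, ∀ j ≥ J, ∀ κ, dist (Xmap N (some j) κ) (Xmap N none (nu (N j) κ)) < ε := by
  intro ε hε
  obtain ⟨J, hJ⟩ := exists_pow_lt_of_lt_one hε (by norm_num : (1 / 2 : ℝ) < 1)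
  refine ⟨J, fun j hj κ => ?_⟩
  have h1 : (Xmap N (some j) κ).1 = (Xmap N none (nu (N j) κ)).1 := by
    cases κ with
    | inl z => rfl
    | inr t => rfl
  have h2 : (Xmap N none (nu (N j) κ)).2 = 0 := by
    cases κ with
    | inl z => rfl
    | inr t => rfl
  rw [Prod.dist_eq, h1, dist_self, h2, dist_zero_right, Top3_norm2]
  have h3 : Top3_w (some j) * (1 - Top3_t κ) < ε := by
    have h4 := Top3_t_nonneg κ
    have h5 := Top3_t_le κ
    have h6 : Top3_w (some j) ≤ (1 / 2) ^ J :=
      pow_le_pow_of_le_one (by norm_num) (by norm_num) hj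
    have h7 : 0 ≤ Top3_w (some j) := by
      change (0 : ℝ) ≤ (1 / 2) ^ j
      positivity
    nlinarith
  exact max_lt hε h3

theorem XX_leafy (N : ℕ → ℕ) :
    Leafy N (fun o κ => (⟨Xmap N o κ, o, κ, rfl⟩ : {p : ℂ × ℂ // ∃ o κ, Xmap N o κ = p})) :=
  leafy_range (Xmap N) (Xmap_cont N) (Xmap_fib N) (Xmap_conv N)

theorem XX_compact (N : ℕ → ℕ) : IsCompact (XX N) :=
  isCompact_leaves (Xmap N) (Xmap_cont N) (fun j => nu (N j)) (Xmap_conv N)

end Pool.Agent.Helper82.NL
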