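import Pool.Agent.Helper82.NL.B6
import Pool.Agent.Helper82.NL.B8
import Pool.Agent.Helper82.NL.Top3

/-!
The presentation of the space of the alive data (project NL, MP_3235d4_lc).
-/

namespace Pool.Agent.Helper82.NL

namespace AD

variable (D : AD)

/-- If the winding numbers of `N` are those of `D` up to a permutation then the space `XX N` has a
`g`-computable presentation. -/
theorem presented (g : ℕ → ℕ) (hD : D.Eff {fun n => Part.some (g n)}) (N : ℕ → ℕ) (π : ℕ ≃ ℕ)
    (hπ : ∀ j, N (π j) = D.N j) : Presented g (XX N) := by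
  have h1 : Leafy N (fun o κ => D.FF (o.map π.symm) κ) := D.leafy_FF.perm π hπ
  have hcpt : CompactSpace D.QQ := D.leafy_FF.compactSpace
  obtain ⟨e⟩ := (XX_leafy N).homeo h1
  obtain ⟨f, hf, hf'⟩ := D.dist_CR hD
  refine ⟨D.QQ, inferInstance, inferInstance, ⟨e⟩, D.yy, D.dense_yy,
    fun z => f (Nat.pair (Nat.pair z.unpair.1 z.unpair.2.unpair.1) z.unpair.2.unpair.2),
    tr_iff_turing.1 ?_, fun i j k => ?_⟩
  · exact hf.comp (TR.pair (TR.pair (TR.left TR.id) (TR.left (TR.right TR.id)))
      (TR.right (TR.right TR.id)))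
  · have := hf' (Nat.pair i j) k
    simpa using this

end AD

end Pool.Agent.Helper82.NL
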