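import Pool.Agent.Helper82.NL.Top2
import Pool.Agent.Helper82.NL.Real1
import Pool.Agent.Helper82.NL.SG1

/-!
The presentation built from alive data: definitions (project NL, MP_3235d4_lc).
-/

namespace Pool.Agent.Helper82.NL

/-- The ambient space of the presentation. -/
def EE : Type := ℕ → UnitAddCircle

/-- The metric is `∑' i, min (2⁻¹ ^ i) (dist (x i) (y i))`, the topology the product topology. -/
noncomputable instance : MetricSpace EE :=
  PiCountable.metricSpace (ι := ℕ) (F := fun _ => UnitAddCircle)

theorem EE.dist_eq (x y : EE) : dist x y = ∑' i : ℕ, min (2⁻¹ ^ i) (dist (x i) (y i)) := rfl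

theorem EE.continuous_iff {X : Type} [TopologicalSpace X] (f : X → EE) :
    Continuous f ↔ ∀ i, Continuous (fun x => f x i) :=
  continuous_pi_iff (A := fun _ : ℕ => UnitAddCircle)

/-- Alive data: the root coordinate `k` of the component `j` is alive at time `t`; if it is alive
for ever then it is an `Fe (idx k)`-th root of the base coordinate. -/
structure AD where
  al : ℕ → ℕ → ℕ → Prop
  anti : ∀ j k t, al j k (t + 1) → al j k t
  idx : ℕ → ℕ
  fin : ∀ j, {k | ∀ t, al j k t}.Finite
  inj : ∀ j k k', (∀ t, al j k t) → (∀ t, al j k' t) → idx k = idx k' → k = k'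

/-- The kind of the point `m`: `0` on a circle, `1` on a segment. -/
def kd (m : ℕ) : ℕ := m.unpair.1 % 2

/-- The component of the point `m`. -/
def jj (m : ℕ) : ℕ := m.unpair.1 / 2

def uu (m : ℕ) : ℕ := m.unpair.2.unpair.1

def ee (m : ℕ) : ℕ := m.unpair.2.unpair.2.unpair.1

def ll (m : ℕ) : ℕ := m.unpair.2.unpair.2.unpair.2

/-- The base angle of the point `m`, an odd multiple of `1 / 2 ^ (m + 1)`. -/
noncomputable def base (m : ℕ) : ℝ := ((uu m % 2 ^ ee m : ℕ) : ℝ) / 2 ^ ee m + 1 / 2 ^ (m + 1)

/-- The parameter of the point `m` if it lies on a segment. -/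
noncomputable def tt (m : ℕ) : ℝ := ((uu m % (2 ^ ee m + 1) : ℕ) : ℝ) / 2 ^ ee m

namespace AD

variable (D : AD)

/-- The coordinates of component `j` which are alive for ever. -/
noncomputable def A (j : ℕ) : Finset ℕ := (D.fin j).toFinset

/-- The winding number of component `j`. -/
noncomputable def N (j : ℕ) : ℕ := ∏ k ∈ D.A j, Fe (D.idx k)

open Classical in
/-- The time of death (`0` for coordinates which are alive for ever). -/
noncomputable def tau (j k : ℕ) : ℕ := if h : ∃ t, ¬ D.al j k t then Nat.find h else 0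

/-- The root which the point `m` chooses for the coordinate `k`. -/
noncomputable def root (k m : ℕ) : ℝ :=
  (base m + ((ent (ll m) k % Fe (D.idx k) : ℕ) : ℝ)) / (Fe (D.idx k) : ℝ)

/-- The function of the base angle which interpolates the roots chosen before the death of the
coordinate `k`. -/
noncomputable def spike (j k : ℕ) (b : UnitAddCircle) : ℝ :=
  min 1 (∑ q ∈ Finset.range (D.tau j k), if kd q = 0 ∧ jj q = j then
    D.root k q * (1 - min 1 (2 ^ D.tau j k * ‖b - ((base q : ℝ) : UnitAddCircle)‖)) else 0)

open Classical in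
/-- The root coordinate `k` on the circle `j`. -/
noncomputable def coord (j k : ℕ) (z : UnitAddCircle) : UnitAddCircle :=
  if k ∈ D.A j then (D.N j / Fe (D.idx k)) • z else ((D.spike j k (D.N j • z) : ℝ) : UnitAddCircle)

/-- The coordinates of the points of the leaves. -/
noncomputable def betaFun (o : Option ℕ) (κ : KK) (i : ℕ) : UnitAddCircle :=
  match o, κ, i with
  | none, Sum.inl z, 0 => z
  | none, Sum.inl _, _ + 1 => 0
  | none, Sum.inr t, 2 => (((t : ℝ) / 4 : ℝ) : UnitAddCircle)
  | none, Sum.inr _, _ => 0
  | some j, Sum.inl z, 0 => D.N j • z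
  | some j, Sum.inl _, 1 => (((1 / 2) ^ j / 4 : ℝ) : UnitAddCircle)
  | some _, Sum.inl _, 2 => 0
  | some j, Sum.inl z, l + 3 => if l < j then 0 else D.coord j (l - j) z
  | some j, Sum.inr t, 1 => (((1 / 2) ^ j * (1 - (t : ℝ)) / 4 : ℝ) : UnitAddCircle)
  | some _, Sum.inr t, 2 => (((t : ℝ) / 4 : ℝ) : UnitAddCircle)
  | some _, Sum.inr _, _ => 0

/-- The parametrization of the presented space. -/
noncomputable def beta (o : Option ℕ) (κ : KK) : EE := fun i => D.betaFun o κ i

open Classical in
/-- The real representatives in `[0, 1]` of the coordinates of the point `m`. -/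
noncomputable def ureal (m i : ℕ) : ℝ :=
  if kd m = 0 then
    match i with
    | 0 => base m
    | 1 => (1 / 2) ^ jj m / 4
    | 2 => 0
    | l + 3 => if l < jj m then 0 else
        if D.al (jj m) (l - jj m) m then D.root (l - jj m) m
        else D.spike (jj m) (l - jj m) ((base m : ℝ) : UnitAddCircle)
  else
    match i with
    | 1 => (1 / 2) ^ jj m * (1 - tt m) / 4
    | 2 => tt m / 4
    | _ => 0

end AD

end Pool.Agent.Helper82.NL
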