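import Mathlib

/-!
Project NL (MP_3235d4_lc): a compact path connected subset of `ℂ × ℂ` which has a `g`-computable
Polish presentation exactly when `g` is not low. Common definitions.
-/

namespace Pool.Agent.Helper82.NL

/-- The total function `f` is recursive in the oracles `O`. -/
def TR (O : Set (ℕ →. ℕ)) (f : ℕ → ℕ) : Prop := Nat.RecursiveIn O (fun n => Part.some (f n))

/-- `g` is low: every set which is `Σ₁` in `g` is `Δ₂`. -/
def Low (g : ℕ → ℕ) : Prop :=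
  ∀ R : ℕ → ℕ, TuringReducible (fun m => Part.some (R m)) (fun m => Part.some (g m)) →
    ∃ S T : ℕ → ℕ, Computable S ∧ Computable T ∧ ∀ n : ℕ,
      ((∃ a : ℕ, R (Nat.pair n a) = 0) ↔ ∃ a : ℕ, ∀ b : ℕ, S (Nat.pair n (Nat.pair a b)) = 0) ∧
      ((¬ ∃ a : ℕ, R (Nat.pair n a) = 0) ↔ ∃ a : ℕ, ∀ b : ℕ, T (Nat.pair n (Nat.pair a b)) = 0)

/-- `g` is low₂: every set which is `Σ₂` in `g` is `Δ₃` (the definition of the frozen
statement). -/
def LowTwo (g : ℕ → ℕ) : Prop :=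
  ∀ R : ℕ → ℕ, TuringReducible (fun m => Part.some (R m)) (fun m => Part.some (g m)) →
    ∃ S T : ℕ → ℕ, Computable S ∧ Computable T ∧ ∀ n : ℕ,
      ((∃ a : ℕ, ∀ b : ℕ, R (Nat.pair n (Nat.pair a b)) = 0) ↔
        ∃ a : ℕ, ∀ b : ℕ, ∃ c : ℕ, S (Nat.pair n (Nat.pair a (Nat.pair b c))) = 0) ∧
      ((¬ ∃ a : ℕ, ∀ b : ℕ, R (Nat.pair n (Nat.pair a b)) = 0) ↔
        ∃ a : ℕ, ∀ b : ℕ, ∃ c : ℕ, T (Nat.pair n (Nat.pair a (Nat.pair b c))) = 0)

/-- The space `X` is homeomorphic to a complete metric space with a dense sequence `y` such that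
the distances `dist (y i) (y j)` are uniformly computable from `g`. -/
def Presented (g : ℕ → ℕ) (X : Type) [TopologicalSpace X] : Prop :=
  ∃ (Q : Type) (_ : MetricSpace Q), CompleteSpace Q ∧ Nonempty (X ≃ₜ Q) ∧
    ∃ y : ℕ → Q, DenseRange y ∧ ∃ f : ℕ → ℕ,
      TuringReducible (fun m => Part.some (f m)) (fun m => Part.some (g m)) ∧
      ∀ i j k : ℕ, |(f (Nat.pair i (Nat.pair j k)) : ℝ) / 2 ^ k - dist (y i) (y j)| ≤ 1 / 2 ^ k

/-- `∃ ∀` over a matrix which is recursive in `O`. -/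
def SG (O : Set (ℕ →. ℕ)) (p : ℕ → Prop) : Prop :=
  ∃ R : ℕ → ℕ, TR O R ∧ ∀ n, p n ↔ ∃ a, ∀ b, R (Nat.pair n (Nat.pair a b)) = 0

/-- Fermat numbers; pairwise coprime. -/
def Fe (x : ℕ) : ℕ := Nat.fermatNumber x

/-- One leaf: a circle and a segment. -/
abbrev KK : Type := UnitAddCircle ⊕ unitInterval

/-- The map of a leaf with winding number `N` to the limit leaf. -/
noncomputable def nu (N : ℕ) : KK → KK := Sum.map (fun z => N • z) id

/-- The identifications: the apex `inr 1` is common to all leaves; the point `inl 0` of the circle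
is the end `inr 0` of the segment. -/
def Rel (o : Option ℕ) (κ : KK) (o' : Option ℕ) (κ' : KK) : Prop :=
  (κ = Sum.inr 1 ∧ κ' = Sum.inr 1) ∨
    (o = o' ∧ (κ = κ' ∨ (κ = Sum.inl 0 ∧ κ' = Sum.inr 0) ∨ (κ = Sum.inr 0 ∧ κ' = Sum.inl 0)))

/-- Winding numbers with the limit leaf. -/
def wnd (N : ℕ → ℕ) : Option ℕ → ℕ := fun o => o.elim 1 N

/-- `F` parametrizes the metric space `Y` as a space of leaves with winding numbers `N`. -/
structure Leafy (N : ℕ → ℕ) {Y : Type} [MetricSpace Y] (F : Option ℕ → KK → Y) : Prop where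
  cont : ∀ o, Continuous (F o)
  fib : ∀ o κ o' κ', F o κ = F o' κ' ↔ Rel o κ o' κ'
  surj : ∀ y, ∃ o κ, F o κ = y
  conv : ∀ ε > 0, ∃ J, ∀ j ≥ J, ∀ κ, dist (F (some j) κ) (F none (nu (N j) κ)) < ε

/-- The model in `ℂ × ℂ`. -/
noncomputable def Xmap (N : ℕ → ℕ) (o : Option ℕ) (κ : KK) : ℂ × ℂ :=
  match o, κ with
  | none, Sum.inl z => ((z.toCircle : ℂ), 0)
  | none, Sum.inr t => (1 + (t : ℝ), 0)
  | some j, Sum.inl z => (((N j • z).toCircle : ℂ), (1 / 2) ^ j * (z.toCircle : ℂ))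
  | some j, Sum.inr t => (1 + (t : ℝ), (1 / 2) ^ j * (1 - (t : ℝ)))

/-- The space with winding numbers `N`. -/
def XX (N : ℕ → ℕ) : Set (ℂ × ℂ) := {p | ∃ o κ, Xmap N o κ = p}

end Pool.Agent.Helper82.NL
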