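import Pool.Agent.Helper82.NL.R2

/-!
A low oracle gives a uniform enumeration of sets of the family (project NL, MP_3235d4_lc).
-/

namespace Pool.Agent.Helper82.NL

private theorem R3_nil_len : len (Encodable.encode ([] : List ℕ)) = 0 := by
  simp [len]

private theorem R3_single_len (c : ℕ) : len (snoc (Encodable.encode ([] : List ℕ)) c) = 1 := by
  rw [len_snoc, R3_nil_len]

private theorem R3_single_ent (c : ℕ) : ent (snoc (Encodable.encode ([] : List ℕ)) c) 0 = c := by
  have h := ent_snoc (Encodable.encode ([] : List ℕ)) c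
  rwa [R3_nil_len] at h

private theorem R3_single {O : Set (ℕ →. ℕ)} {V : ℕ → Set ℕ} (S : CertSys O V) {c : ℕ}
    (hc : S.Valid c) : S.NE (snoc (Encodable.encode ([] : List ℕ)) c) ↔ ∃ j, j ∈ S.In c := by
  rw [S.ne_iff]
  · rw [R3_single_len]
    refine exists_congr fun j => ⟨fun h => ?_, fun h s hs => ?_⟩
    · have := h 0 one_pos
      rwa [R3_single_ent] at this
    · obtain rfl : s = 0 := by omega
      rwa [R3_single_ent]
  · rw [R3_single_len]
    exact one_pos
  · intro s hs
    rw [R3_single_len] at hs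
    obtain rfl : s = 0 := by omega
    rwa [R3_single_ent]

/-- `w` is the function of `Low.char` for `ne_sigma`, and `v = 1 - χ` (or any function with
`v c = 0 ↔ ¬ χ c = 0`) for the function `χ` of the negation of `valid_pi`; the graph of `v` is `Σ₂`
by `graph_SG_total` or directly. `O' = {v, w}` and `c0 n` is the least `c` with `v c = 0`,
`w (snoc [] c) = 0` and `ord c = 2 * n` (`TR.rfind`; it exists by `hV`, `complete` and `ne_iff`,
and `ne_iff` shows that some component is inside `c0 n`). `U n` is the set in `greedy_correct`;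
`x ∈ U n` iff `∃ s, ∃ i, ...` with a relation which is decidable in `O'` (`TR.greedy`), so it is
`Σ₂` by `graph_SG_total` (for the function which is `0` iff the relation holds), `SG.ex` and
`SG.comp`. -/
theorem exists_enum {g : ℕ → ℕ} (hg : Low g) {V : ℕ → Set ℕ}
    (S : CertSys {fun n => Part.some (g n)} V) (hV : ∀ n, ∃ j, 2 * n ∈ V j) :
    ∃ U : ℕ → Set ℕ, SG ∅ (fun z => z.unpair.2 ∈ U z.unpair.1) ∧
      ∀ n, ∃ j, 2 * n ∈ V j ∧ U n = V j := by
  obtain ⟨R, hR, hRv⟩ := S.valid_pi
  obtain ⟨R', hR', hRn⟩ := S.ne_sigma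
  obtain ⟨w, hw0, hwS⟩ := hg.char hR'
  obtain ⟨χ, hχ0, hχS⟩ := hg.char (TR.sub (TR.const 1) hR)
  have hw : ∀ L, w L = 0 ↔ S.NE L := fun L => (hw0 L).trans (hRn L).symm
  set v : ℕ → ℕ := fun c => 1 - χ c with hvdef
  have hv : ∀ c, v c = 0 ↔ S.Valid c := by
    intro c
    rw [hRv]
    have h1 : v c = 0 ↔ ¬ χ c = 0 := by
      simp only [hvdef]
      omega
    rw [h1, hχ0, not_exists]
    refine forall_congr' fun m => ?_
    omega
  set O' : Set (ℕ →. ℕ) := {h : ℕ →. ℕ | (h = fun n => Part.some (χ n)) ∨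
    (h = fun n => Part.some (w n))} with hO'
  have hO : ∀ h ∈ O', SG ∅ (fun z => z.unpair.2 ∈ h z.unpair.1) := by
    intro h hh
    have hh' : (h = fun n => Part.some (χ n)) ∨ (h = fun n => Part.some (w n)) := hh
    rcases hh' with rfl | rfl
    · exact hχS.of_iff fun z => by rw [Part.mem_some_iff]; exact eq_comm
    · exact hwS.of_iff fun z => by rw [Part.mem_some_iff]; exact eq_comm
  have tχ : TR O' χ := Nat.RecursiveIn.oracle _ (Or.inl rfl)
  have tw : TR O' w := Nat.RecursiveIn.oracle _ (Or.inr rfl)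
  have tv : TR O' v := TR.sub (TR.const 1) tχ
  set e0 : ℕ := Encodable.encode ([] : List ℕ) with he0
  have tf : TR O' (fun z => v z.unpair.2 + w (snoc e0 z.unpair.2) +
      ((ord z.unpair.2 - 2 * z.unpair.1) + (2 * z.unpair.1 - ord z.unpair.2))) := by
    have t1 : TR O' (fun z : ℕ => z.unpair.2) := TR.right TR.id
    have t2 : TR O' (fun z : ℕ => 2 * z.unpair.1) := TR.mul (TR.const 2) (TR.left TR.id)
    have t3 : TR O' (fun z : ℕ => ord z.unpair.2) := TR.left t1
    exact TR.add (TR.add (tv.comp t1) (tw.comp (TR.op snoc_prim (TR.const e0) t1)))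
      (TR.add (TR.sub t3 t2) (TR.sub t2 t3))
  obtain ⟨c0, tc, hc⟩ := TR.rfind tf (by
    intro n
    obtain ⟨j, hj⟩ := hV n
    obtain ⟨c, h1, h2, h3⟩ := S.complete j (2 * n) hj
    refine ⟨c, ?_⟩
    have h4 : v c = 0 := (hv c).2 h1
    have h5 : w (snoc e0 c) = 0 := by
      rw [hw, he0, R3_single S h1, h3]
      exact ⟨j, rfl⟩
    simp only [Nat.unpair_pair, h4, h5, h2]
    omega)
  have hc1 : ∀ n, S.Valid (c0 n) ∧ (∃ j, j ∈ S.In (c0 n)) ∧ ord (c0 n) = 2 * n := by
    intro n
    have h1 := (hc n).1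
    simp only [Nat.unpair_pair] at h1
    have h2 : v (c0 n) = 0 := by omega
    have h3 : w (snoc e0 (c0 n)) = 0 := by omega
    have h4 : ord (c0 n) = 2 * n := by omega
    have h5 := (hv _).1 h2
    refine ⟨h5, ?_, h4⟩
    rwa [hw, he0, R3_single S h5] at h3
  refine ⟨fun n => {x | ∃ s, ∃ i < len (greedy v w (c0 n) s),
      ord (ent (greedy v w (c0 n) s) i) = x}, ?_, fun n => ?_⟩
  · have tz : TR O' (fun q : ℕ => q.unpair.1) := TR.left TR.id
    have tx : TR O' (fun q : ℕ => q.unpair.1.unpair.2) := TR.right tz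
    have ts : TR O' (fun q : ℕ => q.unpair.2.unpair.1) := TR.left (TR.right TR.id)
    have ti : TR O' (fun q : ℕ => q.unpair.2.unpair.2) := TR.right (TR.right TR.id)
    have tG : TR O' (fun q : ℕ => greedy v w (c0 q.unpair.1.unpair.1) q.unpair.2.unpair.1) := by
      refine ((TR.greedy tv tw tc).comp (TR.pair (TR.left tz) ts)).of_eq fun q => ?_
      simp only [Nat.unpair_pair]
    have tl : TR O' (fun q : ℕ => len (greedy v w (c0 q.unpair.1.unpair.1) q.unpair.2.unpair.1)) :=
      (TR.of_prim len_prim).comp tG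
    have tord : TR O' (fun q : ℕ => ord (ent (greedy v w (c0 q.unpair.1.unpair.1)
        q.unpair.2.unpair.1) q.unpair.2.unpair.2)) :=
      TR.left (TR.op ent_prim tG ti)
    have tT := TR.add (TR.sub (TR.add ti (TR.const 1)) tl) (TR.add (TR.sub tord tx) (TR.sub tx tord))
    have h1 := ((graph_SG_total hO tT).comp (TR.pair TR.id (TR.const 0))).ex
    refine h1.of_iff fun z => ?_
    simp only [Nat.unpair_pair, Set.mem_ofPred_eq]
    constructor
    · rintro ⟨s, i, hi, hx⟩
      refine ⟨Nat.pair s i, ?_⟩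
      simp only [Nat.unpair_pair]
      rw [hx]
      omega
    · rintro ⟨a, ha⟩
      refine ⟨a.unpair.1, a.unpair.2, ?_, ?_⟩
      · omega
      · omega
  · obtain ⟨h1, h2, h3⟩ := hc1 n
    obtain ⟨j, hj, hU⟩ := greedy_correct S hv hw h1 h2
    refine ⟨j, ?_, hU⟩
    rw [← h3]
    exact S.sound _ h1 j hj

end Pool.Agent.Helper82.NL
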