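import Pool.Agent.Helper82.NL.A2
import Pool.Agent.Helper82.NL.A11
import Pool.Agent.Helper82.NL.B9
import Pool.Agent.Helper82.NL.R3
import Pool.Agent.Helper82.NL.Top4
import Pool.Agent.Helper82.NL.W5
import Pool.Agent.Helper82.NL.W6

/-!
The spectrum of the space (project NL, MP_3235d4_lc).
-/

namespace Pool.Agent.Helper82.NL

/-- A low oracle does not compute a presentation. -/
theorem not_low_of_presented {N : ℕ → ℕ} (hN : ∀ j, ∃ n s, cod s ≠ W n ∧ N j = NN n s)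
    (hN' : ∀ n s, cod s ≠ W n → {j | N j = NN n s}.Infinite) {g : ℕ → ℕ}
    (h : Presented g (XX N)) : ¬ Low g := by
  intro hlow
  obtain ⟨Q, hQm, hQc, ⟨e⟩, y, hy, f, hf, hf'⟩ := h
  have hl : Leafy N (fun o κ => e (⟨Xmap N o κ, o, κ, rfl⟩ : {p : ℂ × ℂ // ∃ o κ, Xmap N o κ = p})) :=
    (XX_leafy N).map e
  obtain ⟨C⟩ := exists_CD hl (⟨hy, tr_iff_turing.2 hf, hf'⟩ :
    Pres {fun m => Part.some (g m)} y f)
  obtain ⟨S⟩ := C.certSys
  have hV : ∀ n, ∃ j, 2 * n ∈ {x | Fe x ∣ N j} := by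
    intro n
    obtain ⟨s, hs⟩ := exists_cod_ne n
    obtain ⟨j, hj⟩ := (hN' n s hs).nonempty
    refine ⟨j, ?_⟩
    change Fe (2 * n) ∣ N j
    rw [show N j = NN n s from hj, dvd_NN]
    exact Or.inl rfl
  obtain ⟨U, hU, hUV⟩ := exists_enum hlow S hV
  obtain ⟨n, hn⟩ := fixpoint U hU
  obtain ⟨j, hj, hUj⟩ := hUV n
  obtain ⟨n', s, hs, hNj⟩ := hN j
  have hmem : ∀ x, x ∈ U n ↔ x ∈ Vset n' s := by
    intro x
    rw [hUj, ← dvd_NN, ← hNj]
    rfl
  have hnn : n' = n := by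
    have h1 : 2 * n ∈ Vset n' s := (hmem _).1 (by rw [hUj]; exact hj)
    rcases h1 with h1 | h1
    · omega
    · omega
  subst hnn
  apply hs
  rw [hn]
  ext x
  change x ∈ cod s ↔ 2 * x + 1 ∈ U n'
  rw [hmem]
  constructor
  · intro hx
    refine Or.inr ⟨by omega, ?_⟩
    rw [show (2 * x + 1) / 2 = x by omega]
    exact hx
  · rintro (h1 | ⟨-, h1⟩)
    · omega
    · rwa [show (2 * x + 1) / 2 = x by omega] at h1

/-- An oracle which is not low computes a presentation. -/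
theorem presented_of_not_low {N : ℕ → ℕ} (hN : ∀ j, ∃ n s, cod s ≠ W n ∧ N j = NN n s)
    (hN' : ∀ n s, cod s ≠ W n → {j | N j = NN n s}.Infinite) {g : ℕ → ℕ} (hg : ¬ Low g) :
    Presented g (XX N) := by
  obtain ⟨R, hRR⟩ := not_forall.1 hg
  obtain ⟨hR, hR'⟩ := Classical.not_imp.1 hRR
  have hRt : TR {fun m => Part.some (g m)} R := tr_iff_turing.2 hR
  let Z : ℕ → Prop := fun n => ∃ a, R (Nat.pair n a) = 0
  have hZ : ¬ (SG ∅ Z ∧ SG ∅ (fun k => ¬ Z k)) := by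
    rintro ⟨⟨S, hS, hS'⟩, ⟨T, hT, hT'⟩⟩
    exact hR' ⟨S, T, hS.to_computable, hT.to_computable, fun n => ⟨hS' n, hT' n⟩⟩
  have h1 : SG {fun m => Part.some (g m)} Z := SG.sigma hRt
  have h2 : SG {fun m => Part.some (g m)} (fun k => ¬ Z k) := by
    refine (SG.pi (TR.sub (TR.const 1) hRt)).of_iff fun n => ?_
    change (¬ ∃ a, R (Nat.pair n a) = 0) ↔ _
    push Not
    refine forall_congr' fun a => ?_
    omega
  have hfin : ∀ j, (Vz Z j).Finite := fun j => Vset_finite _ _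
  obtain ⟨D, hD, hDN⟩ := exists_AD hfin (Vz_SG hZ h1 h2)
  have hDN' : ∀ j n s, Vz Z j = Vset n s → D.N j = NN n s := by
    intro j n s h
    rw [hDN]
    unfold NN
    congr 1
    rw [Set.Finite.toFinset_inj]
    exact h
  have hNV : ∀ {n s n' s'}, NN n s = NN n' s' → Vset n s = Vset n' s' := by
    intro n s n' s' h
    ext x
    rw [← dvd_NN, ← dvd_NN, h]
  obtain ⟨π, hπ⟩ := matching N D.N (by
    intro j
    obtain ⟨n, s, hs, hj⟩ := hN j
    refine (Vz_all Z n s hs).mono fun i hi => ?_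
    change D.N i = N j
    rw [hj]
    exact hDN' i n s hi) (by
    intro j
    obtain ⟨n, s, hs, hj⟩ := Vz_family Z hZ j
    have h3 := hN' n s hs
    rw [hDN' j n s hj]
    exact h3)
  exact D.presented g hD N π hπ

end Pool.Agent.Helper82.NL
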