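import Pool.Agent.Helper82.NL.TRlib
import Pool.Agent.Helper90.Sol.Low

/-!
A low₂ function which is not low (project NL, MP_3235d4_lc); the generic function is helper90's.
-/

namespace Pool.Agent.Helper82.NL

open Pool.Agent.Helper90.Sol in
theorem exists_lowTwo_not_low : ∃ g : ℕ → ℕ, LowTwo g ∧ ¬ Low g := by
  refine ⟨gen, fun R hR => ?_, fun hlow => ?_⟩
  · obtain ⟨h1, h2⟩ := gen_low R hR
    obtain ⟨S, hS, hS'⟩ := h1.toNat
    obtain ⟨T, hT, hT'⟩ := h2.toNat
    exact ⟨S, T, hS, hT, fun n => ⟨hS' n, hT' n⟩⟩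
  · have hR : TR {fun m => Part.some (gen m)} (fun m => gen m.unpair.1) :=
      TR.oracle.comp (TR.left TR.id)
    obtain ⟨S, T, hS, -, h⟩ := hlow _ (tr_iff_turing.1 hR)
    apply zeros_not_S2
    refine S2.mk (α := ℕ) (A := ℕ) (B := ℕ)
      (fun z => decide (S (Nat.pair z.1 (Nat.pair z.2.1 z.2.2)) = 0)) ?_ fun n => ?_
    · have h1 : Computable (fun z : ℕ × ℕ × ℕ => S (Nat.pair z.1 (Nat.pair z.2.1 z.2.2))) :=
        hS.comp (Primrec₂.natPair.comp Primrec.fst (Primrec₂.natPair.comp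
          (Primrec.fst.comp Primrec.snd) (Primrec.snd.comp Primrec.snd))).to_comp
      exact (Primrec.eq.decide.comp Primrec.fst Primrec.snd).to_comp.comp
        (h1.pair (Computable.const 0))
    · have h1 := (h n).1
      simp only [Nat.unpair_pair, exists_const] at h1
      rw [h1]
      simp

end Pool.Agent.Helper82.NL
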