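import Pool.Agent.Helper82.NL.SG1

/-!
Functions recursive in functions with `Σ₂` graph (project NL, MP_3235d4_lc).
-/

namespace Pool.Agent.Helper82.NL

private theorem SG2_eq {O : Set (ℕ →. ℕ)} {a b : ℕ → ℕ} (ha : TR O a) (hb : TR O b) :
    SG O (fun z => a z = b z) := by
  refine (SG.of_tr (TR.add (TR.sub ha hb) (TR.sub hb ha))).of_iff fun z => ?_
  omega

private theorem SG2_app {O : Set (ℕ →. ℕ)} {f : ℕ →. ℕ}
    (hf : SG O (fun z => z.unpair.2 ∈ f z.unpair.1)) {a b : ℕ → ℕ} (ha : TR O a) (hb : TR O b) :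
    SG O (fun z => b z ∈ f (a z)) := by
  refine (hf.comp (TR.pair ha hb)).of_iff fun z => ?_
  simp only [Nat.unpair_pair]

private theorem SG2_prec (f h : ℕ →. ℕ) (a n v : ℕ) :
    v ∈ (Nat.rec (f a) (fun y IH => IH >>= fun i => h (Nat.pair a (Nat.pair y i))) n : Part ℕ) ↔
      ∃ s : ℕ → ℕ, s 0 ∈ f a ∧ (∀ i < n, s (i + 1) ∈ h (Nat.pair a (Nat.pair i (s i)))) ∧
        s n = v := by
  induction n generalizing v with
  | zero =>
    constructor
    · intro hv
      exact ⟨fun _ => v, hv, fun i hi => absurd hi (Nat.not_lt_zero i), rfl⟩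
    · rintro ⟨s, h0, -, h2⟩
      rw [← h2]
      exact h0
  | succ n ih =>
    constructor
    · intro hv
      obtain ⟨w, hw, hv'⟩ := Part.mem_bind_iff.1 hv
      obtain ⟨s, h0, h1, h2⟩ := (ih w).1 hw
      refine ⟨fun i => if i ≤ n then s i else v, ?_, ?_, ?_⟩
      · simpa using h0
      · intro i hi
        rcases Nat.lt_succ_iff_lt_or_eq.1 hi with hi' | hi'
        · have h3 : i + 1 ≤ n := hi'
          have h4 : i ≤ n := hi'.le
          simp only [h3, h4, if_true]
          exact h1 i hi'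
        · subst hi'
          have h3 : ¬ (i + 1 ≤ i) := by omega
          simp only [h3, if_false, le_refl, if_true, h2]
          exact hv'
      · have h3 : ¬ (n + 1 ≤ n) := by omega
        simp only [h3, if_false]
    · rintro ⟨s, h0, h1, h2⟩
      refine Part.mem_bind_iff.2 ⟨s n, (ih (s n)).2 ⟨s, h0, fun i hi => h1 i (by omega), rfl⟩, ?_⟩
      rw [← h2]
      exact h1 n (Nat.lt_succ_self n)

/-- If all oracles in `O'` have a graph which is `Σ₂` in `O`, then so has every function which is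
recursive in `O'`. Induction on `Nat.RecursiveIn`. Pairing and composition: existential
quantification over the intermediate values (`SG.ex`, `SG.and`, `SG.comp`). Primitive recursion:
`v ∈ rec` iff there is a coded list `L` with `ent L 0 ∈ f a`,
`ent L (i+1) ∈ h (pair a (pair i (ent L i)))` for `i < n` and `ent L n = v` (`SG.ball`,
`exists_code`). Search: `v ∈ rfind` iff `0 ∈ f (pair a v)` and
`∀ i < v, ∃ w, w + 1 ∈ f (pair a i)`. -/
theorem graph_SG {O O' : Set (ℕ →. ℕ)}
    (hO : ∀ h ∈ O', SG O (fun z => z.unpair.2 ∈ h z.unpair.1)) {f : ℕ →. ℕ}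
    (hf : Nat.RecursiveIn O' f) : SG O (fun z => z.unpair.2 ∈ f z.unpair.1) := by
  have tl : TR O (fun z => z.unpair.1) := TR.left TR.id
  have tr : TR O (fun z => z.unpair.2) := TR.right TR.id
  induction hf with
  | zero =>
    refine (SG2_eq tr (TR.const 0)).of_iff fun z => ?_
    exact Part.mem_some_iff
  | succ =>
    refine (SG2_eq tr (TR.add tl (TR.const 1))).of_iff fun z => ?_
    exact Part.mem_some_iff
  | left =>
    refine (SG2_eq tr (TR.left tl)).of_iff fun z => ?_
    exact Part.mem_some_iff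
  | right =>
    refine (SG2_eq tr (TR.right tl)).of_iff fun z => ?_
    exact Part.mem_some_iff
  | oracle g hg => exact hO g hg
  | @pair f h _ _ ihf ihh =>
    refine (SG.and (SG2_app ihf tl (TR.left tr)) (SG2_app ihh tl (TR.right tr))).of_iff
      fun z => ?_
    constructor
    · intro hz
      simp only [Seq.seq, Part.map_eq_map, Part.mem_bind_iff,
        Part.mem_map_iff] at hz
      obtain ⟨g, ⟨x, hx, rfl⟩, y, hy, hxy⟩ := hz
      rw [← hxy]
      simpa using ⟨hx, hy⟩
    · rintro ⟨hx, hy⟩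
      simp only [Seq.seq, Part.map_eq_map, Part.mem_bind_iff,
        Part.mem_map_iff]
      exact ⟨_, ⟨_, hx, rfl⟩, _, hy, Nat.pair_unpair _⟩
  | @comp f h _ _ ihf ihh =>
    have h1 : SG O (fun z => z.unpair.2 ∈ h z.unpair.1.unpair.1 ∧
        z.unpair.1.unpair.2 ∈ f z.unpair.2) :=
      SG.and (SG2_app ihh (TR.left tl) tr) (SG2_app ihf tr (TR.right tl))
    refine (SG.ex h1).of_iff fun z => ?_
    simp only [Nat.unpair_pair]
    exact Part.mem_bind_iff
  | @prec f h _ _ ihf ihh =>
    have hent : ∀ {a b : ℕ → ℕ}, TR O a → TR O b → TR O (fun z => ent (a z) (b z)) :=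
      fun ha hb => TR.op ent_prim ha hb
    have h1 : SG O (fun z => ent z.unpair.2 0 ∈ f z.unpair.1.unpair.1.unpair.1) :=
      SG2_app ihf (TR.left (TR.left tl)) (hent tr (TR.const 0))
    have h2 : SG O (fun z => ∀ i < z.unpair.1.unpair.1.unpair.2,
        ent (Nat.pair z i).unpair.1.unpair.2 ((Nat.pair z i).unpair.2 + 1) ∈
          h (Nat.pair (Nat.pair z i).unpair.1.unpair.1.unpair.1.unpair.1
            (Nat.pair (Nat.pair z i).unpair.2
              (ent (Nat.pair z i).unpair.1.unpair.2 (Nat.pair z i).unpair.2)))) := by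
      refine SG.ball (p := fun z => ent z.unpair.1.unpair.2 (z.unpair.2 + 1) ∈
          h (Nat.pair z.unpair.1.unpair.1.unpair.1.unpair.1
            (Nat.pair z.unpair.2 (ent z.unpair.1.unpair.2 z.unpair.2)))) ?_
        (TR.right (TR.left tl))
      exact SG2_app ihh (TR.pair (TR.left (TR.left (TR.left tl)))
        (TR.pair tr (hent (TR.right tl) tr))) (hent (TR.right tl) (TR.add tr (TR.const 1)))
    have h3 : SG O (fun z => ent z.unpair.2 z.unpair.1.unpair.1.unpair.2 =
        z.unpair.1.unpair.2) :=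
      SG2_eq (hent tr (TR.right (TR.left tl))) (TR.right tl)
    refine (SG.ex (SG.and h1 (SG.and h2 h3))).of_iff fun z => ?_
    simp only [Nat.unpair_pair]
    refine (SG2_prec f h z.unpair.1.unpair.1 z.unpair.1.unpair.2 z.unpair.2).trans ?_
    constructor
    · rintro ⟨s, g0, g1, g2⟩
      obtain ⟨L, -, hL⟩ := exists_code s (z.unpair.1.unpair.2 + 1)
      refine ⟨L, ?_, fun i hi => ?_, ?_⟩
      · rw [hL 0 (by omega)]
        exact g0
      · rw [hL (i + 1) (by omega), hL i (by omega)]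
        exact g1 i hi
      · rw [hL _ (by omega)]
        exact g2
    · rintro ⟨L, g0, g1, g2⟩
      exact ⟨ent L, g0, g1, g2⟩
  | @rfind f _ ihf =>
    have h1 : SG O (fun z => 0 ∈ f (Nat.pair z.unpair.1 z.unpair.2)) :=
      SG2_app ihf (TR.pair tl tr) (TR.const 0)
    have h2 : SG O (fun z => ∀ i < z.unpair.2,
        ∃ w, (Nat.pair (Nat.pair z i) w).unpair.2 + 1 ∈
          f (Nat.pair (Nat.pair (Nat.pair z i) w).unpair.1.unpair.1.unpair.1
            (Nat.pair (Nat.pair z i) w).unpair.1.unpair.2)) := by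
      refine SG.ball (p := fun z => ∃ w, (Nat.pair z w).unpair.2 + 1 ∈
          f (Nat.pair (Nat.pair z w).unpair.1.unpair.1.unpair.1
            (Nat.pair z w).unpair.1.unpair.2)) ?_ tr
      refine SG.ex (p := fun z => z.unpair.2 + 1 ∈
          f (Nat.pair z.unpair.1.unpair.1.unpair.1 z.unpair.1.unpair.2)) ?_
      exact SG2_app ihf (TR.pair (TR.left (TR.left tl)) (TR.right tl)) (TR.add tr (TR.const 1))
    refine (SG.and h1 h2).of_iff fun z => ?_
    simp only [Nat.unpair_pair]
    rw [Nat.mem_rfind]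
    simp only [Part.map_eq_map, Part.mem_map_iff]
    constructor
    · rintro ⟨⟨m, hm, hm0⟩, h4⟩
      have hm1 : m = 0 := by simpa using hm0
      refine ⟨hm1 ▸ hm, fun i hi => ?_⟩
      obtain ⟨w, hw, hw0⟩ := h4 hi
      have hw1 : w ≠ 0 := by simpa using hw0
      refine ⟨w - 1, ?_⟩
      rwa [Nat.sub_add_cancel (Nat.one_le_iff_ne_zero.2 hw1)]
    · rintro ⟨h3, h4⟩
      refine ⟨⟨0, h3, by simp⟩, fun {i} hi => ?_⟩
      obtain ⟨w, hw⟩ := h4 i hi
      exact ⟨w + 1, hw, by simp⟩

/-- The case of total functions. -/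
theorem graph_SG_total {O O' : Set (ℕ →. ℕ)}
    (hO : ∀ h ∈ O', SG O (fun z => z.unpair.2 ∈ h z.unpair.1)) {f : ℕ → ℕ} (hf : TR O' f) :
    SG O (fun z => f z.unpair.1 = z.unpair.2) := by
  refine (graph_SG hO hf).of_iff fun z => ?_
  rw [Part.mem_some_iff]
  exact eq_comm

end Pool.Agent.Helper82.NL
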