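import Pool.Agent.Helper82.NL.ADefs
import Pool.Agent.Helper82.NL.SG2

/-!
The greedy choice of certificates (project NL, MP_3235d4_lc).
-/

namespace Pool.Agent.Helper82.NL

private theorem R1a_eq {c : ℕ} : SG ∅ (fun z => z.unpair.2 = c) := by
  have h1 : TR (∅ : Set (ℕ →. ℕ)) (fun z => (z.unpair.2 - c) + (c - z.unpair.2)) :=
    TR.add (TR.sub (TR.right TR.id) (TR.const c)) (TR.sub (TR.const c) (TR.right TR.id))
  exact (SG.of_tr h1).of_iff fun z => by omega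

/-- For a low oracle the characteristic functions of `Σ₁` sets have `Σ₂` graphs. -/
theorem Low.char {g : ℕ → ℕ} (hg : Low g) {R : ℕ → ℕ} (hR : TR {fun n => Part.some (g n)} R) :
    ∃ χ : ℕ → ℕ, (∀ n, χ n = 0 ↔ ∃ a, R (Nat.pair n a) = 0) ∧
      SG ∅ (fun z => χ z.unpair.1 = z.unpair.2) := by
  classical
  obtain ⟨S, T, hS, hT, h⟩ := hg R (tr_iff_turing.mp hR)
  have hs : SG ∅ (fun n => ∃ a, ∀ b, S (Nat.pair n (Nat.pair a b)) = 0) :=
    ⟨S, TR.of_comp hS, fun _ => Iff.rfl⟩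
  have ht : SG ∅ (fun n => ∃ a, ∀ b, T (Nat.pair n (Nat.pair a b)) = 0) :=
    ⟨T, TR.of_comp hT, fun _ => Iff.rfl⟩
  refine ⟨fun n => if ∃ a, R (Nat.pair n a) = 0 then 0 else 1, fun n => ?_, ?_⟩
  · by_cases hn : ∃ a, R (Nat.pair n a) = 0
    · exact ⟨fun _ => hn, fun _ => if_pos hn⟩
    · exact ⟨fun h1 => absurd ((if_neg hn).symm.trans h1) one_ne_zero, fun h1 => absurd h1 hn⟩
  · have h1 := ((R1a_eq (c := 0)).and (hs.comp (TR.left TR.id))).or
      ((R1a_eq (c := 1)).and (ht.comp (TR.left TR.id)))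
    refine h1.of_iff fun z => ?_
    simp only
    rw [← (h z.unpair.1).1, ← (h z.unpair.1).2]
    by_cases hn : ∃ a, R (Nat.pair z.unpair.1 a) = 0
    · rw [if_pos hn]
      exact ⟨fun h2 => Or.inl ⟨h2.symm, hn⟩, fun h2 => h2.elim (fun h3 => h3.1.symm)
        fun h3 => absurd hn h3.2⟩
    · rw [if_neg hn]
      exact ⟨fun h2 => Or.inr ⟨h2.symm, hn⟩, fun h2 => h2.elim (fun h3 => absurd h3.2 hn)
        fun h3 => h3.1.symm⟩

end Pool.Agent.Helper82.NL
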