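import Pool.Agent.Helper82.NL.R1a

/-!
The greedy choice of certificates (project NL, MP_3235d4_lc).
-/

namespace Pool.Agent.Helper82.NL

/-- Append an element to a coded list. -/
def snoc (L c : ℕ) : ℕ := Encodable.encode (Denumerable.ofNat (List ℕ) L ++ [c])

theorem snoc_prim : Primrec₂ snoc :=
  Primrec.encode.comp (Primrec.list_append.comp ((Primrec.ofNat (List ℕ)).comp Primrec.fst)
    (Primrec.list_cons.comp Primrec.snd (Primrec.const [])))

theorem len_snoc (L c : ℕ) : len (snoc L c) = len L + 1 := by
  simp [len, snoc]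

theorem ent_snoc_lt {L c i : ℕ} (h : i < len L) : ent (snoc L c) i = ent L i := by
  have h' : i < (Denumerable.ofNat (List ℕ) L).length := h
  simp [ent, snoc, List.getD_eq_getElem?_getD, List.getElem?_append, h']

theorem ent_snoc (L c : ℕ) : ent (snoc L c) (len L) = c := by
  simp [ent, snoc, len, List.getD_eq_getElem?_getD]

/-- The greedy list: start with `c0`, append `s` if it is valid and the list remains compatible. -/
def greedy (v w : ℕ → ℕ) (c0 : ℕ) : ℕ → ℕ
  | 0 => snoc (Encodable.encode ([] : List ℕ)) c0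
  | s + 1 => if v s + w (snoc (greedy v w c0 s) s) = 0 then snoc (greedy v w c0 s) s
      else greedy v w c0 s

theorem TR.greedy {O : Set (ℕ →. ℕ)} {v w c0 : ℕ → ℕ} (hv : TR O v) (hw : TR O w)
    (hc : TR O c0) : TR O (fun z => NL.greedy v w (c0 z.unpair.1) z.unpair.2) := by
  have h1 : TR O (fun z => Nat.rec (snoc (Encodable.encode ([] : List ℕ)) (c0 z.unpair.1))
      (fun y i => if v y + w (snoc i y) = 0 then snoc i y else i) z.unpair.2) := by
    refine TR.natrec (h := fun _ y i => if v y + w (snoc i y) = 0 then snoc i y else i)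
      (TR.right TR.id) (TR.op snoc_prim (TR.const _) (hc.comp (TR.left TR.id))) ?_
    have hy : TR O (fun z : ℕ => z.unpair.2.unpair.1) := TR.left (TR.right TR.id)
    have hi : TR O (fun z : ℕ => z.unpair.2.unpair.2) := TR.right (TR.right TR.id)
    have hs : TR O (fun z : ℕ => snoc z.unpair.2.unpair.2 z.unpair.2.unpair.1) :=
      TR.op snoc_prim hi hy
    exact TR.ite (TR.add (hv.comp hy) (hw.comp hs)) hs hi
  refine h1.of_eq fun z => ?_
  generalize z.unpair.2 = m
  induction m with
  | zero => rfl
  | succ m ih =>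
    simp only at ih ⊢
    rw [ih]
    rfl

end Pool.Agent.Helper82.NL
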