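import Pool.Agent.Helper82.NL.R1

/-!
Correctness of the greedy choice (project NL, MP_3235d4_lc).
-/

namespace Pool.Agent.Helper82.NL

variable {O : Set (ℕ →. ℕ)} {V : ℕ → Set ℕ} (S : CertSys O V)

theorem R2_len_nil : len (Encodable.encode ([] : List ℕ)) = 0 := by
  unfold len
  rw [Denumerable.ofNat_encode]
  rfl

theorem R2_len_zero (v w : ℕ → ℕ) (c0 : ℕ) : len (greedy v w c0 0) = 1 := by
  show len (snoc (Encodable.encode ([] : List ℕ)) c0) = 1
  rw [len_snoc, R2_len_nil]

theorem R2_ent_zero (v w : ℕ → ℕ) (c0 : ℕ) : ent (greedy v w c0 0) 0 = c0 := by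
  have h := ent_snoc (Encodable.encode ([] : List ℕ)) c0
  rw [R2_len_nil] at h
  exact h

theorem R2_succ (v w : ℕ → ℕ) (c0 s : ℕ) : greedy v w c0 (s + 1) =
    if v s + w (snoc (greedy v w c0 s) s) = 0 then snoc (greedy v w c0 s) s
      else greedy v w c0 s := rfl

/-- The lists grow: entries are not changed and `len` is monotone. -/
theorem greedy_mono (v w : ℕ → ℕ) (c0 : ℕ) {s t : ℕ} (h : s ≤ t) :
    len (greedy v w c0 s) ≤ len (greedy v w c0 t) ∧
      ∀ i < len (greedy v w c0 s), ent (greedy v w c0 t) i = ent (greedy v w c0 s) i := by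
  induction t, h using Nat.le_induction with
  | base => exact ⟨le_rfl, fun i _ => rfl⟩
  | succ t _ ih =>
    rw [R2_succ]
    split_ifs
    · refine ⟨by rw [len_snoc]; omega, fun i hi => ?_⟩
      rw [ent_snoc_lt (lt_of_lt_of_le hi ih.1)]
      exact ih.2 i hi
    · exact ih

/-- All entries are valid and some component is inside all of them. -/
theorem greedy_inv {v w : ℕ → ℕ} (hv : ∀ c, v c = 0 ↔ S.Valid c) (hw : ∀ L, w L = 0 ↔ S.NE L)
    {c0 : ℕ} (h0 : S.Valid c0) (hne : ∃ j, j ∈ S.In c0) (s : ℕ) :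
    (∀ i < len (greedy v w c0 s), S.Valid (ent (greedy v w c0 s) i)) ∧
      ∃ j, ∀ i < len (greedy v w c0 s), j ∈ S.In (ent (greedy v w c0 s) i) := by
  induction s with
  | zero =>
    rw [R2_len_zero]
    refine ⟨fun i hi => ?_, ?_⟩
    · obtain rfl : i = 0 := by omega
      rw [R2_ent_zero]
      exact h0
    · obtain ⟨j, hj⟩ := hne
      refine ⟨j, fun i hi => ?_⟩
      obtain rfl : i = 0 := by omega
      rw [R2_ent_zero]
      exact hj
  | succ s ih =>
    rw [R2_succ]
    split_ifs with hc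
    · have h1 : v s = 0 := by omega
      have h2 : w (snoc (greedy v w c0 s) s) = 0 := by omega
      have h3 : ∀ i < len (snoc (greedy v w c0 s) s),
          S.Valid (ent (snoc (greedy v w c0 s) s) i) := by
        intro i hi
        rw [len_snoc] at hi
        rcases Nat.lt_succ_iff_lt_or_eq.1 hi with hi' | rfl
        · rw [ent_snoc_lt hi']
          exact ih.1 i hi'
        · rw [ent_snoc]
          exact (hv s).1 h1
      refine ⟨h3, ?_⟩
      exact (S.ne_iff _ (by rw [len_snoc]; omega) h3).1 ((hw _).1 h2)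
    · exact ih

/-- The result of the greedy choice. By `greedy_inv` and `fin` (for `c0`) there is a component `j`
which is inside all entries of all lists (a decreasing sequence of nonempty finite sets). `⊆` is
`sound`. For `x ∈ V j` take `c` from `complete`: at step `s = c` the component `j` is inside all
entries and inside `c`, so `c` is appended (`ne_iff` for `snoc`). -/
theorem greedy_correct {v w : ℕ → ℕ} (hv : ∀ c, v c = 0 ↔ S.Valid c)
    (hw : ∀ L, w L = 0 ↔ S.NE L) {c0 : ℕ} (h0 : S.Valid c0) (hne : ∃ j, j ∈ S.In c0) :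
    ∃ j, j ∈ S.In c0 ∧ {x | ∃ s, ∃ i < len (greedy v w c0 s),
      ord (ent (greedy v w c0 s) i) = x} = V j := by
  have hinv := greedy_inv S hv hw h0 hne
  have hanti : ∀ s t j, s ≤ t → (∀ i < len (greedy v w c0 t), j ∈ S.In (ent (greedy v w c0 t) i)) →
      ∀ i < len (greedy v w c0 s), j ∈ S.In (ent (greedy v w c0 s) i) := by
    intro s t j hst hj i hi
    have hm := greedy_mono v w c0 hst
    rw [← hm.2 i hi]
    exact hj i (lt_of_lt_of_le hi hm.1)
  have hc0 : ∀ s j, (∀ i < len (greedy v w c0 s), j ∈ S.In (ent (greedy v w c0 s) i)) →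
      j ∈ S.In c0 := by
    intro s j hj
    have h1 := hanti 0 s j (Nat.zero_le s) hj 0 (by rw [R2_len_zero]; exact Nat.one_pos)
    rw [R2_ent_zero] at h1
    exact h1
  obtain ⟨j, hj⟩ : ∃ j, ∀ s, ∀ i < len (greedy v w c0 s),
      j ∈ S.In (ent (greedy v w c0 s) i) := by
    by_contra hcon
    push Not at hcon
    choose f hf using hcon
    have hfin := S.fin c0 h0
    obtain ⟨M, hM⟩ := (hfin.image f).bddAbove
    obtain ⟨j, hj⟩ := (hinv M).2
    have hjc := hc0 M j hj
    obtain ⟨i, hi, hji⟩ := hf j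
    exact hji (hanti (f j) M j (hM ⟨j, hjc, rfl⟩) hj i hi)
  refine ⟨j, hc0 0 j (hj 0), ?_⟩
  ext x
  constructor
  · rintro ⟨s, i, hi, rfl⟩
    exact S.sound _ ((hinv s).1 i hi) j (hj s i hi)
  · intro hx
    obtain ⟨c, hc, hcx, hcj⟩ := S.complete j x hx
    have h1 : v c = 0 := (hv c).2 hc
    have h3 : ∀ i < len (snoc (greedy v w c0 c) c),
        S.Valid (ent (snoc (greedy v w c0 c) c) i) := by
      intro i hi
      rw [len_snoc] at hi
      rcases Nat.lt_succ_iff_lt_or_eq.1 hi with hi' | rfl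
      · rw [ent_snoc_lt hi']
        exact (hinv c).1 i hi'
      · rw [ent_snoc]
        exact hc
    have h2 : w (snoc (greedy v w c0 c) c) = 0 := by
      rw [hw, S.ne_iff _ (by rw [len_snoc]; omega) h3]
      refine ⟨j, fun i hi => ?_⟩
      rw [len_snoc] at hi
      rcases Nat.lt_succ_iff_lt_or_eq.1 hi with hi' | rfl
      · rw [ent_snoc_lt hi']
        exact hj c i hi'
      · rw [ent_snoc, hcj]
        exact Set.mem_singleton j
    have h4 : greedy v w c0 (c + 1) = snoc (greedy v w c0 c) c := by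
      rw [R2_succ, if_pos (by omega)]
    refine ⟨c + 1, len (greedy v w c0 c), ?_, ?_⟩
    · rw [h4, len_snoc]
      omega
    · rw [h4, ent_snoc, hcx]

end Pool.Agent.Helper82.NL
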