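import Pool.Agent.Helper82.NL.TRlib

/-!
Sequences of nonnegative reals which are uniformly computable from oracles (project NL,
MP_3235d4_lc).
-/

namespace Pool.Agent.Helper82.NL

variable {O : Set (ℕ →. ℕ)}

/-- The sequence `r` is uniformly computable from `O`. -/
def CR (O : Set (ℕ →. ℕ)) (r : ℕ → ℝ) : Prop :=
  ∃ f : ℕ → ℕ, TR O f ∧ ∀ n k, |(f (Nat.pair n k) : ℝ) / 2 ^ k - r n| ≤ 1 / 2 ^ k

theorem CR.of_eq {r s : ℕ → ℝ} (hr : CR O r) (h : ∀ n, r n = s n) : CR O s := by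
  have : r = s := funext h
  rw [← this]
  exact hr

theorem CR.comp {r : ℕ → ℝ} (hr : CR O r) {f : ℕ → ℕ} (hf : TR O f) :
    CR O (fun n => r (f n)) := by
  obtain ⟨F, hF, h⟩ := hr
  exact ⟨fun z => F (Nat.pair (f z.unpair.1) z.unpair.2),
    hF.comp (TR.pair (hf.comp (TR.left TR.id)) (TR.right TR.id)),
    fun n k => by simpa using h (f n) k⟩

/-- Quotients of natural numbers: approximate by `a * 2 ^ k / b` (natural division). -/
theorem CR.rat {a b : ℕ → ℕ} (ha : TR O a) (hb : TR O b) (hpos : ∀ n, 0 < b n) :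
    CR O (fun n => (a n : ℝ) / (b n : ℝ)) := by
  refine ⟨fun z => a z.unpair.1 * 2 ^ z.unpair.2 / b z.unpair.1, ?_, fun n k => ?_⟩
  · exact TR.div (TR.mul (ha.comp (TR.left TR.id)) (TR.pow (TR.const 2) (TR.right TR.id)))
      (hb.comp (TR.left TR.id))
  · simp only [Nat.unpair_pair]
    have hb0 : (0 : ℝ) < b n := by exact_mod_cast hpos n
    have hp : (0 : ℝ) < 2 ^ k := by positivity
    have h1 : a n * 2 ^ k / b n * b n ≤ a n * 2 ^ k := Nat.div_mul_le_self _ _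
    have h2 : a n * 2 ^ k < (a n * 2 ^ k / b n + 1) * b n := by
      rw [add_mul, one_mul]
      exact Nat.lt_div_mul_add (hpos n)
    generalize a n * 2 ^ k / b n = q at h1 h2 ⊢
    have h3 : (q : ℝ) * b n ≤ a n * 2 ^ k := by exact_mod_cast h1
    have h4 : (a n : ℝ) * 2 ^ k < (q + 1) * b n := by exact_mod_cast h2
    rw [div_sub_div _ _ hp.ne' hb0.ne', abs_le]
    constructor
    · rw [neg_le, ← neg_div, div_le_div_iff₀ (by positivity) hp]
      nlinarith
    · rw [div_le_div_iff₀ (by positivity) hp]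
      nlinarith

private theorem Real1a_round (F a k : ℕ) :
    |(((F + 2 ^ a) / 2 ^ (a + 1) : ℕ) : ℝ) / 2 ^ k - (F : ℝ) / 2 ^ (k + a + 1)| ≤
      1 / 2 ^ (k + 1) := by
  have h1 : (F + 2 ^ a) / 2 ^ (a + 1) * 2 ^ (a + 1) ≤ F + 2 ^ a := Nat.div_mul_le_self _ _
  have h2 : F + 2 ^ a < ((F + 2 ^ a) / 2 ^ (a + 1) + 1) * 2 ^ (a + 1) := by
    rw [add_mul, one_mul]
    exact Nat.lt_div_mul_add (by positivity)
  generalize (F + 2 ^ a) / 2 ^ (a + 1) = q at h1 h2 ⊢
  have h3 : (q : ℝ) * (2 ^ (a + 1)) ≤ F + 2 ^ a := by exact_mod_cast h1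
  have h4 : (F : ℝ) + 2 ^ a < (q + 1) * 2 ^ (a + 1) := by exact_mod_cast h2
  have hk : (0 : ℝ) < 2 ^ k := by positivity
  have ha : (0 : ℝ) < 2 ^ a := by positivity
  have h5 : (q : ℝ) / 2 ^ k - (F : ℝ) / 2 ^ (k + a + 1) =
      (q * 2 ^ (a + 1) - F) / 2 ^ (k + a + 1) := by
    rw [pow_add, pow_add]
    field_simp
    ring
  have h6 : (1 : ℝ) / 2 ^ (k + 1) = 2 ^ a / 2 ^ (k + a + 1) := by
    rw [pow_add, pow_add, pow_add]
    field_simp
  rw [h5, h6, abs_div, abs_of_pos (show (0 : ℝ) < 2 ^ (k + a + 1) by positivity)]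
  apply div_le_div_of_nonneg_right _ (by positivity)
  rw [abs_le]
  rw [pow_succ] at h3 h4
  rw [pow_succ]
  constructor <;> nlinarith

/-- Rounding: from an approximation within half of the required precision, given with `a + 1`
superfluous binary digits. The numbers `(f + 2 ^ a) / 2 ^ (a + 1)` are the nearest integers. Used
for all operations below (for products `a = k + 5` from approximations with precision
`2 ^ -(k + 3)`). -/
theorem CR.of_half {r : ℕ → ℝ} {f a : ℕ → ℕ} (hf : TR O f) (ha : TR O a)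
    (h : ∀ n k, |(f (Nat.pair n k) : ℝ) / 2 ^ (k + a (Nat.pair n k) + 1) - r n| ≤
      1 / 2 ^ (k + 1)) :
    CR O r := by
  refine ⟨fun z => (f z + 2 ^ a z) / 2 ^ (a z + 1), ?_, fun n k => ?_⟩
  · exact TR.div (TR.add hf (TR.pow (TR.const 2) ha))
      (TR.pow (TR.const 2) (TR.add ha (TR.const 1)))
  · have h0 := h n k
    have h1 := Real1a_round (f (Nat.pair n k)) (a (Nat.pair n k)) k
    have h2 : (1 : ℝ) / 2 ^ k = 1 / 2 ^ (k + 1) + 1 / 2 ^ (k + 1) := by
      rw [pow_succ]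
      field_simp
      norm_num
    rw [h2]
    have h3 := abs_sub_le
      ((((f (Nat.pair n k) + 2 ^ a (Nat.pair n k)) / 2 ^ (a (Nat.pair n k) + 1) : ℕ) : ℝ) / 2 ^ k)
      ((f (Nat.pair n k) : ℝ) / 2 ^ (k + a (Nat.pair n k) + 1)) (r n)
    exact h3.trans (add_le_add h1 h0)

theorem CR.absDiff {r s : ℕ → ℝ} (hr : CR O r) (hs : CR O s) :
    CR O (fun n => |r n - s n|) := by
  obtain ⟨f, hf, h⟩ := hr
  obtain ⟨g, hg, h'⟩ := hs
  have ht : TR O (fun z => Nat.pair z.unpair.1 (z.unpair.2 + 2)) :=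
    TR.pair (TR.left TR.id) (TR.add (TR.right TR.id) (TR.const 2))
  refine CR.of_half (a := fun _ => 1)
    (f := fun z => (f (Nat.pair z.unpair.1 (z.unpair.2 + 2)) -
      g (Nat.pair z.unpair.1 (z.unpair.2 + 2))) +
      (g (Nat.pair z.unpair.1 (z.unpair.2 + 2)) - f (Nat.pair z.unpair.1 (z.unpair.2 + 2))))
    ?_ (TR.const 1) fun n k => ?_
  · exact TR.add (TR.sub (hf.comp ht) (hg.comp ht)) (TR.sub (hg.comp ht) (hf.comp ht))
  · simp only [Nat.unpair_pair]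
    have h1 := h n (k + 2)
    have h2 := h' n (k + 2)
    generalize f (Nat.pair n (k + 2)) = x at h1 ⊢
    generalize g (Nat.pair n (k + 2)) = y at h2 ⊢
    have h3 : ((x - y + (y - x) : ℕ) : ℝ) = |(x : ℝ) - y| := by
      rcases le_total x y with hxy | hxy
      · have hxy' : (x : ℝ) ≤ y := by exact_mod_cast hxy
        rw [Nat.sub_eq_zero_of_le hxy, zero_add, Nat.cast_sub hxy, abs_sub_comm,
          abs_of_nonneg (by linarith)]
      · have hxy' : (y : ℝ) ≤ x := by exact_mod_cast hxy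
        rw [Nat.sub_eq_zero_of_le hxy, add_zero, Nat.cast_sub hxy,
          abs_of_nonneg (by linarith)]
    have h4 : |(x : ℝ) - y| / 2 ^ (k + 1 + 1) = |(x : ℝ) / 2 ^ (k + 2) - y / 2 ^ (k + 2)| := by
      rw [← sub_div, abs_div, abs_of_pos (show (0 : ℝ) < 2 ^ (k + 2) by positivity)]
    rw [h3, h4]
    have h5 := abs_abs_sub_abs_le_abs_sub ((x : ℝ) / 2 ^ (k + 2) - y / 2 ^ (k + 2)) (r n - s n)
    have h6 : |(x : ℝ) / 2 ^ (k + 2) - y / 2 ^ (k + 2) - (r n - s n)| ≤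
        1 / 2 ^ (k + 2) + 1 / 2 ^ (k + 2) := by
      have h7 : (x : ℝ) / 2 ^ (k + 2) - y / 2 ^ (k + 2) - (r n - s n) =
          ((x : ℝ) / 2 ^ (k + 2) - r n) - (y / 2 ^ (k + 2) - s n) := by ring
      rw [h7]
      exact (abs_sub _ _).trans (add_le_add h1 h2)
    have h8 : (1 : ℝ) / 2 ^ (k + 1) = 1 / 2 ^ (k + 2) + 1 / 2 ^ (k + 2) := by
      rw [pow_succ 2 (k + 1)]
      field_simp
      norm_num
    rw [h8]
    exact h5.trans h6

theorem CR.min {r s : ℕ → ℝ} (hr : CR O r) (hs : CR O s) :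
    CR O (fun n => Min.min (r n) (s n)) := by
  obtain ⟨f, hf, h⟩ := hr
  obtain ⟨g, hg, h'⟩ := hs
  refine ⟨fun z => Min.min (f z) (g z), TR.op Primrec.nat_min hf hg, fun n k => ?_⟩
  have h1 := h n k
  have h2 := h' n k
  have h3 : ((Min.min (f (Nat.pair n k)) (g (Nat.pair n k)) : ℕ) : ℝ) / 2 ^ k =
      Min.min ((f (Nat.pair n k) : ℝ) / 2 ^ k) ((g (Nat.pair n k) : ℝ) / 2 ^ k) := by
    rw [Nat.cast_min, min_div_div_right (by positivity)]
  rw [h3]
  exact (abs_min_sub_min_le_max _ _ _ _).trans (max_le h1 h2)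

theorem CR.scale {r : ℕ → ℝ} (hr : CR O r) {a : ℕ → ℕ} (ha : TR O a) :
    CR O (fun n => 2 ^ (a n) * r n) := by
  obtain ⟨f, hf, h⟩ := hr
  refine ⟨fun z => f (Nat.pair z.unpair.1 (z.unpair.2 + a z.unpair.1)), ?_, fun n k => ?_⟩
  · exact hf.comp (TR.pair (TR.left TR.id)
      (TR.add (TR.right TR.id) (ha.comp (TR.left TR.id))))
  · simp only [Nat.unpair_pair]
    have h1 := h n (k + a n)
    generalize f (Nat.pair n (k + a n)) = x at h1 ⊢
    have ha0 : (0 : ℝ) < 2 ^ a n := by positivity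
    have h2 : (x : ℝ) / 2 ^ k - 2 ^ a n * r n = 2 ^ a n * ((x : ℝ) / 2 ^ (k + a n) - r n) := by
      rw [pow_add]
      field_simp
    have h3 : (1 : ℝ) / 2 ^ k = 2 ^ a n * (1 / 2 ^ (k + a n)) := by
      rw [pow_add]
      field_simp
    rw [h2, h3, abs_mul, abs_of_pos ha0]
    exact mul_le_mul_of_nonneg_left h1 ha0.le

end Pool.Agent.Helper82.NL
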