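import Pool.Agent.Helper82.NL.Real1a

/-!
Sequences of nonnegative reals which are uniformly computable from oracles (project NL,
MP_3235d4_lc).
-/

namespace Pool.Agent.Helper82.NL

variable {O : Set (ℕ →. ℕ)}

theorem CR.mul {r s : ℕ → ℝ} (hr : CR O r) (hs : CR O s) (hr0 : ∀ n, 0 ≤ r n ∧ r n ≤ 1)
    (hs0 : ∀ n, 0 ≤ s n ∧ s n ≤ 1) : CR O (fun n => r n * s n) := by
  obtain ⟨F, hF, hFr⟩ := hr
  obtain ⟨G, hG, hGs⟩ := hs
  have harg : TR O (fun z : ℕ => Nat.pair z.unpair.1 (z.unpair.2 + 3)) :=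
    TR.pair (TR.left TR.id) (TR.add (TR.right TR.id) (TR.const 3))
  refine CR.of_half
    (f := fun z => F (Nat.pair z.unpair.1 (z.unpair.2 + 3)) *
      G (Nat.pair z.unpair.1 (z.unpair.2 + 3)))
    (a := fun z => z.unpair.2 + 5)
    (TR.mul (hF.comp harg) (hG.comp harg)) (TR.add (TR.right TR.id) (TR.const 5)) ?_
  intro n k
  simp only [Nat.unpair_pair]
  set x : ℝ := (F (Nat.pair n (k + 3)) : ℝ) / 2 ^ (k + 3) with hx
  set y : ℝ := (G (Nat.pair n (k + 3)) : ℝ) / 2 ^ (k + 3) with hy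
  have hxr : |x - r n| ≤ 1 / 2 ^ (k + 3) := hFr n (k + 3)
  have hys : |y - s n| ≤ 1 / 2 ^ (k + 3) := hGs n (k + 3)
  have e1 : ((F (Nat.pair n (k + 3)) * G (Nat.pair n (k + 3)) : ℕ) : ℝ) /
      2 ^ (k + (k + 5) + 1) = x * y := by
    rw [hx, hy, div_mul_div_comm, ← pow_add]
    push_cast
    congr 2
    ring
  rw [e1]
  have hd : (1 : ℝ) / 2 ^ (k + 1) = 4 * (1 / 2 ^ (k + 3)) := by
    rw [pow_add, pow_add]
    field_simp
    norm_num
  rw [hd]
  set δ : ℝ := 1 / 2 ^ (k + 3) with hδ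
  have hδ0 : 0 ≤ δ := by positivity
  have hδ1 : δ ≤ 1 := by
    rw [hδ]
    exact div_le_one_of_le₀ (one_le_pow₀ (by norm_num)) (by positivity)
  have hy0 : 0 ≤ y := by positivity
  have hy1 : y ≤ 2 := by
    have := abs_le.1 hys
    have := (hs0 n).2
    linarith [(abs_le.1 hys).2]
  have h1 : |x * y - r n * s n| ≤ |x - r n| * y + r n * |y - s n| := by
    have e2 : x * y - r n * s n = (x - r n) * y + r n * (y - s n) := by ring
    rw [e2]
    refine (abs_add_le _ _).trans ?_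
    rw [abs_mul, abs_mul, abs_of_nonneg hy0, abs_of_nonneg (hr0 n).1]
  have h2 : |x - r n| * y ≤ δ * 2 := mul_le_mul hxr hy1 hy0 hδ0
  have h3 : r n * |y - s n| ≤ 1 * δ := mul_le_mul (hr0 n).2 hys (abs_nonneg _) zero_le_one
  linarith

/-- Finite sums: each of the `K` terms is needed with precision `2 ^ -(k + K + 1)`. -/
theorem CR.sum {r : ℕ → ℝ} (hr : CR O r) {K : ℕ → ℕ} (hK : TR O K) :
    CR O (fun n => ∑ i ∈ Finset.range (K n), r (Nat.pair n i)) := by
  obtain ⟨F, hF, hFr⟩ := hr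
  have hKl : TR O (fun z : ℕ => K z.unpair.1) := hK.comp (TR.left TR.id)
  have hterm : TR O (fun w : ℕ => F (Nat.pair (Nat.pair w.unpair.1.unpair.1 w.unpair.2)
      (w.unpair.1.unpair.2 + K w.unpair.1.unpair.1 + 1))) :=
    hF.comp (TR.pair (TR.pair (TR.left (TR.left TR.id)) (TR.right TR.id))
      (TR.add (TR.add (TR.right (TR.left TR.id)) (hK.comp (TR.left (TR.left TR.id))))
        (TR.const 1)))
  refine CR.of_half
    (f := fun z => ∑ i ∈ Finset.range (K z.unpair.1),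
      F (Nat.pair (Nat.pair (Nat.pair z i).unpair.1.unpair.1 (Nat.pair z i).unpair.2)
      ((Nat.pair z i).unpair.1.unpair.2 + K (Nat.pair z i).unpair.1.unpair.1 + 1)))
    (a := fun z => K z.unpair.1) (TR.sum hKl hterm) hKl ?_
  intro n k
  simp only [Nat.unpair_pair]
  push_cast
  rw [Finset.sum_div, ← Finset.sum_sub_distrib]
  refine (Finset.abs_sum_le_sum_abs _ _).trans ?_
  refine (Finset.sum_le_card_nsmul _ _ (1 / 2 ^ (k + K n + 1)) fun i _ =>
    hFr (Nat.pair n i) (k + K n + 1)).trans ?_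
  rw [Finset.card_range, nsmul_eq_mul]
  have h2 : (K n : ℝ) ≤ 2 ^ K n := by exact_mod_cast (Nat.lt_two_pow_self).le
  have e : (2 : ℝ) ^ (k + K n + 1) = 2 ^ (k + 1) * 2 ^ K n := by
    rw [← pow_add]; congr 1; omega
  rw [e, mul_one_div, div_le_div_iff₀ (by positivity) (by positivity), one_mul,
    mul_comm ((2 : ℝ) ^ (k + 1)) (2 ^ K n)]
  exact mul_le_mul_of_nonneg_right h2 (by positivity)

end Pool.Agent.Helper82.NL
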