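import Pool.Agent.Helper82.NL.Real1b

/-!
Sequences of nonnegative reals which are uniformly computable from oracles (project NL,
MP_3235d4_lc).
-/

namespace Pool.Agent.Helper82.NL

variable {O : Set (ℕ →. ℕ)}

theorem CR.ite {c : ℕ → ℕ} {r s : ℕ → ℝ} (hc : TR O c) (hr : CR O r) (hs : CR O s) :
    CR O (fun n => if c n = 0 then r n else s n) := by
  obtain ⟨f, hf, hf'⟩ := hr
  obtain ⟨g, hg, hg'⟩ := hs
  refine ⟨fun z => if c z.unpair.1 = 0 then f z else g z,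
    TR.ite (hc.comp (TR.left TR.id)) hf hg, fun n k => ?_⟩
  simp only [Nat.unpair_pair]
  by_cases h : c n = 0
  · simp only [h, if_true]
    exact hf' n k
  · simp only [h, if_false]
    exact hg' n k

theorem CR.lim {r s : ℕ → ℝ} (hs : CR O s) (h : ∀ n k, |s (Nat.pair n k) - r n| ≤ 1 / 2 ^ k) :
    CR O r := by
  obtain ⟨f, hf, hf'⟩ := hs
  have hk : TR O (fun z => z.unpair.2 + 2) := TR.add (TR.right TR.id) (TR.const 2)
  refine CR.of_half
    (f := fun z => f (Nat.pair (Nat.pair z.unpair.1 (z.unpair.2 + 2)) (z.unpair.2 + 2)))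
    (a := fun _ => 1) (hf.comp (TR.pair (TR.pair (TR.left TR.id) hk) hk)) (TR.const 1) ?_
  intro n k
  simp only [Nat.unpair_pair]
  have h1 := hf' (Nat.pair n (k + 2)) (k + 2)
  have h2 := h n (k + 2)
  have h3 : (1 : ℝ) / 2 ^ (k + 1) = 1 / 2 ^ (k + 2) + 1 / 2 ^ (k + 2) := by
    rw [pow_succ 2 (k + 1)]
    field_simp
    norm_num
  rw [h3]
  have h4 : (2 : ℝ) ^ (k + 1 + 1) = 2 ^ (k + 2) := by ring
  rw [h4]
  refine le_trans (abs_sub_le _ (s (Nat.pair n (k + 2))) _) ?_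
  linarith

private theorem Real1c_norm_coe {d : ℝ} (h0 : 0 ≤ d) (h1 : d ≤ 1) :
    ‖((d : ℝ) : UnitAddCircle)‖ = Min.min |d| |1 - (|d|)| := by
  rw [UnitAddCircle.norm_eq, abs_sub_round_eq_min, abs_of_nonneg h0,
    abs_of_nonneg (by linarith : 0 ≤ 1 - d)]
  rcases eq_or_lt_of_le h1 with h | h
  · subst h
    simp
  · rw [Int.fract_eq_self.2 ⟨h0, h⟩]

/-- The norm of a difference in the circle, for representatives in `[0, 1]`. -/
theorem norm_coe_sub {x y : ℝ} (hx : 0 ≤ x ∧ x ≤ 1) (hy : 0 ≤ y ∧ y ≤ 1) :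
    ‖((x : ℝ) : UnitAddCircle) - ((y : ℝ) : UnitAddCircle)‖ =
      Min.min |x - y| |1 - (|x - y|)| := by
  rcases le_total y x with h | h
  · rw [← AddCircle.coe_sub]
    exact Real1c_norm_coe (by linarith) (by linarith [hx.2, hy.1])
  · rw [norm_sub_rev, ← AddCircle.coe_sub, abs_sub_comm x y]
    exact Real1c_norm_coe (by linarith) (by linarith [hy.2, hx.1])

theorem CR.circle {r s : ℕ → ℝ} (hr : CR O r) (hs : CR O s) (hr0 : ∀ n, 0 ≤ r n ∧ r n ≤ 1)
    (hs0 : ∀ n, 0 ≤ s n ∧ s n ≤ 1) :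
    CR O (fun n => ‖((r n : ℝ) : UnitAddCircle) - ((s n : ℝ) : UnitAddCircle)‖) := by
  have h1 : CR O (fun _ => (1 : ℝ)) :=
    (CR.rat (TR.const 1) (TR.const 1) (fun _ => Nat.one_pos)).of_eq fun n => by simp
  have h2 := CR.absDiff hr hs
  exact (CR.min h2 (CR.absDiff h1 h2)).of_eq fun n => (norm_coe_sub (hr0 n) (hs0 n)).symm

end Pool.Agent.Helper82.NL
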