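import Pool.Agent.Helper82.NL.Final
import Pool.Agent.Helper82.NL.Gen

/-!
The theorem (project NL, MP_3235d4_lc).
-/

namespace Pool.Agent.Helper82.NL

theorem spectrum : ∃ X : Set (ℂ × ℂ), IsCompact X ∧ IsPathConnected X ∧ dimH X = 1 ∧
    (∀ g : ℕ → ℕ, Presented g X ↔ ¬ Low g) ∧ ∃ g : ℕ → ℕ, LowTwo g ∧ ¬ Low g := by
  obtain ⟨N, hN, hN'⟩ := exists_N
  exact ⟨XX N, XX_compact N, XX_pathConnected N, XX_dimH N,
    fun g => ⟨fun h => not_low_of_presented hN hN' h, fun h => presented_of_not_low hN hN' h⟩,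
    exists_lowTwo_not_low⟩

end Pool.Agent.Helper82.NL
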