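import Pool.Agent.Helper82.NL.TRlib

/-!
Closure properties of `Σ₂` predicates relative to oracles (project NL, MP_3235d4_lc).
-/

namespace Pool.Agent.Helper82.NL

variable {O : Set (ℕ →. ℕ)}

/-- Entries of a coded list. -/
def ent (L i : ℕ) : ℕ := (Denumerable.ofNat (List ℕ) L).getD i 0

/-- Length of a coded list. -/
def len (L : ℕ) : ℕ := (Denumerable.ofNat (List ℕ) L).length

theorem ent_prim : Primrec₂ ent :=
  (Primrec.list_getD 0).comp ((Primrec.ofNat (List ℕ)).comp Primrec.fst) Primrec.snd

theorem len_prim : Primrec len :=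
  Primrec.list_length.comp (Primrec.ofNat (List ℕ))

theorem exists_code (s : ℕ → ℕ) (n : ℕ) : ∃ L, len L = n ∧ ∀ i < n, ent L i = s i := by
  refine ⟨Encodable.encode ((List.range n).map s), ?_, fun i hi => ?_⟩
  · simp [len]
  · simp [ent, List.getD_eq_getElem?_getD, hi]

end Pool.Agent.Helper82.NL
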