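import Pool.Agent.Helper82.NL.SG1a

/-!
Closure properties of `Σ₂` predicates relative to oracles (project NL, MP_3235d4_lc).
-/

namespace Pool.Agent.Helper82.NL

variable {O : Set (ℕ →. ℕ)}

theorem SG.of_iff {p q : ℕ → Prop} (hp : SG O p) (h : ∀ n, q n ↔ p n) : SG O q := by
  obtain ⟨R, hR, hp⟩ := hp
  exact ⟨R, hR, fun n => (h n).trans (hp n)⟩

theorem SG.comp {p : ℕ → Prop} (hp : SG O p) {f : ℕ → ℕ} (hf : TR O f) :
    SG O (fun n => p (f n)) := by
  obtain ⟨R, hR, hp⟩ := hp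
  refine ⟨fun z => R (Nat.pair (f z.unpair.1) z.unpair.2),
    hR.comp (TR.pair (hf.comp (TR.left TR.id)) (TR.right TR.id)), fun n => ?_⟩
  simp only [Nat.unpair_pair]
  exact hp (f n)

theorem SG.of_tr {r : ℕ → ℕ} (hr : TR O r) : SG O (fun n => r n = 0) := by
  refine ⟨fun z => r z.unpair.1, hr.comp (TR.left TR.id), fun n => ?_⟩
  simp only [Nat.unpair_pair]
  exact ⟨fun h => ⟨0, fun _ => h⟩, fun ⟨_, h⟩ => h 0⟩

theorem SG.pi {r : ℕ → ℕ} (hr : TR O r) : SG O (fun n => ∀ b, r (Nat.pair n b) = 0) := by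
  refine ⟨fun z => r (Nat.pair z.unpair.1 z.unpair.2.unpair.2),
    hr.comp (TR.pair (TR.left TR.id) (TR.right (TR.right TR.id))), fun n => ?_⟩
  simp only [Nat.unpair_pair]
  exact ⟨fun h => ⟨0, h⟩, fun ⟨_, h⟩ => h⟩

/-- The two existential quantifiers are coded into one with `Nat.pair`. -/
theorem SG.ex {p : ℕ → Prop} (hp : SG O p) : SG O (fun n => ∃ a, p (Nat.pair n a)) := by
  obtain ⟨R, hR, hp⟩ := hp
  refine ⟨fun z => R (Nat.pair (Nat.pair z.unpair.1 z.unpair.2.unpair.1.unpair.1)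
    (Nat.pair z.unpair.2.unpair.1.unpair.2 z.unpair.2.unpair.2)),
    hR.comp (TR.pair (TR.pair (TR.left TR.id) (TR.left (TR.left (TR.right TR.id))))
      (TR.pair (TR.right (TR.left (TR.right TR.id))) (TR.right (TR.right TR.id)))), fun n => ?_⟩
  simp only [Nat.unpair_pair]
  constructor
  · rintro ⟨a, ha⟩
    obtain ⟨a', h⟩ := (hp _).1 ha
    refine ⟨Nat.pair a a', fun b => ?_⟩
    simp only [Nat.unpair_pair]
    exact h b
  · rintro ⟨c, h⟩
    exact ⟨c.unpair.1, (hp _).2 ⟨c.unpair.2, h⟩⟩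

theorem SG.sigma {r : ℕ → ℕ} (hr : TR O r) : SG O (fun n => ∃ a, r (Nat.pair n a) = 0) :=
  SG.ex (SG.of_tr hr)

theorem SG.and {p q : ℕ → Prop} (hp : SG O p) (hq : SG O q) : SG O (fun n => p n ∧ q n) := by
  obtain ⟨R, hR, hp⟩ := hp
  obtain ⟨S, hS, hq⟩ := hq
  refine ⟨fun z => R (Nat.pair z.unpair.1 (Nat.pair z.unpair.2.unpair.1.unpair.1
    z.unpair.2.unpair.2)) + S (Nat.pair z.unpair.1 (Nat.pair z.unpair.2.unpair.1.unpair.2
    z.unpair.2.unpair.2)), ?_, fun n => ?_⟩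
  · refine TR.add (hR.comp (TR.pair (TR.left TR.id)
      (TR.pair (TR.left (TR.left (TR.right TR.id))) (TR.right (TR.right TR.id)))))
      (hS.comp (TR.pair (TR.left TR.id)
      (TR.pair (TR.right (TR.left (TR.right TR.id))) (TR.right (TR.right TR.id)))))
  · simp only [Nat.unpair_pair]
    constructor
    · rintro ⟨h1, h2⟩
      obtain ⟨a, ha⟩ := (hp n).1 h1
      obtain ⟨a', ha'⟩ := (hq n).1 h2
      refine ⟨Nat.pair a a', fun b => ?_⟩
      simp only [Nat.unpair_pair, ha, ha']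
    · rintro ⟨c, h⟩
      exact ⟨(hp n).2 ⟨c.unpair.1, fun b => (Nat.add_eq_zero_iff.1 (h b)).1⟩,
        (hq n).2 ⟨c.unpair.2, fun b => (Nat.add_eq_zero_iff.1 (h b)).2⟩⟩

theorem SG.or {p q : ℕ → Prop} (hp : SG O p) (hq : SG O q) : SG O (fun n => p n ∨ q n) := by
  obtain ⟨R, hR, hp⟩ := hp
  obtain ⟨S, hS, hq⟩ := hq
  refine ⟨fun z => if z.unpair.2.unpair.1.unpair.1 = 0 then
    R (Nat.pair z.unpair.1 (Nat.pair z.unpair.2.unpair.1.unpair.2 z.unpair.2.unpair.2)) else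
    S (Nat.pair z.unpair.1 (Nat.pair z.unpair.2.unpair.1.unpair.2 z.unpair.2.unpair.2)),
    ?_, fun n => ?_⟩
  · have h1 : TR O (fun z : ℕ => Nat.pair z.unpair.1 (Nat.pair z.unpair.2.unpair.1.unpair.2
        z.unpair.2.unpair.2)) := TR.pair (TR.left TR.id)
      (TR.pair (TR.right (TR.left (TR.right TR.id))) (TR.right (TR.right TR.id)))
    exact TR.ite (TR.left (TR.left (TR.right TR.id))) (hR.comp h1) (hS.comp h1)
  · simp only [Nat.unpair_pair]
    constructor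
    · rintro (h | h)
      · obtain ⟨a, ha⟩ := (hp n).1 h
        refine ⟨Nat.pair 0 a, fun b => ?_⟩
        simp only [Nat.unpair_pair, if_true, ha]
      · obtain ⟨a, ha⟩ := (hq n).1 h
        refine ⟨Nat.pair 1 a, fun b => ?_⟩
        simp only [Nat.unpair_pair, one_ne_zero, if_false, ha]
    · rintro ⟨c, h⟩
      by_cases hc : c.unpair.1 = 0
      · left
        refine (hp n).2 ⟨c.unpair.2, fun b => ?_⟩
        have h1 := h b
        rwa [if_pos hc] at h1
      · right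
        refine (hq n).2 ⟨c.unpair.2, fun b => ?_⟩
        have h1 := h b
        rwa [if_neg hc] at h1

end Pool.Agent.Helper82.NL
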