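import Pool.Agent.Helper82.NL.SG1b

/-!
Closure properties of `Σ₂` predicates relative to oracles (project NL, MP_3235d4_lc).
-/

namespace Pool.Agent.Helper82.NL

variable {O : Set (ℕ →. ℕ)}

/-- Bounded quantification: the witnesses are collected in a coded list (`exists_code`); the
matrix is `∀ i < k n, R (pair (pair n i) (pair (ent L i) b)) = 0`, see `TR.sum`. -/
theorem SG.ball {p : ℕ → Prop} (hp : SG O p) {k : ℕ → ℕ} (hk : TR O k) :
    SG O (fun n => ∀ i < k n, p (Nat.pair n i)) := by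
  obtain ⟨R, hR, hpR⟩ := hp
  have hz : TR O (fun w : ℕ => w.unpair.1) := TR.left TR.id
  have hi : TR O (fun w : ℕ => w.unpair.2) := TR.right TR.id
  have hn : TR O (fun w : ℕ => w.unpair.1.unpair.1) := TR.left hz
  have hL : TR O (fun w : ℕ => w.unpair.1.unpair.2.unpair.1) := TR.left (TR.right hz)
  have hb : TR O (fun w : ℕ => w.unpair.1.unpair.2.unpair.2) := TR.right (TR.right hz)
  have hr : TR O (fun w : ℕ => R (Nat.pair (Nat.pair w.unpair.1.unpair.1 w.unpair.2)
      (Nat.pair (ent w.unpair.1.unpair.2.unpair.1 w.unpair.2)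
        w.unpair.1.unpair.2.unpair.2))) :=
    hR.comp (TR.pair (TR.pair hn hi) (TR.pair (TR.op ent_prim hL hi) hb))
  refine ⟨_, TR.sum (hk.comp (TR.left TR.id)) hr, fun n => ?_⟩
  simp only [Finset.sum_eq_zero_iff, Finset.mem_range, Nat.unpair_pair]
  constructor
  · intro h
    have h1 : ∀ i, ∃ a, i < k n → ∀ b, R (Nat.pair (Nat.pair n i) (Nat.pair a b)) = 0 := by
      intro i
      by_cases hi : i < k n
      · obtain ⟨a, ha⟩ := (hpR _).1 (h i hi)
        exact ⟨a, fun _ => ha⟩
      · exact ⟨0, fun h => absurd h hi⟩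
    choose s hs using h1
    obtain ⟨L, -, hL⟩ := exists_code s (k n)
    refine ⟨L, fun b i hi => ?_⟩
    rw [hL i hi]
    exact hs i hi b
  · rintro ⟨L, hL⟩ i hi
    exact (hpR _).2 ⟨ent L i, fun b => hL b i hi⟩

end Pool.Agent.Helper82.NL
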