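import Pool.Agent.Helper82.NL.Defs

/-!
Total functions recursive in a set of oracles (project NL, MP_3235d4_lc).
-/

namespace Pool.Agent.Helper82.NL

variable {O : Set (ℕ →. ℕ)}

theorem TR.of_eq {f g : ℕ → ℕ} (hf : TR O f) (h : ∀ n, f n = g n) : TR O g := by
  have : f = g := funext h
  rw [← this]; exact hf

theorem TR.of_comp {f : ℕ → ℕ} (hf : Computable f) : TR O f := by
  have h : Nat.Partrec (fun n => Part.some (f n)) := Partrec.nat_iff.1 hf
  exact h.recursiveIn

theorem TR.of_prim {f : ℕ → ℕ} (hf : Primrec f) : TR O f := TR.of_comp hf.to_comp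

theorem TR.oracle {f : ℕ → ℕ} : TR {fun n => Part.some (f n)} f :=
  Nat.RecursiveIn.oracle _ rfl

theorem TR.comp {f g : ℕ → ℕ} (hf : TR O f) (hg : TR O g) : TR O (fun n => f (g n)) := by
  refine Nat.RecursiveIn.of_eq (Nat.RecursiveIn.comp hf hg) (fun n => ?_)
  exact Part.bind_some _ _

theorem TR.pair {f g : ℕ → ℕ} (hf : TR O f) (hg : TR O g) :
    TR O (fun n => Nat.pair (f n) (g n)) := by
  refine Nat.RecursiveIn.of_eq (Nat.RecursiveIn.pair hf hg) (fun n => ?_)
  simp [Seq.seq]

theorem TR.id : TR O (fun n => n) := TR.of_comp Computable.id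

theorem TR.const (c : ℕ) : TR O (fun _ => c) := TR.of_comp (Computable.const c)

theorem TR.left {f : ℕ → ℕ} (hf : TR O f) : TR O (fun n => (f n).unpair.1) :=
  TR.comp (f := fun n => n.unpair.1) (TR.of_prim (Primrec.fst.comp Primrec.unpair)) hf

theorem TR.right {f : ℕ → ℕ} (hf : TR O f) : TR O (fun n => (f n).unpair.2) :=
  TR.comp (f := fun n => n.unpair.2) (TR.of_prim (Primrec.snd.comp Primrec.unpair)) hf

theorem TR.op {h : ℕ → ℕ → ℕ} (hh : Primrec₂ h) {f g : ℕ → ℕ} (hf : TR O f) (hg : TR O g) :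
    TR O (fun n => h (f n) (g n)) := by
  have h1 : Primrec (fun z : ℕ => h z.unpair.1 z.unpair.2) :=
    hh.comp (Primrec.fst.comp Primrec.unpair) (Primrec.snd.comp Primrec.unpair)
  refine ((TR.of_prim h1).comp (hf.pair hg)).of_eq fun n => ?_
  simp

theorem TR.add {f g : ℕ → ℕ} (hf : TR O f) (hg : TR O g) : TR O (fun n => f n + g n) :=
  TR.op Primrec.nat_add hf hg

theorem TR.mul {f g : ℕ → ℕ} (hf : TR O f) (hg : TR O g) : TR O (fun n => f n * g n) :=
  TR.op Primrec.nat_mul hf hg

theorem TR.sub {f g : ℕ → ℕ} (hf : TR O f) (hg : TR O g) : TR O (fun n => f n - g n) :=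
  TR.op Primrec.nat_sub hf hg

theorem TR.div {f g : ℕ → ℕ} (hf : TR O f) (hg : TR O g) : TR O (fun n => f n / g n) :=
  TR.op Primrec.nat_div hf hg

theorem TR.mod {f g : ℕ → ℕ} (hf : TR O f) (hg : TR O g) : TR O (fun n => f n % g n) :=
  TR.op Primrec.nat_mod hf hg

theorem TR.prec {f h : ℕ → ℕ} (hf : TR O f) (hh : TR O h) :
    TR O (fun p => Nat.rec (f (Nat.unpair p).1)
      (fun y i => h (Nat.pair (Nat.unpair p).1 (Nat.pair y i))) (Nat.unpair p).2) := by
  refine Nat.RecursiveIn.of_eq (Nat.RecursiveIn.prec hf hh) (fun p => ?_)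
  simp only
  induction (Nat.unpair p).2 with
  | zero => rfl
  | succ n ih =>
    simp only at ih ⊢
    rw [ih]
    simp

/-- Primitive recursion with a parameter. -/
theorem TR.natrec {k f : ℕ → ℕ} {h : ℕ → ℕ → ℕ → ℕ} (hk : TR O k) (hf : TR O f)
    (hh : TR O (fun z => h z.unpair.1 z.unpair.2.unpair.1 z.unpair.2.unpair.2)) :
    TR O (fun n => Nat.rec (f n) (fun y i => h n y i) (k n)) := by
  refine ((TR.prec hf hh).comp (TR.id.pair hk)).of_eq fun n => ?_
  simp only [Nat.unpair_pair]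

theorem TR.pow {f g : ℕ → ℕ} (hf : TR O f) (hg : TR O g) : TR O (fun n => f n ^ g n) := by
  have h1 : TR O (fun n => Nat.rec 1 (fun _ i => i * f n) (g n)) := by
    refine TR.natrec (h := fun n _ i => i * f n) hg (TR.const 1) ?_
    exact TR.mul (TR.right (TR.right TR.id)) (hf.comp (TR.left TR.id))
  refine h1.of_eq fun n => ?_
  generalize g n = m
  induction m with
  | zero => simp
  | succ m ih =>
    simp only at ih ⊢
    rw [ih, pow_succ]

theorem TR.sum {k r : ℕ → ℕ} (hk : TR O k) (hr : TR O r) :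
    TR O (fun n => ∑ i ∈ Finset.range (k n), r (Nat.pair n i)) := by
  have h1 : TR O (fun n => Nat.rec 0 (fun y i => i + r (Nat.pair n y)) (k n)) := by
    refine TR.natrec (h := fun n y i => i + r (Nat.pair n y)) hk (TR.const 0) ?_
    exact TR.add (TR.right (TR.right TR.id))
      (hr.comp (TR.pair (TR.left TR.id) (TR.left (TR.right TR.id))))
  refine h1.of_eq fun n => ?_
  generalize k n = m
  induction m with
  | zero => simp
  | succ m ih =>
    simp only at ih ⊢
    rw [ih, Finset.sum_range_succ]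

/-- Choice according to whether `c n` is zero. -/
theorem TR.ite {c f g : ℕ → ℕ} (hc : TR O c) (hf : TR O f) (hg : TR O g) :
    TR O (fun n => if c n = 0 then f n else g n) := by
  refine (TR.add (TR.mul (TR.sub (TR.const 1) hc) hf)
    (TR.mul (TR.sub (TR.const 1) (TR.sub (TR.const 1) hc)) hg)).of_eq fun n => ?_
  by_cases h : c n = 0
  · simp [h]
  · have h1 : 1 - c n = 0 := by omega
    simp [h, h1]

/-- The test `∀ i < k n, r (n, i) = 0`, with value `0` for true and `1` for false. -/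
theorem TR.ball {k r : ℕ → ℕ} (hk : TR O k) (hr : TR O r) :
    ∃ s : ℕ → ℕ, TR O s ∧ ∀ n, s n = 0 ↔ ∀ i < k n, r (Nat.pair n i) = 0 := by
  refine ⟨_, TR.sum hk hr, fun n => ?_⟩
  rw [Finset.sum_eq_zero_iff]
  simp

/-- Unbounded search. -/
theorem TR.rfind {f : ℕ → ℕ} (hf : TR O f) (hex : ∀ a, ∃ n, f (Nat.pair a n) = 0) :
    ∃ g : ℕ → ℕ, TR O g ∧ ∀ a, f (Nat.pair a (g a)) = 0 ∧ ∀ m < g a, f (Nat.pair a m) ≠ 0 := by
  classical
  refine ⟨fun a => Nat.find (hex a), ?_, fun a => ⟨Nat.find_spec (hex a),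
    fun m hm => Nat.find_min (hex a) hm⟩⟩
  refine Nat.RecursiveIn.of_eq (Nat.RecursiveIn.rfind hf) (fun a => ?_)
  rw [Part.eq_some_iff, Nat.mem_rfind]
  refine ⟨?_, fun {m} hm => ?_⟩
  · simp [Nat.find_spec (hex a)]
  · have := Nat.find_min (hex a) hm
    simp [this]

theorem TR.trans {h f : ℕ → ℕ} (hf : TR {fun n => Part.some (h n)} f) (hh : TR O h) : TR O f := by
  refine Nat.RecursiveIn.subst hf ?_
  intro g hg
  have hg' : g = (fun n => Part.some (h n) : ℕ →. ℕ) := hg
  rw [hg']
  exact hh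

theorem TR.mono {O' : Set (ℕ →. ℕ)} {f : ℕ → ℕ} (hf : TR O f) (hO : O ⊆ O') : TR O' f :=
  Nat.RecursiveIn.subst hf fun g hg => Nat.RecursiveIn.oracle g (hO hg)

theorem TR.to_computable {f : ℕ → ℕ} (hf : TR ∅ f) : Computable f := by
  have h : Nat.Partrec (fun n => Part.some (f n)) :=
    Nat.RecursiveIn.partrec_of_oracle (O := ∅) (fun g hg => absurd hg (Set.notMem_empty g)) hf
  exact Partrec.nat_iff.2 h

theorem tr_iff_turing {g f : ℕ → ℕ} : TR {fun m => Part.some (g m)} f ↔
    TuringReducible (fun m => Part.some (f m)) (fun m => Part.some (g m)) := by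
  exact RecursiveIn.iff_nat.symm

/-- Finite tables are computable. -/
theorem TR.table {f : ℕ → ℕ} (n : ℕ) (hf : ∀ m, n ≤ m → f m = 0) : TR O f := by
  induction n generalizing f with
  | zero => exact (TR.const 0).of_eq fun m => (hf m (Nat.zero_le m)).symm
  | succ n ih =>
    have h1 : TR O (fun m => if m = n then 0 else f m) := by
      apply ih
      intro m hm
      by_cases h : m = n
      · simp [h]
      · simp only [h, if_false]
        exact hf m (by omega)
    have h2 : TR O (fun m => (m - n) + (n - m)) :=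
      TR.add (TR.sub TR.id (TR.const n)) (TR.sub (TR.const n) TR.id)
    refine (TR.ite h2 (TR.const (f n)) h1).of_eq fun m => ?_
    by_cases h : m = n
    · simp [h]
    · have h3 : ¬ ((m - n) + (n - m) = 0) := by omega
      rw [if_neg h3, if_neg h]

end Pool.Agent.Helper82.NL
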