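import Pool.Agent.Helper82.NL.Defs

/-!
Compactness of a union of leaves which converge to a limit leaf (project NL, MP_3235d4_lc).
-/

namespace Pool.Agent.Helper82.NL

/-- Compactness of a convergent family of compact sets. Proof: for an open cover take a finite
subcover of the compact set `range (F none)`; its union `U` contains the `δ`-thickening of that
range (`IsCompact.exists_thickening_subset_open`), so it contains the range of `F (some j)` for all
`j ≥ J`; the finitely many other ranges are compact. (Shorter: `range = (range (F none) ∪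
⋃ j < J, range (F (some j))) ∪ rest`, or use `isCompact_of_finite_subcover`.) -/
theorem isCompact_leaves {E : Type} [MetricSpace E] (F : Option ℕ → KK → E)
    (hc : ∀ o, Continuous (F o)) (ν : ℕ → KK → KK)
    (conv : ∀ ε > 0, ∃ J, ∀ j ≥ J, ∀ κ, dist (F (some j) κ) (F none (ν j κ)) < ε) :
    IsCompact {p | ∃ o κ, F o κ = p} := by
  classical
  refine isCompact_of_finite_subcover fun {ι} U hU hs => ?_
  have hsub : ∀ o, Set.range (F o) ⊆ ⋃ i, U i := by
    rintro o _ ⟨κ, rfl⟩
    exact hs ⟨o, κ, rfl⟩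
  have h0 : IsCompact (Set.range (F none)) := isCompact_range (hc none)
  obtain ⟨t0, ht0⟩ := h0.elim_finite_subcover U hU (hsub none)
  have hW : IsOpen (⋃ i ∈ t0, U i) := isOpen_biUnion fun i _ => hU i
  obtain ⟨δ, hδ, hδ'⟩ := h0.exists_thickening_subset_open hW ht0
  obtain ⟨J, hJ⟩ := conv δ hδ
  have h1 : IsCompact (⋃ j ∈ Finset.range J, Set.range (F (some j))) :=
    (Finset.range J).isCompact_biUnion fun j _ => isCompact_range (hc (some j))
  obtain ⟨t1, ht1⟩ := h1.elim_finite_subcover U hU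
    (Set.iUnion₂_subset fun j _ => hsub (some j))
  refine ⟨t0 ∪ t1, ?_⟩
  rintro p ⟨o, κ, rfl⟩
  have key : F o κ ∈ (⋃ i ∈ t0, U i) ∨ F o κ ∈ (⋃ i ∈ t1, U i) := by
    cases o with
    | none => exact Or.inl (ht0 ⟨κ, rfl⟩)
    | some j =>
      rcases lt_or_ge j J with h2 | h2
      · exact Or.inr (ht1 (Set.mem_iUnion₂.mpr ⟨j, Finset.mem_range.mpr h2, κ, rfl⟩))
      · exact Or.inl (hδ' (Metric.mem_thickening_iff.mpr ⟨_, ⟨ν j κ, rfl⟩, hJ j h2 κ⟩))
  rcases key with h2 | h2
  · obtain ⟨i, hi, h3⟩ := Set.mem_iUnion₂.mp h2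
    exact Set.mem_iUnion₂.mpr ⟨i, Finset.mem_union_left _ hi, h3⟩
  · obtain ⟨i, hi, h3⟩ := Set.mem_iUnion₂.mp h2
    exact Set.mem_iUnion₂.mpr ⟨i, Finset.mem_union_right _ hi, h3⟩

theorem Leafy.compactSpace {N : ℕ → ℕ} {Y : Type} [MetricSpace Y] {F : Option ℕ → KK → Y}
    (h : Leafy N F) : CompactSpace Y := by
  refine ⟨?_⟩
  have h1 := isCompact_leaves F h.cont (fun j => nu (N j)) h.conv
  have h2 : {p | ∃ o κ, F o κ = p} = (Set.univ : Set Y) := by
    ext y
    exact ⟨fun _ => Set.mem_univ _, fun _ => h.surj y⟩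
  rwa [h2] at h1

end Pool.Agent.Helper82.NL
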