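import Pool.Agent.Helper82.NL.Top1

/-!
Maps out of a space of leaves (project NL, MP_3235d4_lc).
-/

namespace Pool.Agent.Helper82.NL

theorem Rel.symm {o o' : Option ℕ} {κ κ' : KK} (h : Rel o κ o' κ') : Rel o' κ' o κ := by
  rcases h with ⟨h1, h2⟩ | ⟨h1, h2 | ⟨h2, h3⟩ | ⟨h2, h3⟩⟩
  · exact Or.inl ⟨h2, h1⟩
  · exact Or.inr ⟨h1.symm, Or.inl h2.symm⟩
  · exact Or.inr ⟨h1.symm, Or.inr (Or.inr ⟨h3, h2⟩)⟩
  · exact Or.inr ⟨h1.symm, Or.inr (Or.inl ⟨h3, h2⟩)⟩

/-- A leafwise defined map which respects the identifications and converges descends to a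
continuous map. Proof: the set `J = {(F o κ, φ o κ)} ⊆ Y × Z` is compact by `isCompact_leaves`
(the distance in the product is the max). The first projection `J → Y` is a continuous bijection
(`fib`, `compat`, `surj`) from a compact space to a Hausdorff space, so it has a continuous inverse;
compose with the second projection. -/
theorem Leafy.descend {N : ℕ → ℕ} {Y : Type} [MetricSpace Y] {F : Option ℕ → KK → Y}
    (h : Leafy N F) {Z : Type} [MetricSpace Z] (φ : Option ℕ → KK → Z)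
    (hc : ∀ o, Continuous (φ o)) (compat : ∀ o κ o' κ', Rel o κ o' κ' → φ o κ = φ o' κ')
    (conv : ∀ ε > 0, ∃ J, ∀ j ≥ J, ∀ κ, dist (φ (some j) κ) (φ none (nu (N j) κ)) < ε) :
    ∃ Φ : Y → Z, Continuous Φ ∧ ∀ o κ, Φ (F o κ) = φ o κ := by
  classical
  choose O K hOK using h.surj
  have hΦ : ∀ o κ, φ (O (F o κ)) (K (F o κ)) = φ o κ := fun o κ =>
    compat _ _ _ _ ((h.fib _ _ _ _).1 (hOK (F o κ)))
  refine ⟨fun y => φ (O y) (K y), ?_, hΦ⟩
  have hJ : IsCompact {p : Y × Z | ∃ o κ, (fun o κ => ((F o κ, φ o κ) : Y × Z)) o κ = p} := by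
    refine isCompact_leaves _ (fun o => (h.cont o).prodMk (hc o)) (fun j => nu (N j)) ?_
    intro ε hε
    obtain ⟨J1, h1⟩ := h.conv ε hε
    obtain ⟨J2, h2⟩ := conv ε hε
    refine ⟨max J1 J2, fun j hj κ => ?_⟩
    rw [Prod.dist_eq]
    exact max_lt (h1 j (le_trans (le_max_left _ _) hj) κ) (h2 j (le_trans (le_max_right _ _) hj) κ)
  rw [continuous_iff_isClosed]
  intro C hC
  have h3 : (fun y => φ (O y) (K y)) ⁻¹' C = Prod.fst ''
      ({p : Y × Z | ∃ o κ, (fun o κ => ((F o κ, φ o κ) : Y × Z)) o κ = p} ∩ Prod.snd ⁻¹' C) := by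
    ext y
    constructor
    · intro hy
      exact ⟨(F (O y) (K y), φ (O y) (K y)), ⟨⟨O y, K y, rfl⟩, hy⟩, hOK y⟩
    · rintro ⟨_, ⟨⟨o, κ, rfl⟩, h4⟩, rfl⟩
      change φ (O (F o κ)) (K (F o κ)) ∈ C
      rw [hΦ]
      exact h4
  rw [h3]
  exact ((hJ.inter_right (hC.preimage continuous_snd)).image continuous_fst).isClosed

end Pool.Agent.Helper82.NL
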