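import Pool.Agent.Helper82.NL.Top2a

/-!
Maps out of a space of leaves (project NL, MP_3235d4_lc).
-/

namespace Pool.Agent.Helper82.NL

/-- Two spaces of leaves with the same winding numbers are homeomorphic: descend `F'` to
`Y → Y'` and `F` to `Y' → Y`. -/
theorem Leafy.homeo {N : ℕ → ℕ} {Y Y' : Type} [MetricSpace Y] [MetricSpace Y']
    {F : Option ℕ → KK → Y} {F' : Option ℕ → KK → Y'} (h : Leafy N F) (h' : Leafy N F') :
    Nonempty (Y ≃ₜ Y') := by
  obtain ⟨Φ, hΦc, hΦ⟩ := h.descend F' h'.cont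
    (fun o κ o' κ' hr => (h'.fib o κ o' κ').mpr hr) h'.conv
  obtain ⟨Ψ, hΨc, hΨ⟩ := h'.descend F h.cont
    (fun o κ o' κ' hr => (h.fib o κ o' κ').mpr hr) h.conv
  refine ⟨⟨⟨Φ, Ψ, ?_, ?_⟩, hΦc, hΨc⟩⟩
  · intro y
    obtain ⟨o, κ, rfl⟩ := h.surj y
    rw [hΦ, hΨ]
  · intro y
    obtain ⟨o, κ, rfl⟩ := h'.surj y
    rw [hΨ, hΦ]

/-- Transport along a homeomorphism: it is uniformly continuous because `Y` is compact. -/
theorem Leafy.map {N : ℕ → ℕ} {Y Y' : Type} [MetricSpace Y] [MetricSpace Y']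
    {F : Option ℕ → KK → Y} (h : Leafy N F) (e : Y ≃ₜ Y') : Leafy N (fun o κ => e (F o κ)) := by
  have := h.compactSpace
  have huc : UniformContinuous e := CompactSpace.uniformContinuous_of_continuous e.continuous
  refine ⟨fun o => e.continuous.comp (h.cont o), ?_, ?_, ?_⟩
  · intro o κ o' κ'
    exact e.injective.eq_iff.trans (h.fib o κ o' κ')
  · intro y
    obtain ⟨o, κ, hy⟩ := h.surj (e.symm y)
    exact ⟨o, κ, by simp [hy]⟩
  · intro ε hε
    obtain ⟨δ, hδ, H⟩ := Metric.uniformContinuous_iff.mp huc ε hε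
    obtain ⟨J, hJ⟩ := h.conv δ hδ
    exact ⟨J, fun j hj κ => H (hJ j hj κ)⟩

end Pool.Agent.Helper82.NL
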