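import Pool.Agent.Helper82.NL.Top2b

/-!
Maps out of a space of leaves (project NL, MP_3235d4_lc).
-/

namespace Pool.Agent.Helper82.NL

/-- Renumbering of the leaves. -/
theorem Leafy.perm {N N' : ℕ → ℕ} {Y : Type} [MetricSpace Y] {F : Option ℕ → KK → Y}
    (h : Leafy N F) (π : ℕ ≃ ℕ) (hπ : ∀ j, N' (π j) = N j) :
    Leafy N' (fun o κ => F (o.map π.symm) κ) := by
  refine ⟨fun o => h.cont _, fun o κ o' κ' => ?_, fun y => ?_, fun ε hε => ?_⟩
  · rw [h.fib]
    have h1 : o.map π.symm = o'.map π.symm ↔ o = o' :=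
      (Option.map_injective π.symm.injective).eq_iff
    unfold Rel
    rw [h1]
  · obtain ⟨o, κ, rfl⟩ := h.surj y
    refine ⟨o.map π, κ, ?_⟩
    have h1 : (o.map π).map π.symm = o := by
      cases o <;> simp
    simp only [h1]
  · obtain ⟨J, hJ⟩ := h.conv ε hε
    refine ⟨(∑ i ∈ Finset.range J, π i) + 1, fun j hj κ => ?_⟩
    have h1 : J ≤ π.symm j := by
      by_contra hc
      push Not at hc
      have h2 : π (π.symm j) ≤ ∑ i ∈ Finset.range J, π i :=
        Finset.single_le_sum (f := fun i => π i) (fun _ _ => Nat.zero_le _)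
          (Finset.mem_range.mpr hc)
      rw [π.apply_symm_apply] at h2
      omega
    have h3 := hJ (π.symm j) h1 κ
    have h4 : N' j = N (π.symm j) := by rw [← hπ, π.apply_symm_apply]
    rw [h4]
    exact h3

/-- The image of a family of leaves in a metric space. -/
theorem leafy_range {N : ℕ → ℕ} {E : Type} [MetricSpace E] (F : Option ℕ → KK → E)
    (hc : ∀ o, Continuous (F o)) (hf : ∀ o κ o' κ', F o κ = F o' κ' ↔ Rel o κ o' κ')
    (conv : ∀ ε > 0, ∃ J, ∀ j ≥ J, ∀ κ, dist (F (some j) κ) (F none (nu (N j) κ)) < ε) :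
    Leafy N (fun o κ => (⟨F o κ, o, κ, rfl⟩ : {p : E // ∃ o κ, F o κ = p})) := by
  refine ⟨fun o => (hc o).subtype_mk _, fun o κ o' κ' => ?_, ?_, conv⟩
  · rw [Subtype.mk.injEq]
    exact hf o κ o' κ'
  · rintro ⟨y, o, κ, h⟩
    exact ⟨o, κ, Subtype.ext h⟩

end Pool.Agent.Helper82.NL
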