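import Pool.Agent.Helper82.NL.Top3

/-!
The model is path connected and has Hausdorff dimension one (project NL, MP_3235d4_lc).
-/

namespace Pool.Agent.Helper82.NL

/-- Each leaf `range (Xmap N o)` is path connected (circle and segment meet in
`Xmap N o (inl 0) = Xmap N o (inr 0)`) and contains the apex `(2, 0)`. -/
theorem XX_pathConnected (N : ℕ → ℕ) : IsPathConnected (XX N) := by
  have : PathConnectedSpace unitInterval := isPathConnected_iff_pathConnectedSpace.1
    ((convex_Icc (0 : ℝ) 1).isPathConnected ⟨0, by simp⟩)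
  have hC : ∀ o, IsPathConnected (Set.range (fun z : UnitAddCircle => Xmap N o (Sum.inl z))) :=
    fun o => isPathConnected_range ((Xmap_cont N o).comp continuous_inl)
  have hS : ∀ o, IsPathConnected (Set.range (fun t : unitInterval => Xmap N o (Sum.inr t))) :=
    fun o => isPathConnected_range ((Xmap_cont N o).comp continuous_inr)
  have hU : ∀ o, IsPathConnected (Set.range (fun z : UnitAddCircle => Xmap N o (Sum.inl z)) ∪
      Set.range (fun t : unitInterval => Xmap N o (Sum.inr t))) := by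
    intro o
    refine (hC o).union (hS o) ⟨Xmap N o (Sum.inl 0), ⟨0, rfl⟩, 0, ?_⟩
    exact (Xmap_fib N o (Sum.inr 0) o (Sum.inl 0)).2 (Or.inr ⟨rfl, Or.inr (Or.inr ⟨rfl, rfl⟩)⟩)
  have hsub : ∀ o, (Set.range (fun z : UnitAddCircle => Xmap N o (Sum.inl z)) ∪
      Set.range (fun t : unitInterval => Xmap N o (Sum.inr t))) ⊆ XX N := by
    rintro o p (⟨z, rfl⟩ | ⟨t, rfl⟩)
    · exact ⟨o, _, rfl⟩
    · exact ⟨o, _, rfl⟩
  refine ⟨Xmap N none (Sum.inr 1), ⟨none, _, rfl⟩, ?_⟩
  rintro y ⟨o, κ, rfl⟩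
  have hx : Xmap N none (Sum.inr 1) ∈ (Set.range (fun z : UnitAddCircle => Xmap N o (Sum.inl z)) ∪
      Set.range (fun t : unitInterval => Xmap N o (Sum.inr t))) :=
    Or.inr ⟨1, (Xmap_fib N o (Sum.inr 1) none (Sum.inr 1)).2 (Or.inl ⟨rfl, rfl⟩)⟩
  have hy : Xmap N o κ ∈ (Set.range (fun z : UnitAddCircle => Xmap N o (Sum.inl z)) ∪
      Set.range (fun t : unitInterval => Xmap N o (Sum.inr t))) := by
    rcases κ with z | t
    · exact Or.inl ⟨z, rfl⟩
    · exact Or.inr ⟨t, rfl⟩
  exact ((hU o).joinedIn _ hx _ hy).mono (hsub o)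

end Pool.Agent.Helper82.NL
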