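import Pool.Agent.Helper82.NL.Top4a

/-!
The model is path connected and has Hausdorff dimension one (project NL, MP_3235d4_lc).
-/

namespace Pool.Agent.Helper82.NL

/-- The pieces of the model, extended to the real line. -/
private noncomputable def Top4b_g (N : ℕ → ℕ) : Option ℕ → Bool → ℝ → ℂ × ℂ
  | none, false, x => (Complex.exp (2 * Real.pi * Complex.I * x), 0)
  | none, true, x => (1 + (x : ℂ), 0)
  | some j, false, x => (Complex.exp (2 * Real.pi * Complex.I * (N j * x)),
      (1 / 2) ^ j * Complex.exp (2 * Real.pi * Complex.I * x))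
  | some j, true, x => (1 + (x : ℂ), (1 / 2) ^ j * (1 - (x : ℂ)))

private theorem Top4b_ofReal : ContDiff ℝ 1 (fun x : ℝ => (x : ℂ)) := Complex.ofRealCLM.contDiff

private theorem Top4b_smooth (N : ℕ → ℕ) (o : Option ℕ) (b : Bool) :
    ContDiff ℝ 1 (Top4b_g N o b) := by
  have h := Top4b_ofReal
  have hexp : ∀ c : ℂ, ContDiff ℝ 1 (fun x : ℝ => Complex.exp (2 * Real.pi * Complex.I * (c * x))) :=
    fun c => (contDiff_const.mul (contDiff_const.mul h)).cexp
  have hexp1 : ContDiff ℝ 1 (fun x : ℝ => Complex.exp (2 * Real.pi * Complex.I * x)) :=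
    (contDiff_const.mul h).cexp
  rcases o with _ | j <;> cases b
  · exact hexp1.prodMk contDiff_const
  · exact (contDiff_const.add h).prodMk contDiff_const
  · exact (hexp (N j)).prodMk (contDiff_const.mul hexp1)
  · exact (contDiff_const.add h).prodMk (contDiff_const.mul (contDiff_const.sub h))

private theorem Top4b_circle (x : ℝ) :
    ((AddCircle.toCircle (x : UnitAddCircle) : Circle) : ℂ) =
      Complex.exp (2 * Real.pi * Complex.I * x) := by
  rw [AddCircle.toCircle_apply_mk, Circle.coe_exp]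
  congr 1
  push_cast
  ring

private theorem Top4b_smul (n : ℕ) (x : ℝ) :
    ((AddCircle.toCircle (n • (x : UnitAddCircle)) : Circle) : ℂ) =
      Complex.exp (2 * Real.pi * Complex.I * (n * x)) := by
  rw [← AddCircle.coe_nsmul, Top4b_circle]
  congr 1
  rw [nsmul_eq_mul]
  push_cast
  ring

private theorem Top4b_sub (N : ℕ → ℕ) :
    XX N ⊆ ⋃ i : Option ℕ × Bool, Set.range (Top4b_g N i.1 i.2) := by
  rintro p ⟨o, κ, rfl⟩
  rcases κ with z | t
  · obtain ⟨x, hx⟩ : ∃ x : ℝ, (x : UnitAddCircle) = z := QuotientAddGroup.mk_surjective z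
    subst hx
    refine Set.mem_iUnion.2 ⟨(o, false), x, ?_⟩
    rcases o with _ | j
    · simp only [Top4b_g, Xmap, Top4b_circle]
    · simp only [Top4b_g, Xmap, Top4b_circle, Top4b_smul]
  · refine Set.mem_iUnion.2 ⟨(o, true), (t : ℝ), ?_⟩
    rcases o with _ | j
    · simp only [Top4b_g, Xmap]
    · simp only [Top4b_g, Xmap]

/-- `XX N` is a countable union of images of `[0,1]` and of circles under `C^1` maps (`dimH_iUnion`,
`ContDiffOn.dimH_image_le` or `LipschitzWith.dimH_image_le`, `Real.dimH_univ`), and it contains the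
isometric image of a segment. -/
theorem XX_dimH (N : ℕ → ℕ) : dimH (XX N) = 1 := by
  apply le_antisymm
  · refine (dimH_mono (Top4b_sub N)).trans ?_
    rw [dimH_iUnion]
    refine iSup_le fun i => ?_
    refine (Top4b_smooth N i.1 i.2).dimH_range_le.trans ?_
    simp
  · have hiso : Isometry (fun t : ℝ => ((1 + (t : ℂ), 0) : ℂ × ℂ)) := by
      refine Isometry.of_dist_eq fun s t => ?_
      rw [Prod.dist_eq]
      simp [dist_eq_norm, ← Complex.ofReal_sub]
    have h1 : dimH ((fun t : ℝ => ((1 + (t : ℂ), 0) : ℂ × ℂ)) '' Set.Icc (0 : ℝ) 1) = 1 := by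
      rw [hiso.dimH_image, Real.dimH_of_nonempty_interior]
      · simp
      · rw [interior_Icc]
        exact Set.nonempty_Ioo.2 one_pos
    rw [← h1]
    apply dimH_mono
    rintro _ ⟨t, ht, rfl⟩
    exact ⟨none, Sum.inr ⟨t, ht⟩, rfl⟩

end Pool.Agent.Helper82.NL
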