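import Pool.Agent.Helper82.NL.SG1
import Pool.Agent.Helper82.NL.B3

/-!
The universal `Σ₂` sets and the family of finite sets (project NL, MP_3235d4_lc).
-/

namespace Pool.Agent.Helper82.NL

open Nat.Partrec (Code)

/-- The computation with index `n` does not halt on `(x, a)`. -/
def Hh (n x a : ℕ) : Prop := ¬ (Code.eval (Denumerable.ofNat Code n) (Nat.pair x a)).Dom

/-- The `Σ₂` set with index `n`. -/
def W (n : ℕ) : Set ℕ := {x | ∃ a, Hh n x a}

/-- The set `{2 i + b i}` where `b i = ent s i % 2` for `i < len s` are the bits of `s`. -/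
def cod (s : ℕ) : Set ℕ := {x | x / 2 < len s ∧ ent s (x / 2) % 2 = x % 2}

/-- The sets of the family: a label and a coded string. -/
def Vset (n s : ℕ) : Set ℕ := {y | y = 2 * n ∨ (y % 2 = 1 ∧ y / 2 ∈ cod s)}

theorem cod_finite (s : ℕ) : (cod s).Finite := by
  refine (Set.finite_Iio (2 * len s)).subset ?_
  rintro x ⟨hx, -⟩
  rw [Set.mem_Iio]
  omega

theorem Vset_finite (n s : ℕ) : (Vset n s).Finite := by
  refine ((Set.finite_singleton (2 * n)).union
    ((cod_finite s).image (fun y => 2 * y + 1))).subset ?_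
  rintro y (hy | ⟨hy, hy'⟩)
  · exact Or.inl hy
  · refine Or.inr ⟨y / 2, hy', ?_⟩
    change 2 * (y / 2) + 1 = y
    omega

/-- The winding numbers of the family. -/
noncomputable def NN (n s : ℕ) : ℕ := ∏ y ∈ (Vset_finite n s).toFinset, Fe y

theorem dvd_NN (n s x : ℕ) : Fe x ∣ NN n s ↔ x ∈ Vset n s := by
  constructor
  · intro h
    exact (Set.Finite.mem_toFinset _).1 (Fe_dvd_prod h)
  · intro h
    exact Finset.dvd_prod_of_mem _ ((Set.Finite.mem_toFinset _).2 h)

/-- The codes of `[]` and `[1]` have different sets. -/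
theorem exists_cod_ne (n : ℕ) : ∃ s, cod s ≠ W n := by
  obtain ⟨s0, h0, -⟩ := exists_code (fun _ => 0) 0
  obtain ⟨s1, h1, -⟩ := exists_code (fun _ => 0) 1
  by_contra hcon
  push Not at hcon
  have h2 : cod s1 = cod s0 := (hcon s1).trans (hcon s0).symm
  have h3 : ent s1 0 % 2 ∈ cod s1 := by
    have h4 : ent s1 0 % 2 / 2 = 0 := by omega
    refine ⟨by rw [h4, h1]; exact Nat.one_pos, ?_⟩
    rw [h4]
    omega
  rw [h2] at h3
  have h5 := h3.1
  rw [h0] at h5
  omega

end Pool.Agent.Helper82.NL
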