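import Pool.Agent.Helper82.NL.W1a

/-!
The universal `Σ₂` sets and the family of finite sets (project NL, MP_3235d4_lc).
-/

namespace Pool.Agent.Helper82.NL

open Nat.Partrec (Code)

/-- The value is `0` if the computation does not halt within the given time, and `1` otherwise. -/
private def W1b_r (w : ℕ) : ℕ :=
  cond (Code.evaln w.unpair.2 (Denumerable.ofNat Code w.unpair.1.unpair.1)
    w.unpair.1.unpair.2).isSome 1 0

private theorem W1b_r_prim : Primrec W1b_r := by
  have h1 : Primrec (fun w : ℕ => w.unpair.1) := Primrec.fst.comp Primrec.unpair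
  have h2 : Primrec (fun w : ℕ => w.unpair.2) := Primrec.snd.comp Primrec.unpair
  exact Primrec.cond (Primrec.option_isSome.comp (Code.primrec_evaln.comp
    ((h2.pair ((Primrec.ofNat Code).comp (h1.comp h1))).pair (h2.comp h1))))
    (Primrec.const 1) (Primrec.const 0)

private theorem W1b_iff (z : ℕ) :
    (¬ Hh z.unpair.1 z.unpair.2.unpair.1 z.unpair.2.unpair.2) ↔
      ∃ b, W1b_r (Nat.pair z b) = 1 := by
  have h1 : ∀ b, W1b_r (Nat.pair z b) = 1 ↔
      (Code.evaln b (Denumerable.ofNat Code z.unpair.1) z.unpair.2).isSome = true := by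
    intro b
    unfold W1b_r
    simp only [Nat.unpair_pair]
    cases (Code.evaln b (Denumerable.ofNat Code z.unpair.1) z.unpair.2).isSome <;> simp
  simp only [h1]
  unfold Hh
  rw [not_not, Nat.pair_unpair]
  constructor
  · intro h
    obtain ⟨y, hy⟩ := Part.dom_iff_mem.1 h
    obtain ⟨k, hk⟩ := Code.evaln_complete.1 hy
    exact ⟨k, Option.isSome_iff_exists.2 ⟨y, hk⟩⟩
  · rintro ⟨k, hk⟩
    obtain ⟨y, hy⟩ := Option.isSome_iff_exists.1 hk
    exact Part.dom_iff_mem.2 ⟨y, Code.evaln_complete.2 ⟨k, hy⟩⟩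

private theorem W1b_zero_or (w : ℕ) : W1b_r w = 0 ∨ W1b_r w = 1 := by
  unfold W1b_r
  cases (Code.evaln w.unpair.2 (Denumerable.ofNat Code w.unpair.1.unpair.1)
    w.unpair.1.unpair.2).isSome <;> simp

/-- Both `Hh` and its negation are `Σ₂` (it is `Π₁`), by `Nat.Partrec.Code.primrec_evaln` and
`Nat.Partrec.Code.evaln_complete`. -/
theorem Hh_SG (O : Set (ℕ →. ℕ)) :
    SG O (fun z => Hh z.unpair.1 z.unpair.2.unpair.1 z.unpair.2.unpair.2) := by
  refine (SG.pi (TR.of_prim W1b_r_prim)).of_iff fun z => ?_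
  have h1 := W1b_iff z
  constructor
  · intro h b
    rcases W1b_zero_or (Nat.pair z b) with h2 | h2
    · exact h2
    · exact absurd h (h1.2 ⟨b, h2⟩)
  · intro h
    by_contra h2
    obtain ⟨b, hb⟩ := h1.1 h2
    rw [h b] at hb
    exact absurd hb (by norm_num)

theorem not_Hh_SG (O : Set (ℕ →. ℕ)) :
    SG O (fun z => ¬ Hh z.unpair.1 z.unpair.2.unpair.1 z.unpair.2.unpair.2) := by
  refine (SG.sigma (TR.sub (TR.const 1) (TR.of_prim W1b_r_prim))).of_iff fun z => ?_
  rw [W1b_iff z]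
  constructor
  · rintro ⟨b, hb⟩
    exact ⟨b, by rw [hb]⟩
  · rintro ⟨b, hb⟩
    refine ⟨b, ?_⟩
    rcases W1b_zero_or (Nat.pair z b) with h2 | h2
    · rw [h2] at hb
      exact absurd hb (by norm_num)
    · exact h2

end Pool.Agent.Helper82.NL
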