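import Pool.Agent.Helper82.NL.W1b

/-!
The universal `Σ₂` sets and the family of finite sets (project NL, MP_3235d4_lc).
-/

namespace Pool.Agent.Helper82.NL

open Nat.Partrec (Code)

/-- The recursion theorem: `Nat.Partrec.Code.fixed_point₂` for the function which on the code `c`
and the argument `(x, a)` searches for `b` with
`R (pair (pair (encode c) (2 x + 1)) (pair a b)) ≠ 0`. -/
theorem fixpoint (U : ℕ → Set ℕ) (hU : SG ∅ (fun z => z.unpair.2 ∈ U z.unpair.1)) :
    ∃ n, W n = {x | 2 * x + 1 ∈ U n} := by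
  obtain ⟨R, hR, h⟩ := hU
  have hRc : Computable R := hR.to_computable
  let f : Code → ℕ →. ℕ := fun c m => Nat.rfind (fun b => Part.some
    (decide (R (Nat.pair (Nat.pair (Encodable.encode c) (2 * m.unpair.1 + 1))
      (Nat.pair m.unpair.2 b)) ≠ 0)))
  have hf : Partrec₂ f := by
    have h1 : Computable (fun q : (Code × ℕ) × ℕ =>
        R (Nat.pair (Nat.pair (Encodable.encode q.1.1) (2 * q.1.2.unpair.1 + 1))
          (Nat.pair q.1.2.unpair.2 q.2))) := by
      refine hRc.comp (Primrec₂.natPair.comp (Primrec₂.natPair.comp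
        (Primrec.encode.comp (Primrec.fst.comp Primrec.fst))
        (Primrec.nat_add.comp (Primrec.nat_mul.comp (Primrec.const 2)
          (Primrec.fst.comp (Primrec.unpair.comp (Primrec.snd.comp Primrec.fst))))
          (Primrec.const 1)))
        (Primrec₂.natPair.comp (Primrec.snd.comp (Primrec.unpair.comp
          (Primrec.snd.comp Primrec.fst))) Primrec.snd)).to_comp
    have h2 : Computable (fun q : (Code × ℕ) × ℕ =>
        decide (R (Nat.pair (Nat.pair (Encodable.encode q.1.1) (2 * q.1.2.unpair.1 + 1))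
          (Nat.pair q.1.2.unpair.2 q.2)) ≠ 0)) := by
      have h3 : Primrec (fun v : ℕ => decide (v ≠ 0)) :=
        (PrimrecPred.not (Primrec.eq.comp Primrec.id (Primrec.const 0))).decide
      exact h3.to_comp.comp h1
    have h4 : Partrec₂ (fun (q : Code × ℕ) (b : ℕ) => (Part.some
        (decide (R (Nat.pair (Nat.pair (Encodable.encode q.1) (2 * q.2.unpair.1 + 1))
          (Nat.pair q.2.unpair.2 b)) ≠ 0)) : Part Bool)) := h2.partrec
    exact Partrec.rfind h4
  obtain ⟨c, hc⟩ := Code.fixed_point₂ hf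
  refine ⟨Encodable.encode c, ?_⟩
  ext x
  change (∃ a, Hh (Encodable.encode c) x a) ↔ 2 * x + 1 ∈ U (Encodable.encode c)
  have h5 := h (Nat.pair (Encodable.encode c) (2 * x + 1))
  simp only [Nat.unpair_pair] at h5
  rw [h5]
  refine exists_congr fun a => ?_
  unfold Hh
  rw [Denumerable.ofNat_encode, hc]
  simp only [f, Nat.unpair_pair]
  rw [Nat.rfind_dom']
  simp

end Pool.Agent.Helper82.NL
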