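import Pool.Agent.Helper82.NL.W2c

/-!
The enumeration of the family relative to a `Σ₁` set which is not `Δ₂` (project NL, MP_3235d4_lc).
-/

namespace Pool.Agent.Helper82.NL

end Pool.Agent.Helper82.NL
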