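import Pool.Agent.Helper82.NL.W1
import Pool.Agent.Helper82.NL.A9

/-!
The enumeration of the family relative to a `Σ₁` set which is not `Δ₂` (project NL, MP_3235d4_lc).
-/

namespace Pool.Agent.Helper82.NL

/-- The stages of the set `W n`. -/
def Wt (n t x : ℕ) : Prop := x < t ∧ ∃ a < t, Hh n x a

open Classical in
/-- The code of the string of length `L` which extends the string `u` by bits of `Z`. -/
noncomputable def ext (Z : ℕ → Prop) (u L : ℕ) : ℕ :=
  Encodable.encode ((List.range L).map (fun i =>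
    if i < len u then ent u i % 2 else if Z i then 1 else 0))

theorem len_ext (Z : ℕ → Prop) (u L : ℕ) : len (ext Z u L) = L := by
  unfold len ext
  rw [Denumerable.ofNat_encode, List.length_map, List.length_range]

open Classical in
theorem ent_ext (Z : ℕ → Prop) (u : ℕ) {L i : ℕ} (h : i < L) :
    ent (ext Z u L) i = if i < len u then ent u i % 2 else if Z i then 1 else 0 := by
  have h1 : ent (ext Z u L) i = ((List.range L).map (fun i =>
      if i < len u then ent u i % 2 else if Z i then 1 else 0)).getD i 0 := by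
    unfold ext
    rw [ent, Denumerable.ofNat_encode]
  rw [h1, List.getD_eq_getElem _ _ (by rw [List.length_map, List.length_range]; exact h),
    List.getElem_map, List.getElem_range]

theorem cod_ext_self (Z : ℕ → Prop) (u : ℕ) : cod (ext Z u (len u)) = cod u := by
  ext x
  constructor
  · rintro ⟨h1, h2⟩
    rw [len_ext] at h1
    rw [ent_ext Z u h1, if_pos h1, Nat.mod_mod] at h2
    exact ⟨h1, h2⟩
  · rintro ⟨h1, h2⟩
    refine ⟨by rw [len_ext]; exact h1, ?_⟩
    rw [ent_ext Z u h1, if_pos h1, Nat.mod_mod]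
    exact h2

theorem cod_ext_mono (Z : ℕ → Prop) (u : ℕ) {L L' : ℕ} (h : L ≤ L') :
    cod (ext Z u L) ⊆ cod (ext Z u L') := by
  rintro x ⟨h1, h2⟩
  rw [len_ext] at h1
  refine ⟨by rw [len_ext]; exact lt_of_lt_of_le h1 h, ?_⟩
  rw [ent_ext Z u (lt_of_lt_of_le h1 h)]
  rw [ent_ext Z u h1] at h2
  exact h2

theorem mem_cod_ext (Z : ℕ → Prop) (u L x : ℕ) (h : len u ≤ x / 2) :
    x ∈ cod (ext Z u L) ↔ x / 2 < L ∧ (x % 2 = 1 ↔ Z (x / 2)) := by
  classical
  have h0 : x ∈ cod (ext Z u L) ↔ x / 2 < len (ext Z u L) ∧ ent (ext Z u L) (x / 2) % 2 = x % 2 :=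
    Iff.rfl
  rw [h0, len_ext]
  refine and_congr_right fun h1 => ?_
  rw [ent_ext Z u h1, if_neg (by omega)]
  by_cases hz : Z (x / 2)
  · rw [if_pos hz]
    constructor
    · intro h2
      exact ⟨fun _ => hz, fun _ => by omega⟩
    · intro h2
      have := h2.2 hz
      omega
  · rw [if_neg hz]
    constructor
    · intro h2
      exact ⟨fun h3 => by omega, fun h3 => absurd h3 hz⟩
    · intro h2
      have : x % 2 ≠ 1 := fun h3 => hz (h2.1 h3)
      omega

end Pool.Agent.Helper82.NL
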