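import Pool.Agent.Helper82.NL.W2a

/-!
The enumeration of the family relative to a `Σ₁` set which is not `Δ₂` (project NL, MP_3235d4_lc).
-/

namespace Pool.Agent.Helper82.NL

/-- The string `s` is final: it is not a stage of `W n` from `t0` on. -/
def Final (n t0 s : ℕ) : Prop := ∀ t ≥ t0, ¬ ∀ x, Wt n t x ↔ x ∈ cod s

/-- If `s` is final then it is not `W n`: a finite `W n` is equal to its stages from some time
on. -/
theorem ne_of_final {n t0 s : ℕ} (h : Final n t0 s) : cod s ≠ W n := by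
  classical
  intro he
  have hex : ∀ x, ∃ a, x ∈ cod s → Hh n x a := by
    intro x
    by_cases hx : x ∈ cod s
    · have hx' := hx
      rw [he] at hx'
      obtain ⟨a, ha⟩ := hx'
      exact ⟨a, fun _ => ha⟩
    · exact ⟨0, fun h' => absurd h' hx⟩
  choose g hg using hex
  set F := (cod_finite s).toFinset with hF
  have hle : ∀ x ∈ cod s, x ≤ F.sup id ∧ g x ≤ F.sup g := by
    intro x hx
    have hxF : x ∈ F := by
      rw [hF, Set.Finite.mem_toFinset]
      exact hx
    exact ⟨Finset.le_sup (f := id) hxF, Finset.le_sup (f := g) hxF⟩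
  refine h (t0 + F.sup id + F.sup g + 1) (by omega) fun x => ⟨?_, ?_⟩
  · rintro ⟨_, a, _, ha⟩
    rw [he]
    exact ⟨a, ha⟩
  · intro hx
    obtain ⟨h1, h2⟩ := hle x hx
    exact ⟨by omega, g x, by omega, hg x hx⟩

/-- If `cod s ≠ W n` then `s` is final for all large `t0`. -/
theorem final_of_ne {n s : ℕ} (h : cod s ≠ W n) : ∃ T, ∀ t0 ≥ T, Final n t0 s := by
  classical
  by_cases h1 : ∃ x, x ∈ W n ∧ x ∉ cod s
  · obtain ⟨x, ⟨a, ha⟩, hx⟩ := h1
    refine ⟨x + a + 1, fun t0 h0 t ht hall => hx ?_⟩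
    exact (hall x).1 ⟨by omega, a, by omega, ha⟩
  · have h2 : ∃ x, x ∈ cod s ∧ x ∉ W n := by
      by_contra hc
      refine h (Set.Subset.antisymm (fun x hx => ?_) (fun x hx => ?_))
      · by_contra hxW
        exact hc ⟨x, hx, hxW⟩
      · by_contra hxc
        exact h1 ⟨x, hx, hxc⟩
    obtain ⟨x, hx, hxW⟩ := h2
    refine ⟨0, fun t0 _ t _ hall => hxW ?_⟩
    obtain ⟨_, a, _, ha⟩ := (hall x).2 hx
    exact ⟨a, ha⟩

end Pool.Agent.Helper82.NL
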