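import Pool.Agent.Helper82.NL.W2b

/-!
The enumeration of the family relative to a `Σ₁` set which is not `Δ₂` (project NL, MP_3235d4_lc).
-/

namespace Pool.Agent.Helper82.NL

theorem W2c_sgW (n : ℕ) : SG ∅ (fun x => x ∈ W n) := by
  have h1 := (Hh_SG ∅).comp (f := fun z => Nat.pair n (Nat.pair z.unpair.1 z.unpair.2))
    ((TR.const n).pair ((TR.left TR.id).pair (TR.right TR.id)))
  refine h1.ex.of_iff fun x => ?_
  simp only [Nat.unpair_pair]
  rfl

/-- A set which agrees with a preimage of `W n` up to finitely many exceptions. -/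
theorem W2c_sg (n l : ℕ) (Y : ℕ → Prop) (f : ℕ → ℕ) (hf : TR ∅ f)
    (h : ∀ k, l ≤ k → (Y k ↔ f k ∈ W n)) : SG ∅ Y := by
  classical
  have h1 : TR ∅ (fun k => if k < l ∧ Y k then 1 else 0) := by
    refine TR.table l fun m hm => ?_
    rw [if_neg]
    omega
  have h2 : SG ∅ (fun k => 1 - (if k < l ∧ Y k then 1 else 0) = 0) :=
    SG.of_tr (TR.sub (TR.const 1) h1)
  have h3 : SG ∅ (fun k => l - k = 0) := SG.of_tr (TR.sub (TR.const l) TR.id)
  have h4 := (W2c_sgW n).comp hf
  refine (h2.or (h3.and h4)).of_iff fun k => ?_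
  by_cases hk : k < l
  · by_cases hY : Y k
    · simp [hk, hY]
    · have h5 : ¬ (l - k = 0) := by omega
      simp [hY, h5]
  · have h5 : l - k = 0 := by omega
    have h6 := h k (by omega)
    simp [hk, h5, h6]

/-- Otherwise `W n` is the increasing union of the sets `cod (ext Z u L)`, so `Z k` iff
`2 k + 1 ∈ W n` and `¬ Z k` iff `2 k ∈ W n` for `k ≥ len u`, and `Z` and its complement
are `Σ₂` (finitely many exceptions by `TR.table`). -/
theorem exists_final (Z : ℕ → Prop) (hZ : ¬ (SG ∅ Z ∧ SG ∅ (fun k => ¬ Z k))) (n u t0 : ℕ) :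
    ∃ L, len u ≤ L ∧ Final n t0 (ext Z u L) := by
  by_contra hcon
  push Not at hcon
  have hst : ∀ L, len u ≤ L → ∃ t, t0 ≤ t ∧ ∀ x, Wt n t x ↔ x ∈ cod (ext Z u L) := by
    intro L hL
    have h1 := hcon L hL
    unfold Final at h1
    push Not at h1
    exact h1
  have key : ∀ x, len u ≤ x / 2 → (x ∈ W n ↔ (x % 2 = 1 ↔ Z (x / 2))) := by
    intro x hx
    constructor
    · rintro ⟨a, ha⟩
      obtain ⟨t, -, ht⟩ := hst (x + a + 2) (by omega)
      have hlast : ∃ y, y / 2 = x + a + 1 ∧ (y % 2 = 1 ↔ Z (y / 2)) := by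
        by_cases hz : Z (x + a + 1)
        · refine ⟨2 * (x + a + 1) + 1, by omega, ?_⟩
          rw [show (2 * (x + a + 1) + 1) / 2 = x + a + 1 by omega]
          exact ⟨fun _ => hz, fun _ => by omega⟩
        · refine ⟨2 * (x + a + 1), by omega, ?_⟩
          rw [show (2 * (x + a + 1)) / 2 = x + a + 1 by omega]
          exact ⟨fun h => by omega, fun h => absurd h hz⟩
      obtain ⟨y, hy, hyZ⟩ := hlast
      have h2 : y ∈ cod (ext Z u (x + a + 2)) :=
        (mem_cod_ext Z u _ y (by omega)).2 ⟨by omega, hyZ⟩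
      have h3 := ((ht y).2 h2).1
      have h4 : Wt n t x := ⟨by omega, a, by omega, ha⟩
      exact ((mem_cod_ext Z u _ x hx).1 ((ht x).1 h4)).2
    · intro h
      obtain ⟨t, -, ht⟩ := hst (x / 2 + 1) (by omega)
      have h2 : x ∈ cod (ext Z u (x / 2 + 1)) := (mem_cod_ext Z u _ x hx).2 ⟨by omega, h⟩
      obtain ⟨-, a, -, ha⟩ := (ht x).2 h2
      exact ⟨a, ha⟩
  refine hZ ⟨W2c_sg n (len u) Z (fun k => 2 * k + 1)
    (TR.add (TR.mul (TR.const 2) TR.id) (TR.const 1)) fun k hk => ?_,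
    W2c_sg n (len u) (fun k => ¬ Z k) (fun k => 2 * k) (TR.mul (TR.const 2) TR.id) fun k hk => ?_⟩
  · rw [key (2 * k + 1) (by omega), show (2 * k + 1) / 2 = k by omega]
    exact ⟨fun h => ⟨fun _ => h, fun _ => by omega⟩, fun h => h.1 (by omega)⟩
  · rw [key (2 * k) (by omega), show (2 * k) / 2 = k by omega]
    exact ⟨fun h => ⟨fun h' => by omega, fun h' => absurd h' h⟩, fun h h' => by
      have := h.2 h'
      omega⟩

end Pool.Agent.Helper82.NL
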