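import Pool.Agent.Helper82.NL.W2

/-!
The enumeration of the family relative to a `Σ₁` set which is not `Δ₂` (project NL, MP_3235d4_lc).
-/

namespace Pool.Agent.Helper82.NL

open Classical in
/-- The length at which the string with start `u` stops. -/
noncomputable def Lst (Z : ℕ → Prop) (n u t0 : ℕ) : ℕ :=
  if h : ∃ L, len u ≤ L ∧ Final n t0 (ext Z u L) then Nat.find h else 0

/-- The sets of the enumeration: the index is `(n, (u, t0))`. -/
noncomputable def Vz (Z : ℕ → Prop) (j : ℕ) : Set ℕ :=
  Vset j.unpair.1 (ext Z j.unpair.2.unpair.1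
    (Lst Z j.unpair.1 j.unpair.2.unpair.1 j.unpair.2.unpair.2))

/-- Every set of the enumeration belongs to the family. -/
theorem Vz_family (Z : ℕ → Prop) (hZ : ¬ (SG ∅ Z ∧ SG ∅ (fun k => ¬ Z k))) (j : ℕ) :
    ∃ n s, cod s ≠ W n ∧ Vz Z j = Vset n s := by
  classical
  refine ⟨_, _, ?_, rfl⟩
  have h := exists_final Z hZ j.unpair.1 j.unpair.2.unpair.1 j.unpair.2.unpair.2
  unfold Lst
  rw [dif_pos h]
  exact ne_of_final (Nat.find_spec h).2

/-- Every set of the family has infinitely many indices `(n, (s, t0))` (`final_of_ne`,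
`cod_ext_self`). -/
theorem Vz_all (Z : ℕ → Prop) (n s : ℕ) (h : cod s ≠ W n) : {j | Vz Z j = Vset n s}.Infinite := by
  classical
  obtain ⟨T, hT⟩ := final_of_ne h
  have key : ∀ t0, T ≤ t0 → Vz Z (Nat.pair n (Nat.pair s t0)) = Vset n s := by
    intro t0 ht
    have hf : Final n t0 (ext Z s (len s)) := by
      intro t h1 h2
      refine hT t0 ht t h1 ?_
      rwa [cod_ext_self] at h2
    have hex : ∃ L, len s ≤ L ∧ Final n t0 (ext Z s L) := ⟨len s, le_rfl, hf⟩
    have hL : Lst Z n s t0 = len s := by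
      unfold Lst
      rw [dif_pos hex]
      exact le_antisymm (Nat.find_min' hex ⟨le_rfl, hf⟩) (Nat.find_spec hex).1
    unfold Vz
    simp only [Nat.unpair_pair]
    rw [hL]
    unfold Vset
    rw [cod_ext_self]
  have hinj : Function.Injective (fun i : ℕ => Nat.pair n (Nat.pair s (T + i))) := by
    intro i i' hii
    simp only [Nat.pair_eq_pair] at hii
    omega
  exact (Set.infinite_range_of_injective hinj).mono (by
    rintro _ ⟨i, rfl⟩
    exact key (T + i) (Nat.le_add_right T i))

end Pool.Agent.Helper82.NL
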