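import Pool.Agent.Helper82.NL.W3

/-!
The complexity of the enumeration of the family (project NL, MP_3235d4_lc).
-/

namespace Pool.Agent.Helper82.NL

variable {O : Set (ℕ →. ℕ)}

theorem dec_cod {x s : ℕ → ℕ} (hx : TR O x) (hs : TR O s) :
    Dec O (fun n => x n ∈ cod (s n)) := by
  have h2 : TR O (fun n => x n / 2) := TR.div hx (TR.const 2)
  have h1 : Dec O (fun n => x n / 2 + 1 ≤ len (s n)) :=
    Dec.le (TR.add h2 (TR.const 1)) ((TR.of_prim len_prim).comp hs)
  have h3 : Dec O (fun n => ent (s n) (x n / 2) % 2 = x n % 2) :=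
    Dec.eq (TR.mod (TR.op ent_prim hs h2) (TR.const 2)) (TR.mod hx (TR.const 2))
  exact (h1.and h3).of_iff fun n => Iff.rfl

theorem W4a_f : TR O (fun w => Nat.pair w.unpair.1.unpair.1
    (Nat.pair w.unpair.1.unpair.2.unpair.2 w.unpair.2)) :=
  TR.pair (TR.left (TR.left TR.id)) (TR.pair (TR.right (TR.right (TR.left TR.id)))
    (TR.right TR.id))

theorem Wt_SG : SG O (fun z => Wt z.unpair.1 z.unpair.2.unpair.1 z.unpair.2.unpair.2) := by
  have h1 : SG O (fun z : ℕ => z.unpair.2.unpair.2 + 1 ≤ z.unpair.2.unpair.1) :=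
    SG.of_dec (Dec.le (TR.add (TR.right (TR.right TR.id)) (TR.const 1))
      (TR.left (TR.right TR.id)))
  have h2 : SG O (fun w : ℕ => w.unpair.2 + 1 ≤ w.unpair.1.unpair.2.unpair.1) :=
    SG.of_dec (Dec.le (TR.add (TR.right TR.id) (TR.const 1))
      (TR.left (TR.right (TR.left TR.id))))
  have h3 := (Hh_SG O).comp (W4a_f (O := O))
  refine (h1.and (h2.and h3).ex).of_iff fun z => ?_
  simp only [Nat.unpair_pair]
  rfl

theorem not_Wt_SG : SG O (fun z => ¬ Wt z.unpair.1 z.unpair.2.unpair.1 z.unpair.2.unpair.2) := by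
  have h1 : SG O (fun z : ℕ => z.unpair.2.unpair.1 ≤ z.unpair.2.unpair.2) :=
    SG.of_dec (Dec.le (TR.left (TR.right TR.id)) (TR.right (TR.right TR.id)))
  have h3 := ((not_Hh_SG O).comp (W4a_f (O := O))).ball
    (TR.left (TR.right (TR.id (O := O))))
  refine (h1.or h3).of_iff fun z => ?_
  simp only [Nat.unpair_pair]
  unfold Wt
  constructor
  · intro h
    by_cases hx : z.unpair.2.unpair.1 ≤ z.unpair.2.unpair.2
    · exact Or.inl hx
    · right
      intro a ha hH
      exact h ⟨by omega, a, ha, hH⟩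
  · rintro (h | h) ⟨hx, a, ha, hH⟩
    · omega
    · exact h a ha hH

end Pool.Agent.Helper82.NL
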