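import Pool.Agent.Helper82.NL.W4a

/-!
The complexity of the enumeration of the family (project NL, MP_3235d4_lc).
-/

namespace Pool.Agent.Helper82.NL

variable {O : Set (ℕ →. ℕ)}

private theorem W4b_lenTR {s : ℕ → ℕ} (hs : TR O s) : TR O (fun n => len (s n)) :=
  (TR.of_prim len_prim).comp hs

private theorem W4b_stage (n t s : ℕ) : (∀ x, Wt n t x ↔ x ∈ cod s) ↔
    ∀ x < t + 2 * len s, (Wt n t x ∧ x ∈ cod s) ∨ (¬ Wt n t x ∧ ¬ x ∈ cod s) := by
  constructor
  · intro h x _
    by_cases hx : Wt n t x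
    · exact Or.inl ⟨hx, (h x).1 hx⟩
    · exact Or.inr ⟨hx, fun h' => hx ((h x).2 h')⟩
  · intro h x
    by_cases hx : x < t + 2 * len s
    · rcases h x hx with ⟨h1, h2⟩ | ⟨h1, h2⟩
      · exact ⟨fun _ => h2, fun _ => h1⟩
      · exact ⟨fun h' => absurd h' h1, fun h' => absurd h' h2⟩
    · constructor
      · intro h1
        have := h1.1
        omega
      · intro h1
        have := h1.1
        omega

/-- The stage `t` of `W n` is the set of the string `s`: `z = (n, (t, s))`. Only the numbers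
`x < t + 2 * len s` matter. -/
theorem stage_SG : SG O (fun z => ∀ x, Wt z.unpair.1 z.unpair.2.unpair.1 x ↔
    x ∈ cod z.unpair.2.unpair.2) := by
  have hn : TR O (fun w : ℕ => w.unpair.1.unpair.1) := TR.left (TR.left TR.id)
  have ht : TR O (fun w : ℕ => w.unpair.1.unpair.2.unpair.1) := TR.left (TR.right (TR.left TR.id))
  have hs : TR O (fun w : ℕ => w.unpair.1.unpair.2.unpair.2) := TR.right (TR.right (TR.left TR.id))
  have hx : TR O (fun w : ℕ => w.unpair.2) := TR.right TR.id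
  have hw := hn.pair (ht.pair hx)
  have h1 : SG O (fun w : ℕ => Wt w.unpair.1.unpair.1 w.unpair.1.unpair.2.unpair.1
      w.unpair.2) := (Wt_SG.comp hw).of_iff fun w => by simp only [Nat.unpair_pair]
  have h2 : SG O (fun w : ℕ => ¬ Wt w.unpair.1.unpair.1 w.unpair.1.unpair.2.unpair.1
      w.unpair.2) := (not_Wt_SG.comp hw).of_iff fun w => by simp only [Nat.unpair_pair]
  have h3 : Dec O (fun w : ℕ => w.unpair.2 ∈ cod w.unpair.1.unpair.2.unpair.2) := dec_cod hx hs
  have h4 := (h1.and (SG.of_dec h3)).or (h2.and (SG.of_dec h3.not))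
  have hk : TR O (fun z : ℕ => z.unpair.2.unpair.1 + 2 * len z.unpair.2.unpair.2) :=
    TR.add (TR.left (TR.right TR.id))
      (TR.mul (TR.const 2) (W4b_lenTR (TR.right (TR.right TR.id))))
  refine (h4.ball hk).of_iff fun z => ?_
  simp only [Nat.unpair_pair]
  exact W4b_stage _ _ _

private theorem W4b_eq {s s' : ℕ} (h : len s = len s') (h' : ∀ i < len s, ent s i = ent s' i) :
    s = s' := by
  have h1 : Denumerable.ofNat (List ℕ) s = Denumerable.ofNat (List ℕ) s' := by
    refine List.ext_getElem h fun i hi hi' => ?_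
    have h2 := h' i hi
    unfold ent at h2
    rwa [List.getD_eq_getElem _ _ hi, List.getD_eq_getElem _ _ hi'] at h2
  have h2 := congrArg Encodable.encode h1
  rwa [Denumerable.encode_ofNat, Denumerable.encode_ofNat] at h2

private theorem W4b_ext (Z : ℕ → Prop) (u s : ℕ) :
    (∃ L, len u ≤ L ∧ s = ext Z u L) ↔
      len u ≤ len s ∧ ∀ i < len s, (i < len u ∧ ent s i = ent u i % 2) ∨
        (len u ≤ i ∧ ((ent s i = 1 ∧ Z i) ∨ (ent s i = 0 ∧ ¬ Z i))) := by
  classical
  constructor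
  · rintro ⟨L, hL, rfl⟩
    rw [len_ext]
    refine ⟨hL, fun i hi => ?_⟩
    rw [ent_ext Z u hi]
    by_cases h1 : i < len u
    · left
      exact ⟨h1, if_pos h1⟩
    · right
      refine ⟨by omega, ?_⟩
      rw [if_neg h1]
      by_cases h2 : Z i
      · left
        exact ⟨if_pos h2, h2⟩
      · right
        exact ⟨if_neg h2, h2⟩
  · rintro ⟨h1, h2⟩
    refine ⟨len s, h1, W4b_eq (len_ext _ _ _).symm fun i hi => ?_⟩
    rw [ent_ext Z u hi]
    rcases h2 i hi with ⟨h3, h4⟩ | ⟨h3, ⟨h4, h5⟩ | ⟨h4, h5⟩⟩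
    · rw [if_pos h3, h4]
    · rw [if_neg (by omega), if_pos h5, h4]
    · rw [if_neg (by omega), if_neg h5, h4]

/-- `z = (u, s)`: the string `s` is `ext Z u L` for some `L` not below the length of `u`. Compare
the bits: `Z i` is `Σ₂` if the bit is `1`, `¬ Z i` is `Σ₂` if it is `0`. -/
theorem ext_SG {Z : ℕ → Prop} (h1 : SG O Z) (h2 : SG O (fun k => ¬ Z k)) :
    SG O (fun z => ∃ L, len z.unpair.1 ≤ L ∧ z.unpair.2 = ext Z z.unpair.1 L) := by
  have hu : TR O (fun w : ℕ => w.unpair.1.unpair.1) := TR.left (TR.left TR.id)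
  have hs : TR O (fun w : ℕ => w.unpair.1.unpair.2) := TR.right (TR.left TR.id)
  have hi : TR O (fun w : ℕ => w.unpair.2) := TR.right TR.id
  have heu : TR O (fun w : ℕ => ent w.unpair.1.unpair.1 w.unpair.2 % 2) :=
    TR.mod (TR.op ent_prim hu hi) (TR.const 2)
  have hes : TR O (fun w : ℕ => ent w.unpair.1.unpair.2 w.unpair.2) := TR.op ent_prim hs hi
  have hlu : TR O (fun w : ℕ => len w.unpair.1.unpair.1) := W4b_lenTR hu
  have h3 : SG O (fun w : ℕ => w.unpair.2 < len w.unpair.1.unpair.1) :=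
    (SG.of_dec (Dec.le hlu hi).not).of_iff fun w => not_le.symm
  have h4 : SG O (fun w : ℕ => len w.unpair.1.unpair.1 ≤ w.unpair.2) := SG.of_dec (Dec.le hlu hi)
  have h5 : SG O (fun w : ℕ => ent w.unpair.1.unpair.2 w.unpair.2 =
      ent w.unpair.1.unpair.1 w.unpair.2 % 2) := SG.of_dec (Dec.eq hes heu)
  have h6 : SG O (fun w : ℕ => ent w.unpair.1.unpair.2 w.unpair.2 = 1) :=
    SG.of_dec (Dec.eq hes (TR.const 1))
  have h7 : SG O (fun w : ℕ => ent w.unpair.1.unpair.2 w.unpair.2 = 0) :=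
    SG.of_dec (Dec.eq hes (TR.const 0))
  have h8 := (h3.and h5).or (h4.and ((h6.and (h1.comp hi)).or (h7.and (h2.comp hi))))
  have hk : TR O (fun z : ℕ => len z.unpair.2) := W4b_lenTR (TR.right TR.id)
  have h9 : SG O (fun z : ℕ => len z.unpair.1 ≤ len z.unpair.2) :=
    SG.of_dec (Dec.le (W4b_lenTR (TR.left TR.id)) hk)
  refine (h9.and (h8.ball hk)).of_iff fun z => ?_
  simp only [Nat.unpair_pair]
  exact W4b_ext _ _ _

end Pool.Agent.Helper82.NL
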