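import Pool.Agent.Helper82.NL.W4b

/-!
The complexity of the enumeration of the family (project NL, MP_3235d4_lc).
-/

namespace Pool.Agent.Helper82.NL

variable {O : Set (ℕ →. ℕ)}

/-- The initial part of length `L` of the string `s`. -/
def W4c_tk (s L : ℕ) : ℕ := Encodable.encode ((List.range L).map (fun i => ent s i))

theorem W4c_tk_prim : Primrec₂ W4c_tk := by
  have h1 : Primrec (fun z : ℕ × ℕ => (List.range z.2).map (fun i => ent z.1 i)) :=
    Primrec.list_map (Primrec.list_range.comp Primrec.snd)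
      (ent_prim.comp (Primrec.fst.comp Primrec.fst) Primrec.snd)
  exact Primrec.encode.comp h1

theorem W4c_tk_ext (Z : ℕ → Prop) (u L L' : ℕ) (h : L' ≤ L) :
    W4c_tk (ext Z u L) L' = ext Z u L' := by
  unfold W4c_tk
  rw [ext]
  congr 1
  refine List.map_congr_left fun i hi => ?_
  rw [List.mem_range] at hi
  exact ent_ext Z u (by omega)

theorem W4c_iff {Z : ℕ → Prop} (hZ : ¬ (SG ∅ Z ∧ SG ∅ (fun k => ¬ Z k))) (n u t0 x : ℕ) :
    x ∈ cod (ext Z u (Lst Z n u t0)) ↔ ∃ s, (∃ L, len u ≤ L ∧ s = ext Z u L) ∧ x ∈ cod s ∧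
      ∀ L' < len s, L' < len u ∨ ∃ t, t0 ≤ t ∧ ∀ x, Wt n t x ↔ x ∈ cod (W4c_tk s L') := by
  classical
  have hex := exists_final Z hZ n u t0
  have hL : Lst Z n u t0 = Nat.find hex := by
    unfold Lst
    rw [dif_pos hex]
  obtain ⟨h1, h2⟩ := Nat.find_spec hex
  rw [← hL] at h1 h2
  constructor
  · intro hx
    refine ⟨_, ⟨_, h1, rfl⟩, hx, fun L' hL' => ?_⟩
    rw [len_ext] at hL'
    by_cases h3 : L' < len u
    · exact Or.inl h3
    · right
      have h4 := Nat.find_min hex (m := L') (by omega)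
      rw [not_and] at h4
      have h5 := h4 (by omega)
      unfold Final at h5
      push Not at h5
      obtain ⟨t, ht, h6⟩ := h5
      rw [W4c_tk_ext Z u _ _ hL'.le]
      exact ⟨t, ht, h6⟩
  · rintro ⟨s, ⟨L, hLu, rfl⟩, hx, h3⟩
    have h4 : L ≤ Lst Z n u t0 := by
      by_contra h5
      push Not at h5
      rcases h3 (Lst Z n u t0) (by rw [len_ext]; exact h5) with h6 | ⟨t, ht, h6⟩
      · omega
      · rw [W4c_tk_ext Z u _ _ h5.le] at h6
        exact h2 t ht h6
    exact cod_ext_mono Z u h4 hx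

/-- `y / 2 ∈ cod (ext Z u Lst)` iff there is `s = ext Z u L` with `|u| ≤ L`, `y / 2 ∈ cod s` and
for every `L'` with `|u| ≤ L' < L` a stage `t ≥ t0` with `Wt n t = cod (ext Z u L')` (which means
`L ≤ Lst`); `ext Z u L'` is the initial part of length `L'` of `s`. -/
theorem Vz_SG {Z : ℕ → Prop} (hZ : ¬ (SG ∅ Z ∧ SG ∅ (fun k => ¬ Z k))) (h1 : SG O Z)
    (h2 : SG O (fun k => ¬ Z k)) : SG O (fun z => z.unpair.2 ∈ Vz Z z.unpair.1) := by
  -- `v = (((z, s), L'), t)`
  have a1 : TR O (fun v => v.unpair.1.unpair.1.unpair.1.unpair.1.unpair.1) :=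
    TR.left (TR.left (TR.left (TR.left (TR.left TR.id))))
  have a2 : TR O (fun v => v.unpair.1.unpair.1.unpair.2) := TR.right (TR.left (TR.left TR.id))
  have a3 : TR O (fun v => v.unpair.1.unpair.2) := TR.right (TR.left TR.id)
  have a4 : TR O (fun v => v.unpair.1.unpair.1.unpair.1.unpair.1.unpair.2.unpair.2) :=
    TR.right (TR.right (TR.left (TR.left (TR.left (TR.left TR.id)))))
  have b1 := (stage_SG (O := O)).comp (TR.pair a1 (TR.pair (TR.right TR.id)
    (TR.op W4c_tk_prim a2 a3)))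
  have b2 := (SG.of_dec (Dec.le a4 (TR.right TR.id))).and b1
  have b3 := b2.ex
  -- `w = ((z, s), L')`
  have c1 : TR O (fun w => len w.unpair.1.unpair.1.unpair.1.unpair.2.unpair.1) :=
    (TR.of_prim len_prim).comp (TR.left (TR.right (TR.left (TR.left (TR.left TR.id)))))
  have c2 := (SG.of_dec (Dec.le (TR.add (TR.right TR.id) (TR.const 1)) c1)).or b3
  -- `q = (z, s)`
  have d1 := c2.ball (k := fun q => len q.unpair.2)
    ((TR.of_prim len_prim).comp (TR.right TR.id))
  have d2 := SG.of_dec (dec_cod (O := O) (x := fun q => q.unpair.1.unpair.2 / 2)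
    (s := fun q => q.unpair.2) (TR.div (TR.right (TR.left TR.id)) (TR.const 2)) (TR.right TR.id))
  have d3 := (ext_SG h1 h2).comp (TR.pair (TR.left (TR.right (TR.left (TR.left TR.id))))
    (TR.right (TR.id (O := O))))
  have d4 := (d3.and (d2.and d1)).ex
  have e1 := SG.of_dec (Dec.eq (O := O) (TR.mod (TR.right TR.id) (TR.const 2)) (TR.const 1))
  have e2 := SG.of_dec (Dec.eq (O := O) (TR.right TR.id)
    (TR.mul (TR.const 2) (TR.left (TR.left TR.id))))
  refine (e2.or (e1.and d4)).of_iff fun z => ?_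
  have hV : z.unpair.2 ∈ Vz Z z.unpair.1 ↔ z.unpair.2 = 2 * z.unpair.1.unpair.1 ∨
      (z.unpair.2 % 2 = 1 ∧ z.unpair.2 / 2 ∈ cod (ext Z z.unpair.1.unpair.2.unpair.1
        (Lst Z z.unpair.1.unpair.1 z.unpair.1.unpair.2.unpair.1
          z.unpair.1.unpair.2.unpair.2))) := Iff.rfl
  rw [hV, W4c_iff hZ]
  simp only [Nat.unpair_pair, Nat.succ_le_iff]

end Pool.Agent.Helper82.NL
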