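import Pool.Agent.Helper82.NL.W4
import Pool.Agent.Helper82.NL.B7

/-!
Alive data from a uniformly `Σ₂` family of finite sets (project NL, MP_3235d4_lc).
-/

namespace Pool.Agent.Helper82.NL

variable {O : Set (ℕ →. ℕ)}

/-- The coordinate `k = (x, (a, c))` of component `j` at time `t`: `c` codes the list of the least
counterexamples for the numbers below `a`, and `a` has no counterexample below `t`. -/
def alive (R : ℕ → ℕ) (j k t : ℕ) : Prop :=
  len k.unpair.2.unpair.2 = k.unpair.2.unpair.1 ∧
  (∀ a < k.unpair.2.unpair.1,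
    R (Nat.pair (Nat.pair j k.unpair.1) (Nat.pair a (ent k.unpair.2.unpair.2 a))) ≠ 0 ∧
    ∀ b < ent k.unpair.2.unpair.2 a,
      R (Nat.pair (Nat.pair j k.unpair.1) (Nat.pair a b)) = 0) ∧
  ∀ b < t, R (Nat.pair (Nat.pair j k.unpair.1) (Nat.pair k.unpair.2.unpair.1 b)) = 0

/-- At most one coordinate with given `x` is alive for ever: `a` is the least number without
counterexample, and the list is determined by its length and its entries. -/
theorem alive_unique {R : ℕ → ℕ} {j k k' : ℕ} (h : ∀ t, alive R j k t)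
    (h' : ∀ t, alive R j k' t) (hx : k.unpair.1 = k'.unpair.1) : k = k' := by
  have hA : ∀ b, R (Nat.pair (Nat.pair j k.unpair.1) (Nat.pair k.unpair.2.unpair.1 b)) = 0 :=
    fun b => (h (b + 1)).2.2 b (Nat.lt_succ_self b)
  have hA' : ∀ b, R (Nat.pair (Nat.pair j k'.unpair.1) (Nat.pair k'.unpair.2.unpair.1 b)) = 0 :=
    fun b => (h' (b + 1)).2.2 b (Nat.lt_succ_self b)
  have ha : k.unpair.2.unpair.1 = k'.unpair.2.unpair.1 := by
    rcases lt_trichotomy k.unpair.2.unpair.1 k'.unpair.2.unpair.1 with hlt | heq | hlt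
    · exfalso
      have h2 := ((h' 0).2.1 _ hlt).1
      rw [← hx] at h2
      exact h2 (hA _)
    · exact heq
    · exfalso
      have h2 := ((h 0).2.1 _ hlt).1
      rw [hx] at h2
      exact h2 (hA' _)
  have hent : ∀ i < k.unpair.2.unpair.1,
      ent k.unpair.2.unpair.2 i = ent k'.unpair.2.unpair.2 i := by
    intro i hi
    have h1 := (h 0).2.1 i hi
    have h2 := (h' 0).2.1 i (ha ▸ hi)
    rw [← hx] at h2
    rcases lt_trichotomy (ent k.unpair.2.unpair.2 i) (ent k'.unpair.2.unpair.2 i) with
      hlt | heq | hlt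
    · exact absurd (h2.2 _ hlt) h1.1
    · exact heq
    · exact absurd (h1.2 _ hlt) h2.1
  have hlen : len k.unpair.2.unpair.2 = k.unpair.2.unpair.1 := (h 0).1
  have hlen' : len k'.unpair.2.unpair.2 = k.unpair.2.unpair.1 := (h' 0).1.trans ha.symm
  have hlist : Denumerable.ofNat (List ℕ) k.unpair.2.unpair.2 =
      Denumerable.ofNat (List ℕ) k'.unpair.2.unpair.2 := by
    apply List.ext_getElem
    · exact hlen.trans hlen'.symm
    · intro i h1 h2
      have h3 := hent i (hlen ▸ h1)
      unfold ent at h3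
      rw [List.getD_eq_getElem _ _ h1, List.getD_eq_getElem _ _ h2] at h3
      exact h3
  have hc : k.unpair.2.unpair.2 = k'.unpair.2.unpair.2 := by
    have := congrArg Encodable.encode hlist
    simpa only [Denumerable.encode_ofNat] using this
  have h22 : k.unpair.2 = k'.unpair.2 := by
    rw [← Nat.pair_unpair k.unpair.2, ← Nat.pair_unpair k'.unpair.2, ha, hc]
  rw [← Nat.pair_unpair k, ← Nat.pair_unpair k', hx, h22]

/-- There is such a coordinate iff `x` belongs to the set. -/
theorem alive_exists {R : ℕ → ℕ} {j x : ℕ} : (∃ k, k.unpair.1 = x ∧ ∀ t, alive R j k t) ↔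
    ∃ a, ∀ b, R (Nat.pair (Nat.pair j x) (Nat.pair a b)) = 0 := by
  classical
  constructor
  · rintro ⟨k, rfl, h⟩
    exact ⟨k.unpair.2.unpair.1, fun b => (h (b + 1)).2.2 b (Nat.lt_succ_self b)⟩
  · intro hex
    obtain ⟨a, ha, hmin⟩ : ∃ a, (∀ b, R (Nat.pair (Nat.pair j x) (Nat.pair a b)) = 0) ∧
        ∀ a' < a, ¬ ∀ b, R (Nat.pair (Nat.pair j x) (Nat.pair a' b)) = 0 :=
      ⟨Nat.find hex, Nat.find_spec hex, fun a' h' => Nat.find_min hex h'⟩
    have hb : ∀ a' : ℕ, ∃ b : ℕ, a' < a → R (Nat.pair (Nat.pair j x) (Nat.pair a' b)) ≠ 0 ∧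
        ∀ b' < b, R (Nat.pair (Nat.pair j x) (Nat.pair a' b')) = 0 := by
      intro a'
      by_cases h' : a' < a
      · have h2 : ∃ b, R (Nat.pair (Nat.pair j x) (Nat.pair a' b)) ≠ 0 := by
          by_contra hcon
          push Not at hcon
          exact hmin a' h' hcon
        refine ⟨Nat.find h2, fun _ => ⟨Nat.find_spec h2, fun b' hb' => ?_⟩⟩
        have := Nat.find_min h2 hb'
        simpa using this
      · exact ⟨0, fun h => absurd h h'⟩
    choose B hB using hb
    have hent : ∀ i < a, ent (Encodable.encode ((List.range a).map B)) i = B i := by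
      intro i hi
      unfold ent
      rw [Denumerable.ofNat_encode,
        List.getD_eq_getElem _ _ (by simpa using hi)]
      simp
    refine ⟨Nat.pair x (Nat.pair a (Encodable.encode ((List.range a).map B))), by simp,
      fun t => ?_⟩
    unfold alive
    simp only [Nat.unpair_pair]
    refine ⟨?_, ?_, fun b _ => ha b⟩
    · unfold len
      rw [Denumerable.ofNat_encode]
      simp
    · intro i hi
      rw [hent i hi]
      exact hB i hi

end Pool.Agent.Helper82.NL
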