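import Pool.Agent.Helper82.NL.W5a

/-!
Alive data from a uniformly `Σ₂` family of finite sets (project NL, MP_3235d4_lc).
-/

namespace Pool.Agent.Helper82.NL

variable {O : Set (ℕ →. ℕ)}

private theorem W5b_dec {R : ℕ → ℕ} (hR : TR O R) :
    Dec O (fun z => alive R z.unpair.1 z.unpair.2.unpair.1 z.unpair.2.unpair.2) := by
  have hz : TR O (fun z : ℕ => z) := TR.id
  -- the matrix of the second condition
  have h1 : Dec O (fun z : ℕ => R (Nat.pair (Nat.pair z.unpair.1.unpair.1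
      z.unpair.1.unpair.2.unpair.1.unpair.1) (Nat.pair z.unpair.2
      (ent z.unpair.1.unpair.2.unpair.1.unpair.2.unpair.2 z.unpair.2))) = 0) := by
    refine ⟨_, hR.comp (TR.pair (TR.pair (TR.left (TR.left hz))
      (TR.left (TR.left (TR.right (TR.left hz))))) (TR.pair (TR.right hz)
      (TR.op ent_prim (TR.right (TR.right (TR.left (TR.right (TR.left hz))))) (TR.right hz)))),
      fun n => Iff.rfl⟩
  have h2 : Dec O (fun y : ℕ => R (Nat.pair (Nat.pair y.unpair.1.unpair.1.unpair.1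
      y.unpair.1.unpair.1.unpair.2.unpair.1.unpair.1)
      (Nat.pair y.unpair.1.unpair.2 y.unpair.2)) = 0) := by
    refine ⟨_, hR.comp (TR.pair (TR.pair (TR.left (TR.left (TR.left hz)))
      (TR.left (TR.left (TR.right (TR.left (TR.left hz)))))) (TR.pair (TR.right (TR.left hz))
      (TR.right hz))), fun n => Iff.rfl⟩
  have h3 : Dec O (fun z : ℕ => ∀ b < ent z.unpair.1.unpair.2.unpair.1.unpair.2.unpair.2
      z.unpair.2, R (Nat.pair (Nat.pair z.unpair.1.unpair.1
      z.unpair.1.unpair.2.unpair.1.unpair.1) (Nat.pair z.unpair.2 b)) = 0) :=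
    Dec.ball (p := fun z b => R (Nat.pair (Nat.pair z.unpair.1.unpair.1
      z.unpair.1.unpair.2.unpair.1.unpair.1) (Nat.pair z.unpair.2 b)) = 0) h2
      (TR.op ent_prim (TR.right (TR.right (TR.left (TR.right (TR.left hz))))) (TR.right hz))
  have h4 : Dec O (fun z : ℕ => ∀ a < z.unpair.2.unpair.1.unpair.2.unpair.1,
      R (Nat.pair (Nat.pair z.unpair.1 z.unpair.2.unpair.1.unpair.1) (Nat.pair a
      (ent z.unpair.2.unpair.1.unpair.2.unpair.2 a))) ≠ 0 ∧
      ∀ b < ent z.unpair.2.unpair.1.unpair.2.unpair.2 a,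
      R (Nat.pair (Nat.pair z.unpair.1 z.unpair.2.unpair.1.unpair.1) (Nat.pair a b)) = 0) :=
    Dec.ball (p := fun z a => R (Nat.pair (Nat.pair z.unpair.1 z.unpair.2.unpair.1.unpair.1)
      (Nat.pair a (ent z.unpair.2.unpair.1.unpair.2.unpair.2 a))) ≠ 0 ∧
      ∀ b < ent z.unpair.2.unpair.1.unpair.2.unpair.2 a,
      R (Nat.pair (Nat.pair z.unpair.1 z.unpair.2.unpair.1.unpair.1) (Nat.pair a b)) = 0)
      (Dec.and (Dec.not h1) h3) (TR.left (TR.right (TR.left (TR.right hz))))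
  have h5 : Dec O (fun y : ℕ => R (Nat.pair (Nat.pair y.unpair.1.unpair.1
      y.unpair.1.unpair.2.unpair.1.unpair.1)
      (Nat.pair y.unpair.1.unpair.2.unpair.1.unpair.2.unpair.1 y.unpair.2)) = 0) := by
    refine ⟨_, hR.comp (TR.pair (TR.pair (TR.left (TR.left hz))
      (TR.left (TR.left (TR.right (TR.left hz)))))
      (TR.pair (TR.left (TR.right (TR.left (TR.right (TR.left hz)))))
      (TR.right hz))), fun n => Iff.rfl⟩
  have h6 : Dec O (fun z : ℕ => ∀ b < z.unpair.2.unpair.2,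
      R (Nat.pair (Nat.pair z.unpair.1 z.unpair.2.unpair.1.unpair.1)
      (Nat.pair z.unpair.2.unpair.1.unpair.2.unpair.1 b)) = 0) :=
    Dec.ball (p := fun z b => R (Nat.pair (Nat.pair z.unpair.1 z.unpair.2.unpair.1.unpair.1)
      (Nat.pair z.unpair.2.unpair.1.unpair.2.unpair.1 b)) = 0) h5 (TR.right (TR.right hz))
  have h7 : Dec O (fun z : ℕ => len z.unpair.2.unpair.1.unpair.2.unpair.2 =
      z.unpair.2.unpair.1.unpair.2.unpair.1) :=
    Dec.eq (TR.comp (TR.of_prim len_prim) (TR.right (TR.right (TR.left (TR.right hz)))))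
      (TR.left (TR.right (TR.left (TR.right hz))))
  exact Dec.of_iff (Dec.and h7 (Dec.and h4 h6)) fun n => Iff.rfl

theorem exists_AD {V : ℕ → Set ℕ} (hfin : ∀ j, (V j).Finite)
    (hV : SG O (fun z => z.unpair.2 ∈ V z.unpair.1)) :
    ∃ D : AD, D.Eff O ∧ ∀ j, D.N j = ∏ y ∈ (hfin j).toFinset, Fe y := by
  obtain ⟨R, hR, hp⟩ := hV
  have hp' : ∀ j x, x ∈ V j ↔ ∃ a, ∀ b, R (Nat.pair (Nat.pair j x) (Nat.pair a b)) = 0 := by
    intro j x
    have h1 := hp (Nat.pair j x)
    simpa using h1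
  have hmem : ∀ j k, (∀ t, alive R j k t) → k.unpair.1 ∈ V j :=
    fun j k h => (hp' j _).2 (alive_exists.1 ⟨k, rfl, h⟩)
  let D : AD :=
    { al := alive R
      anti := fun j k t h => ⟨h.1, h.2.1, fun b hb => h.2.2 b (Nat.lt_succ_of_lt hb)⟩
      idx := fun k => k.unpair.1
      fin := fun j => Set.Finite.of_injOn (f := fun k : ℕ => k.unpair.1) (t := V j)
        (fun k hk => hmem j k hk) (fun k hk k' hk' h => alive_unique hk hk' h) (hfin j)
      inj := fun j k k' h h' hx => alive_unique h h' hx }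
  refine ⟨D, ⟨?_, TR.left TR.id⟩, fun j => ?_⟩
  · obtain ⟨r, hr, h⟩ := W5b_dec hR
    refine ⟨r, hr, fun j k t => ?_⟩
    have h1 := h (Nat.pair j (Nat.pair k t))
    simp only [Nat.unpair_pair] at h1
    exact h1
  · have hA : ∀ k, k ∈ D.A j ↔ ∀ t, alive R j k t := by
      intro k
      unfold AD.A
      rw [Set.Finite.mem_toFinset]
      exact Iff.rfl
    unfold AD.N
    refine Finset.prod_nbij (fun k : ℕ => k.unpair.1) ?_ ?_ ?_ ?_
    · intro k hk
      rw [Set.Finite.mem_toFinset]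
      exact hmem j k ((hA k).1 hk)
    · intro k hk k' hk' h
      exact alive_unique ((hA k).1 hk) ((hA k').1 hk') h
    · intro x hx
      rw [Finset.mem_coe, Set.Finite.mem_toFinset] at hx
      obtain ⟨k, hk, h⟩ := alive_exists.2 ((hp' j x).1 hx)
      exact ⟨k, Finset.mem_coe.2 ((hA k).2 h), hk⟩
    · intro k hk
      rfl

end Pool.Agent.Helper82.NL
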