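import Pool.Agent.Helper82.NL.W1

/-!
Enumerations with infinite repetition (project NL, MP_3235d4_lc).
-/

namespace Pool.Agent.Helper82.NL

private theorem W6a_fibre (N N' : ℕ → ℕ) (h1 : ∀ j, {i | N' i = N j}.Infinite)
    (h2 : ∀ j, {i | N i = N' j}.Infinite) (v : ℕ) :
    Nonempty ({i // N' i = v} ≃ {i // N i = v}) := by
  by_cases hv : ∃ i, N i = v
  · obtain ⟨i, rfl⟩ := hv
    have a : {k | N' k = N i}.Infinite := h1 i
    obtain ⟨k, hk⟩ := a.nonempty
    have hk' : N' k = N i := hk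
    have b : {m | N m = N i}.Infinite := by
      have := h2 k
      rwa [hk'] at this
    haveI : Infinite {k // N' k = N i} := a.to_subtype
    haveI : Infinite {m // N m = N i} := b.to_subtype
    exact nonempty_equiv_of_countable
  · have hv' : ¬ ∃ k, N' k = v := by
      rintro ⟨k, rfl⟩
      obtain ⟨m, hm⟩ := (h2 k).nonempty
      exact hv ⟨m, hm⟩
    haveI : IsEmpty {i // N' i = v} := ⟨fun x => hv' ⟨x.1, x.2⟩⟩
    haveI : IsEmpty {i // N i = v} := ⟨fun x => hv ⟨x.1, x.2⟩⟩
    exact ⟨Equiv.equivOfIsEmpty _ _⟩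

/-- Two sequences with the same values, each value taken infinitely often, differ by a permutation:
the fibres are infinite subsets of `ℕ`, hence equivalent; `Equiv.sigmaFiberEquiv`. -/
theorem matching (N N' : ℕ → ℕ) (h1 : ∀ j, {i | N' i = N j}.Infinite)
    (h2 : ∀ j, {i | N i = N' j}.Infinite) : ∃ π : ℕ ≃ ℕ, ∀ j, N (π j) = N' j := by
  have e : ∀ v, ({i // N' i = v} ≃ {i // N i = v}) :=
    fun v => Classical.choice (W6a_fibre N N' h1 h2 v)
  refine ⟨(Equiv.sigmaFiberEquiv N').symm.trans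
    ((Equiv.sigmaCongrRight e).trans (Equiv.sigmaFiberEquiv N)), fun j => ?_⟩
  exact (e (N' j) ⟨j, rfl⟩).2

end Pool.Agent.Helper82.NL
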