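import Pool.Agent.Helper82.NL.W6a

/-!
Enumerations with infinite repetition (project NL, MP_3235d4_lc).
-/

namespace Pool.Agent.Helper82.NL

/-- A sequence of winding numbers in which all winding numbers of the family, and no others, occur
infinitely often. -/
theorem exists_N : ∃ N : ℕ → ℕ, (∀ j, ∃ n s, cod s ≠ W n ∧ N j = NN n s) ∧
    ∀ n s, cod s ≠ W n → {j | N j = NN n s}.Infinite := by
  classical
  obtain ⟨s0, h0⟩ := exists_cod_ne 0
  refine ⟨fun j => if cod j.unpair.1.unpair.2 ≠ W j.unpair.1.unpair.1 then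
    NN j.unpair.1.unpair.1 j.unpair.1.unpair.2 else NN 0 s0, ?_, ?_⟩
  · intro j
    by_cases h : cod j.unpair.1.unpair.2 ≠ W j.unpair.1.unpair.1
    · exact ⟨_, _, h, if_pos h⟩
    · exact ⟨0, s0, h0, if_neg h⟩
  · intro n s h
    have hinj : Function.Injective fun b : ℕ => Nat.pair (Nat.pair n s) b := by
      intro b b' hb
      exact (Nat.pair_eq_pair.1 hb).2
    refine (Set.infinite_range_of_injective hinj).mono ?_
    rintro j ⟨b, rfl⟩
    simp only [Set.mem_setOf_eq, Nat.unpair_pair]
    rw [if_pos h]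

end Pool.Agent.Helper82.NL
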